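import Pool.Agent.HFin.Defs

namespace HFin

open scoped ContDiff

variable {V : Type*} [NormedAddCommGroup V] [NormedSpace ℝ V]

theorem energy_smooth {F : V → ℝ} (hF : IsMinkowski F) :
    ContDiffOn ℝ ∞ (fun z => F z ^ 2 / 2) {x | x ≠ 0} := (hF.smooth.pow 2).div_const 2

omit [NormedSpace ℝ V] in
lemma A1_open : IsOpen {x : V | x ≠ 0} := isOpen_ne

lemma A1_denergy_smooth {F : V → ℝ} (hF : IsMinkowski F) :
    ContDiffOn ℝ ∞ (fun y => fderiv ℝ (fun z => F z ^ 2 / 2) y) {x | x ≠ 0} :=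
  (energy_smooth hF).fderiv_of_isOpen A1_open le_rfl

theorem fund_smooth {F : V → ℝ} (hF : IsMinkowski F) :
    ContDiffOn ℝ ∞ (fund F) {x | x ≠ 0} :=
  (A1_denergy_smooth hF).fderiv_of_isOpen A1_open le_rfl

theorem fund_eval_smooth {F : V → ℝ} (hF : IsMinkowski F) (u v : V) :
    ContDiffOn ℝ ∞ (fun y => fund F y u v) {x | x ≠ 0} :=
  ((fund_smooth hF).clm_apply contDiffOn_const).clm_apply contDiffOn_const

lemma A1_energy_diff {F : V → ℝ} (hF : IsMinkowski F) {x : V} (hx : x ≠ 0) :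
    DifferentiableAt ℝ (fun z => F z ^ 2 / 2) x :=
  ((energy_smooth hF).contDiffAt (A1_open.mem_nhds hx)).differentiableAt (by simp)

lemma A1_denergy_diff {F : V → ℝ} (hF : IsMinkowski F) {x : V} (hx : x ≠ 0) :
    DifferentiableAt ℝ (fun y => fderiv ℝ (fun z => F z ^ 2 / 2) y) x :=
  ((A1_denergy_smooth hF).contDiffAt (A1_open.mem_nhds hx)).differentiableAt (by simp)

lemma A1_fund_diff {F : V → ℝ} (hF : IsMinkowski F) {x : V} (hx : x ≠ 0) :
    DifferentiableAt ℝ (fund F) x :=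
  ((fund_smooth hF).contDiffAt (A1_open.mem_nhds hx)).differentiableAt (by simp)

theorem fund_symm {F : V → ℝ} (hF : IsMinkowski F) {x : V} (hx : x ≠ 0) (u v : V) :
    fund F x u v = fund F x v u := by
  have h1 : ∀ᶠ y in nhds x, HasFDerivAt (fun z => F z ^ 2 / 2)
      (fderiv ℝ (fun z => F z ^ 2 / 2) y) y := by
    filter_upwards [A1_open.mem_nhds hx] with y hy
    exact (A1_energy_diff hF hy).hasFDerivAt
  exact second_derivative_symmetric_of_eventually h1 (A1_denergy_diff hF hx).hasFDerivAt u v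

/-- `g_y(·, v)` is the derivative of `z ↦ D(F²/2)(z) v`. -/
lemma A1_fund_eq {F : V → ℝ} (hF : IsMinkowski F) {x : V} (hx : x ≠ 0) (v : V) :
    HasFDerivAt (fun z => fderiv ℝ (fun z => F z ^ 2 / 2) z v)
      ((ContinuousLinearMap.apply ℝ ℝ v).comp (fund F x)) x :=
  (ContinuousLinearMap.apply ℝ ℝ v).hasFDerivAt.comp x (A1_denergy_diff hF hx).hasFDerivAt

/-- The derivative of `y ↦ g_y(a,b)`. -/
lemma A1_fund_eval {F : V → ℝ} (hF : IsMinkowski F) {x : V} (hx : x ≠ 0) (a b : V) :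
    HasFDerivAt (fun y => fund F y a b) (((fderiv ℝ (fund F) x).flip a).flip b) x := by
  have h2 : HasFDerivAt (fund F) (fderiv ℝ (fund F) x) x := (A1_fund_diff hF hx).hasFDerivAt
  have h5 := (h2.clm_apply (hasFDerivAt_const a x)).clm_apply (hasFDerivAt_const b x)
  refine h5.congr_fderiv ?_
  ext c
  simp

/-- Total symmetry of the third derivative of `F²/2`. -/
theorem dfund_symm {F : V → ℝ} (hF : IsMinkowski F) {x : V} (hx : x ≠ 0) (u v w : V) :
    fderiv ℝ (fun y => fund F y u v) x w = fderiv ℝ (fun y => fund F y w v) x u := by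
  have h1 : ∀ᶠ y in nhds x, HasFDerivAt (fun z => fderiv ℝ (fun z => F z ^ 2 / 2) z v)
      ((ContinuousLinearMap.apply ℝ ℝ v).comp (fund F y)) y := by
    filter_upwards [A1_open.mem_nhds hx] with y hy
    exact A1_fund_eq hF hy v
  have h2 : HasFDerivAt (fund F) (fderiv ℝ (fund F) x) x := (A1_fund_diff hF hx).hasFDerivAt
  have h3 := (hasFDerivAt_const (ContinuousLinearMap.apply ℝ ℝ v) x).clm_comp h2
  have h4 := second_derivative_symmetric_of_eventually h1 h3 w u
  rw [(A1_fund_eval hF hx u v).fderiv, (A1_fund_eval hF hx w v).fderiv]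
  simpa using h4

end HFin
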