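import Pool.Agent.HFin.A1

namespace HFin

open scoped ContDiff

variable {V : Type*} [NormedAddCommGroup V] [NormedSpace ℝ V]

lemma A2_energy_smul {F : V → ℝ} (hF : IsMinkowski F) {c : ℝ} (hc : 0 < c) (z : V) :
    F (c • z) ^ 2 / 2 = c ^ 2 * (F z ^ 2 / 2) := by
  rw [hF.smul c z hc.le]
  ring

/-- `DE(c x) = c DE(x)` -/
lemma A2_denergy_smul {F : V → ℝ} (hF : IsMinkowski F) {x : V} (hx : x ≠ 0) {c : ℝ} (hc : 0 < c) :
    fderiv ℝ (fun z => F z ^ 2 / 2) (c • x) = c • fderiv ℝ (fun z => F z ^ 2 / 2) x := by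
  have hcx : c • x ≠ 0 := smul_ne_zero hc.ne' hx
  have h1 : HasFDerivAt (fun z => F (c • z) ^ 2 / 2)
      ((fderiv ℝ (fun z => F z ^ 2 / 2) (c • x)).comp (c • ContinuousLinearMap.id ℝ V)) x :=
    (A1_energy_diff hF hcx).hasFDerivAt.comp x ((hasFDerivAt_id x).const_smul c)
  have h2 : HasFDerivAt (fun z => F (c • z) ^ 2 / 2)
      (c ^ 2 • fderiv ℝ (fun z => F z ^ 2 / 2) x) x := by
    have e : (fun z => F (c • z) ^ 2 / 2) = fun z => c ^ 2 * (F z ^ 2 / 2) := by
      funext z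
      exact A2_energy_smul hF hc z
    rw [e]
    exact (A1_energy_diff hF hx).hasFDerivAt.const_mul (c ^ 2)
  have h3 := h1.unique h2
  ext v
  have h4 := congrArg (fun f : V →L[ℝ] ℝ => f v) h3
  simp at h4
  have hc' : c ≠ 0 := hc.ne'
  have h5 : c * (fderiv ℝ (fun z => F z ^ 2 / 2) (c • x) v) =
      c * (c * (fderiv ℝ (fun z => F z ^ 2 / 2) x v)) := by
    rw [h4]; ring
  simpa using mul_left_cancel₀ hc' h5

theorem fund_smul {F : V → ℝ} (hF : IsMinkowski F) {x : V} (hx : x ≠ 0) {c : ℝ} (hc : 0 < c) :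
    fund F (c • x) = fund F x := by
  have hcx : c • x ≠ 0 := smul_ne_zero hc.ne' hx
  have h1 : HasFDerivAt (fun y => fderiv ℝ (fun z => F z ^ 2 / 2) (c • y))
      ((fund F (c • x)).comp (c • ContinuousLinearMap.id ℝ V)) x :=
    (A1_denergy_diff hF hcx).hasFDerivAt.comp x ((hasFDerivAt_id x).const_smul c)
  have h2 : HasFDerivAt (fun y => fderiv ℝ (fun z => F z ^ 2 / 2) (c • y))
      (c • fund F x) x := by
    have h20 : HasFDerivAt (fun y => c • fderiv ℝ (fun z => F z ^ 2 / 2) y) (c • fund F x) x :=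
      (A1_denergy_diff hF hx).hasFDerivAt.const_smul c
    refine h20.congr_of_eventuallyEq ?_
    filter_upwards [A1_open.mem_nhds hx] with y hy
    exact A2_denergy_smul hF hy hc
  have h3 := h1.unique h2
  ext u v
  have h4 := congrArg (fun f : V →L[ℝ] V →L[ℝ] ℝ => f u v) h3
  simp at h4
  rcases h4 with h4 | h4
  · exact h4
  · exact absurd h4 hc.ne'

lemma A2_ray (x : V) : HasDerivAt (fun c : ℝ => c • x) x 1 := by
  simpa using (hasDerivAt_id (1 : ℝ)).smul_const x

/-- Euler: `g_x(x, v) = D(F²/2)(x) v`. -/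
theorem fund_self {F : V → ℝ} (hF : IsMinkowski F) {x : V} (hx : x ≠ 0) (v : V) :
    fund F x x v = fderiv ℝ (fun z => F z ^ 2 / 2) x v := by
  have h1 : HasDerivAt (fun c : ℝ => fderiv ℝ (fun z => F z ^ 2 / 2) (c • x)) (fund F x x) 1 := by
    have h10 : HasFDerivAt (fun y => fderiv ℝ (fun z => F z ^ 2 / 2) y) (fund F x)
        ((1 : ℝ) • x) := by
      rw [one_smul]
      exact (A1_denergy_diff hF hx).hasFDerivAt
    exact h10.comp_hasDerivAt 1 (A2_ray x)
  have h2 : HasDerivAt (fun c : ℝ => fderiv ℝ (fun z => F z ^ 2 / 2) (c • x))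
      (fderiv ℝ (fun z => F z ^ 2 / 2) x) 1 := by
    have h20 : HasDerivAt (fun c : ℝ => c • fderiv ℝ (fun z => F z ^ 2 / 2) x)
        (fderiv ℝ (fun z => F z ^ 2 / 2) x) 1 := by
      simpa using (hasDerivAt_id (1 : ℝ)).smul_const (fderiv ℝ (fun z => F z ^ 2 / 2) x)
    refine h20.congr_of_eventuallyEq ?_
    filter_upwards [lt_mem_nhds (show (0 : ℝ) < 1 by norm_num)] with c hc
    exact A2_denergy_smul hF hx hc
  rw [h1.unique h2]

/-- `g_x(x, x) = F(x)²`. -/
theorem fund_self_self {F : V → ℝ} (hF : IsMinkowski F) {x : V} (hx : x ≠ 0) :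
    fund F x x x = F x ^ 2 := by
  rw [fund_self hF hx]
  have h1 : HasDerivAt (fun c : ℝ => F (c • x) ^ 2 / 2) (fderiv ℝ (fun z => F z ^ 2 / 2) x x) 1 := by
    have h10 : HasFDerivAt (fun z => F z ^ 2 / 2) (fderiv ℝ (fun z => F z ^ 2 / 2) x)
        ((1 : ℝ) • x) := by
      rw [one_smul]
      exact (A1_energy_diff hF hx).hasFDerivAt
    exact h10.comp_hasDerivAt 1 (A2_ray x)
  have h2 : HasDerivAt (fun c : ℝ => F (c • x) ^ 2 / 2) (F x ^ 2) 1 := by
    have h20 : HasDerivAt (fun c : ℝ => c ^ 2 * (F x ^ 2 / 2)) (F x ^ 2) 1 := by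
      have := (hasDerivAt_pow 2 (1 : ℝ)).mul_const (F x ^ 2 / 2)
      refine this.congr_deriv ?_
      norm_num
      ring
    refine h20.congr_of_eventuallyEq ?_
    filter_upwards [lt_mem_nhds (show (0 : ℝ) < 1 by norm_num)] with c hc
    exact A2_energy_smul hF hc x
  exact h1.unique h2

/-- `g` is homogeneous of degree `0`. -/
theorem dfund_self {F : V → ℝ} (hF : IsMinkowski F) {x : V} (hx : x ≠ 0) (u v : V) :
    fderiv ℝ (fun y => fund F y u v) x x = 0 := by
  have h0 := A1_fund_eval hF hx u v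
  have h1 : HasDerivAt (fun c : ℝ => fund F (c • x) u v)
      (fderiv ℝ (fun y => fund F y u v) x x) 1 := by
    have h10 : HasFDerivAt (fun y => fund F y u v) (fderiv ℝ (fun y => fund F y u v) x)
        ((1 : ℝ) • x) := by
      rw [one_smul]
      exact h0.differentiableAt.hasFDerivAt
    exact h10.comp_hasDerivAt 1 (A2_ray x)
  have h2 : HasDerivAt (fun c : ℝ => fund F (c • x) u v) 0 1 := by
    refine (hasDerivAt_const (1 : ℝ) (fund F x u v)).congr_of_eventuallyEq ?_
    filter_upwards [lt_mem_nhds (show (0 : ℝ) < 1 by norm_num)] with c hc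
    rw [fund_smul hF hx hc]
  exact h1.unique h2

/-- Cauchy-Schwarz for `g_x`: the denominator of the flag curvature is positive. -/
theorem denom_pos {F : V → ℝ} (hF : IsMinkowski F) {x w : V}
    (h : LinearIndependent ℝ ![x, w]) :
    0 < fund F x x x * fund F x w w - fund F x x w ^ 2 := by
  have hx : x ≠ 0 := h.ne_zero 0
  have hA : 0 < fund F x x x := hF.conv x x hx hx
  set A := fund F x x x with hAd
  set B := fund F x x w with hBd
  set C := fund F x w w with hCd
  have hv : A • w - B • x ≠ 0 := by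
    intro h0
    have h1 := LinearIndependent.pair_iff.mp h (-B) A (by rw [← h0]; module)
    exact hA.ne' h1.2
  have h2 := hF.conv x (A • w - B • x) hx hv
  have h3 : fund F x (A • w - B • x) (A • w - B • x) = A * (A * C - B ^ 2) := by
    have hs : fund F x w x = B := fund_symm hF hx w x
    simp only [map_sub, map_smul, sub_apply, smul_apply, smul_eq_mul,
      hs, ← hAd, ← hBd, ← hCd]
    ring
  rw [h3] at h2
  exact (pos_iff_pos_of_mul_pos h2).mp hA

end HFin
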