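import Pool.Agent.HFin.A2

/-! MODULE A3 (diff 2): the spray and the connection are well defined.

`g_x` is a positive definite symmetric form on the finite-dimensional space `V`: the linear map
`V → Dual V`, `e ↦ g_x(e, ·)` is injective (`g_x(e,e) > 0` for `e ≠ 0`, `hF.conv`), hence bijective.
The right-hand sides in the definitions of `spray` and `conn` are linear in the test vector
(for `conn` the last term: `u ↦ D(fun y => g_y(w,u))(x)(η)` is linear because `y ↦ g_y` is
differentiable at `x`, `fund_smooth`).  Then use `Classical.epsilon_spec`.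
-/

namespace HFin

open scoped ContDiff

variable {V : Type*} [NormedAddCommGroup V] [NormedSpace ℝ V]

/-- `g_x` is nondegenerate. -/
theorem fund_inj {F : V → ℝ} (hF : IsMinkowski F) {x : V} (hx : x ≠ 0) {u u' : V}
    (h : ∀ v, fund F x u v = fund F x u' v) : u = u' := by
  by_contra hne
  have hd : u - u' ≠ 0 := sub_ne_zero.mpr hne
  have hpos := hF.conv x (u - u') hx hd
  have hz : fund F x (u - u') (u - u') = 0 := by
    rw [map_sub (fund F x) u u']
    change fund F x u (u - u') - fund F x u' (u - u') = 0
    rw [h (u - u'), sub_self]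
  linarith

/-- `y ↦ g_y` is differentiable off `0`. -/
theorem A3_fund_diff {F : V → ℝ} (hF : IsMinkowski F) {x : V} (hx : x ≠ 0) :
    DifferentiableAt ℝ (fund F) x := by
  have hopen : IsOpen {x : V | x ≠ 0} := isOpen_ne
  exact ((fund_smooth hF).contDiffAt (hopen.mem_nhds hx)).differentiableAt (by simp)

theorem A3_fderiv_eval {F : V → ℝ} (hF : IsMinkowski F) {x : V} (hx : x ≠ 0) (w u η : V) :
    fderiv ℝ (fun y => fund F y w u) x η = fderiv ℝ (fund F) x η w u := by
  have hd := (A3_fund_diff hF hx).hasFDerivAt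
  have h1 := (hd.clm_apply (hasFDerivAt_const w x)).clm_apply (hasFDerivAt_const u x)
  rw [h1.fderiv]
  simp

variable [FiniteDimensional ℝ V]

/-- Every linear functional is represented by `g_x`. -/
theorem exists_repr {F : V → ℝ} (hF : IsMinkowski F) {x : V} (hx : x ≠ 0) (f : V →ₗ[ℝ] ℝ) :
    ∃ e, ∀ v, fund F x e v = f v := by
  let T : V →ₗ[ℝ] (V →ₗ[ℝ] ℝ) :=
    (ContinuousLinearMap.coeLM ℝ).comp (fund F x).toLinearMap
  have hTa : ∀ e v, T e v = fund F x e v := fun e v => rfl
  have hinj : Function.Injective T := by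
    intro u u' h
    refine fund_inj hF hx (fun v => ?_)
    rw [← hTa, ← hTa, h]
  have hsurj : Function.Surjective T :=
    (LinearMap.injective_iff_surjective_of_finrank_eq_finrank
      (Subspace.dual_finrank_eq (K := ℝ) (V := V)).symm).mp hinj
  obtain ⟨e, he⟩ := hsurj f
  refine ⟨e, fun v => ?_⟩
  rw [← hTa, he]

theorem spray_spec (D : RedData V) {F : V → ℝ} (hF : IsMinkowski F) {x : V} (hx : x ≠ 0) (v : V) :
    fund F x (spray D F x) v = fund F x x (D.mm v x) := by
  have hex : ∃ e, ∀ v, fund F x e v = fund F x x (D.mm v x) := by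
    obtain ⟨e, he⟩ := exists_repr hF hx
      ((fund F x x).toLinearMap.comp (D.mm.flip x).toLinearMap)
    exact ⟨e, fun v => he v⟩
  exact Classical.epsilon_spec hex v

theorem conn_spec (D : RedData V) {F : V → ℝ} (hF : IsMinkowski F) {x : V} (hx : x ≠ 0)
    (w u : V) : 2 * fund F x (conn D F x w) u =
      fund F x (D.mm u w) x + fund F x (D.mm u x) w + fund F x (D.mm w x) u
        - fderiv ℝ (fun y => fund F y w u) x (spray D F x) := by
  have hex : ∃ n, ∀ u, 2 * fund F x n u =
      fund F x (D.mm u w) x + fund F x (D.mm u x) w + fund F x (D.mm w x) u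
        - fderiv ℝ (fun y => fund F y w u) x (spray D F x) := by
    obtain ⟨e, he⟩ := exists_repr hF hx
      ((1 / 2 : ℝ) • (((fund F x).flip x).comp (D.mm.flip w) + ((fund F x).flip w).comp (D.mm.flip x)
        + fund F x (D.mm w x) - fderiv ℝ (fund F) x (spray D F x) w).toLinearMap)
    refine ⟨e, fun u => ?_⟩
    rw [he u, A3_fderiv_eval hF hx]
    simp only [LinearMap.smul_apply, ContinuousLinearMap.coe_coe, sub_apply,
      add_apply, ContinuousLinearMap.comp_apply, ContinuousLinearMap.flip_apply,
      smul_eq_mul]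
    ring
  exact Classical.epsilon_spec hex u

theorem conn_add (D : RedData V) {F : V → ℝ} (hF : IsMinkowski F) {x : V} (hx : x ≠ 0)
    (w w' : V) : conn D F x (w + w') = conn D F x w + conn D F x w' := by
  refine fund_inj hF hx (fun u => ?_)
  have h1 := conn_spec D hF hx (w + w') u
  have h2 := conn_spec D hF hx w u
  have h3 := conn_spec D hF hx w' u
  rw [A3_fderiv_eval hF hx] at h1 h2 h3
  simp only [map_add, add_apply] at h1 h2 h3 ⊢
  linarith

theorem conn_smul (D : RedData V) {F : V → ℝ} (hF : IsMinkowski F) {x : V} (hx : x ≠ 0)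
    (c : ℝ) (w : V) : conn D F x (c • w) = c • conn D F x w := by
  refine fund_inj hF hx (fun u => ?_)
  have h1 := conn_spec D hF hx (c • w) u
  have h2 := conn_spec D hF hx w u
  rw [A3_fderiv_eval hF hx] at h1 h2
  simp only [map_smul, smul_apply, smul_eq_mul] at h1 h2 ⊢
  have h3 : 2 * (fund F x (conn D F x (c • w)) u) = 2 * (c * fund F x (conn D F x w) u) := by
    rw [h1]
    linear_combination (-c) * h2
  linarith

end HFin
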