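import Pool.Agent.HFin.A3

/-! MODULE A4 (diff 2-3): smoothness of the spray and of the connection.

General lemma `repr_smooth`: if `f : V → (V →L[ℝ] ℝ)` is smooth on `{x ≠ 0}` and
`g_x(e x, v) = f x v` for all `x ≠ 0` and `v`, then `e` is smooth on `{x ≠ 0}`.
Proof: `g_x : V →L (V →L ℝ)` is invertible for `x ≠ 0` (injective + finite dimension, so it is
(the coercion of) a `ContinuousLinearEquiv`), `x ↦ g_x` is smooth (`fund_smooth`), inversion of
continuous linear equivalences is smooth (`contDiffAt_map_inverse`, with `ContinuousLinearMap.inverse`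
or `Ring.inverse`), and `e x = (g_x).inverse (f x)`.
Apply it to `spray` (`f x v = g_x(x, [v,x])`) and to `conn` (`f x u` = half of the right-hand side of
`conn_spec`; it involves `D(fund F)(x)(spray x)`, smooth because `fund F` and `spray` are).
-/

namespace HFin

open scoped ContDiff

variable {V : Type*} [NormedAddCommGroup V] [NormedSpace ℝ V] [FiniteDimensional ℝ V]

theorem A4_open : IsOpen {x : V | x ≠ 0} := isOpen_compl_singleton

/-- `g_x` as a continuous linear equivalence -/
theorem A4_equiv {F : V → ℝ} (hF : IsMinkowski F) {x : V} (hx : x ≠ 0) :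
    ∃ e : V ≃L[ℝ] (V →L[ℝ] ℝ), (e : V →L[ℝ] (V →L[ℝ] ℝ)) = fund F x := by
  have : CompleteSpace V := FiniteDimensional.complete ℝ V
  have hinj : (fund F x : V →ₗ[ℝ] (V →L[ℝ] ℝ)).ker = ⊥ := by
    rw [LinearMap.ker_eq_bot]
    intro u u' h
    apply fund_inj hF hx
    intro v
    exact congrArg (fun f : V →L[ℝ] ℝ => f v) h
  have hsurj : (fund F x : V →ₗ[ℝ] (V →L[ℝ] ℝ)).range = ⊤ := by
    rw [LinearMap.range_eq_top]
    intro g
    obtain ⟨e, he⟩ := exists_repr hF hx (g : V →ₗ[ℝ] ℝ)
    exact ⟨e, ContinuousLinearMap.ext he⟩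
  exact ⟨ContinuousLinearEquiv.ofBijective (fund F x) hinj hsurj,
    ContinuousLinearEquiv.coe_ofBijective _ _ _⟩

theorem repr_smooth {F : V → ℝ} (hF : IsMinkowski F) (f : V → V →L[ℝ] ℝ)
    (hf : ContDiffOn ℝ ∞ f {x | x ≠ 0}) (e : V → V)
    (he : ∀ x, x ≠ 0 → ∀ v, fund F x (e x) v = f x v) :
    ContDiffOn ℝ ∞ e {x | x ≠ 0} := by
  have : CompleteSpace V := FiniteDimensional.complete ℝ V
  intro x hx
  apply ContDiffAt.contDiffWithinAt
  obtain ⟨e₀, h0⟩ := A4_equiv hF hx
  have h1 : ContDiffAt ℝ ∞ (fund F) x := (fund_smooth hF).contDiffAt (A4_open.mem_nhds hx)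
  have h2 : ContDiffAt ℝ ∞ f x := hf.contDiffAt (A4_open.mem_nhds hx)
  have h3 : ContDiffAt ℝ ∞ ContinuousLinearMap.inverse (fund F x) := by
    rw [← h0]
    exact contDiffAt_map_inverse e₀
  have h4 : ContDiffAt ℝ ∞ (fun y => ContinuousLinearMap.inverse (fund F y) (f y)) x :=
    (h3.comp x h1).clm_apply h2
  refine h4.congr_of_eventuallyEq ?_
  filter_upwards [A4_open.mem_nhds hx] with y hy
  obtain ⟨e₁, he₁⟩ := A4_equiv hF hy
  rw [← he₁, ContinuousLinearMap.inverse_equiv]
  show e y = e₁.symm (f y)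
  rw [ContinuousLinearEquiv.eq_symm_apply]
  refine ContinuousLinearMap.ext fun v => ?_
  rw [← he y hy v, ← he₁]
  rfl

theorem spray_smooth (D : RedData V) {F : V → ℝ} (hF : IsMinkowski F) :
    ContDiffOn ℝ ∞ (spray D F) {x | x ≠ 0} := by
  apply repr_smooth hF (fun x => (fund F x x).comp (D.mm.flip x))
  · exact ((fund_smooth hF).clm_apply contDiffOn_id).clm_comp
      (D.mm.flip.contDiff.contDiffOn)
  · intro x hx v
    rw [spray_spec D hF hx]
    rfl

theorem A4_smooth1 {F : V → ℝ} (hF : IsMinkowski F) (w : V) :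
    ContDiffOn ℝ ∞ (fun y => fund F y w) {x | x ≠ 0} :=
  (fund_smooth hF).clm_apply contDiffOn_const

theorem A4_eval {F : V → ℝ} (hF : IsMinkowski F) {x : V} (hx : x ≠ 0) (w u z : V) :
    fderiv ℝ (fun y => fund F y w u) x z = fderiv ℝ (fun y => fund F y w) x z u := by
  have h2 : DifferentiableAt ℝ (fun y => fund F y w) x :=
    ((A4_smooth1 hF w).contDiffAt (A4_open.mem_nhds hx)).differentiableAt (by simp)
  rw [fderiv_clm_apply h2 (differentiableAt_const u)]
  simp

theorem conn_smooth (D : RedData V) {F : V → ℝ} (hF : IsMinkowski F) (w : V) :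
    ContDiffOn ℝ ∞ (fun y => conn D F y w) {x | x ≠ 0} := by
  apply repr_smooth hF (fun x => (2 : ℝ)⁻¹ • ((fund F x x).comp (D.mm.flip w)
    + (fund F x w).comp (D.mm.flip x) + fund F x (D.mm w x)
    - fderiv ℝ (fun y => fund F y w) x (spray D F x)))
  · have h1 := fund_smooth hF
    have h2 : ContDiffOn ℝ ∞ (fderiv ℝ (fun y => fund F y w)) {x | x ≠ 0} :=
      (A4_smooth1 hF w).fderiv_of_isOpen A4_open (by norm_cast)
    apply ContDiffOn.const_smul
    apply ContDiffOn.sub
    · apply ContDiffOn.add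
      · apply ContDiffOn.add
        · exact (h1.clm_apply contDiffOn_id).clm_comp contDiffOn_const
        · exact (h1.clm_apply contDiffOn_const).clm_comp D.mm.flip.contDiff.contDiffOn
      · exact h1.clm_apply (D.mm w).contDiff.contDiffOn
    · exact h2.clm_apply (spray_smooth D hF)
  · intro x hx u
    have h := conn_spec D hF hx w u
    rw [A4_eval hF hx, fund_symm hF hx (D.mm u w) x, fund_symm hF hx (D.mm u x) w] at h
    show _ = (2 : ℝ)⁻¹ * (fund F x x (D.mm u w) + fund F x w (D.mm u x) + fund F x (D.mm w x) u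
      - fderiv ℝ (fun y => fund F y w) x (spray D F x) u)
    rw [← h]
    ring

end HFin
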