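import Pool.Agent.HFin.B2

/-! MODULE C2 (diff 1): sign of the flag curvature; scaling of `curvQ` in `w`.

`flagK = g(Rw,w) / denominator`, denominator positive by `denom_pos`, numerator `= curvQ` by
`curv_formula` (`x ≠ 0` follows from linear independence).
`curvQ_smul`: `curvQ D F x (c • w) = c² curvQ D F x w` (`conn_smul`, `kk2_smul`, `kk2_symm`). -/

namespace HFin

open scoped ContDiff

variable {V : Type*} [NormedAddCommGroup V] [NormedSpace ℝ V] [FiniteDimensional ℝ V]

theorem flagK_pos_iff (D : RedData V) {F : V → ℝ} (hF : IsMinkowski F) {x w : V}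
    (h : LinearIndependent ℝ ![x, w]) :
    0 < flagK D F x w ↔ 0 < curvQ D F x w := by
  have hx : x ≠ 0 := by
    have := h.ne_zero 0
    simpa using this
  have hd := denom_pos hF h
  unfold flagK
  rw [curv_formula D hF hx w]
  exact div_pos_iff_of_pos_right hd

theorem curvQ_smul (D : RedData V) {F : V → ℝ} (hF : IsMinkowski F) {x : V} (hx : x ≠ 0)
    (c : ℝ) (w : V) : curvQ D F x (c • w) = c ^ 2 * curvQ D F x w := by
  have h1 : kk2 D F x (c • w) (c • w) = c ^ 2 * kk2 D F x w w := by
    rw [kk2_smul D hF hx, kk2_symm D hF hx, kk2_smul D hF hx]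
    ring
  unfold curvQ
  rw [conn_smul D hF hx, h1]
  simp only [map_smul, ContinuousLinearMap.smul_apply, smul_eq_mul]
  ring

end HFin
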