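import Pool.Agent.HFin.B1

/-! MODULE C3 (diff 2): homogeneity in the flagpole.

For `c > 0`: `fund F (c•x) = fund F x` (`fund_smul`), `spray D F (c•x) = c² • spray D F x`
(`spray_spec`, `fund_inj`: `g_x(spray(cx),v) = g_x(cx,[v,cx]) = c² g_x(x,[v,x])`).  The derivative at
`c•x` of a function `f` with `f(c•y) = c^k f(y)` (all `y ≠ 0`) satisfies
`Df(c•x) v = c^(k-1) Df(x) v`.  Hence `kk1 (c•x) u v = c * kk1 x u v`, `kk2 (c•x) u v = c² kk2 x u v`,
`conn (c•x) w = c • conn x w`, and `curvQ D F (c•x) w = c² curvQ D F x w`. -/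

namespace HFin

open scoped ContDiff

variable {V : Type*} [NormedAddCommGroup V] [NormedSpace ℝ V] [FiniteDimensional ℝ V]

theorem spray_smul (D : RedData V) {F : V → ℝ} (hF : IsMinkowski F) {x : V} (hx : x ≠ 0)
    {c : ℝ} (hc : 0 < c) : spray D F (c • x) = c ^ 2 • spray D F x := by
  have hcx : c • x ≠ 0 := smul_ne_zero hc.ne' hx
  refine fund_inj hF hcx (fun v => ?_)
  rw [spray_spec D hF hcx, fund_smul hF hx hc]
  simp only [map_smul, smul_apply, smul_eq_mul]
  rw [spray_spec D hF hx]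
  ring

omit [FiniteDimensional ℝ V] in
/-- Derivative of a homogeneous function. -/
theorem C3_fderiv_hom {f : V → ℝ} {c a : ℝ} (hf : ContDiffOn ℝ ∞ f {x | x ≠ 0})
    (hh : ∀ y, y ≠ 0 → f (c • y) = a * f y) {x : V} (hx : x ≠ 0) (hc : 0 < c) (v : V) :
    c * fderiv ℝ f (c • x) v = a * fderiv ℝ f x v := by
  have hcx : c • x ≠ 0 := smul_ne_zero hc.ne' hx
  have hopen : IsOpen {x : V | x ≠ 0} := isOpen_ne
  have hd1 : DifferentiableAt ℝ f (c • x) :=
    (hf.contDiffAt (hopen.mem_nhds hcx)).differentiableAt (by simp)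
  have hd2 : DifferentiableAt ℝ f x :=
    (hf.contDiffAt (hopen.mem_nhds hx)).differentiableAt (by simp)
  have hlin : HasFDerivAt (fun y : V => c • y) (c • ContinuousLinearMap.id ℝ V) x :=
    (hasFDerivAt_id x).const_smul c
  have h1 : HasFDerivAt (fun y => f (c • y))
      ((fderiv ℝ f (c • x)).comp (c • ContinuousLinearMap.id ℝ V)) x :=
    HasFDerivAt.comp (g := f) x hd1.hasFDerivAt hlin
  have h2 : HasFDerivAt (fun y => a * f y) (a • fderiv ℝ f x) x :=
    hd2.hasFDerivAt.const_mul a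
  have heq : (fun y => f (c • y)) =ᶠ[nhds x] fun y => a * f y :=
    Filter.eventually_of_mem (hopen.mem_nhds hx) (fun y hy => hh y hy)
  have h3 := h2.congr_of_eventuallyEq heq
  have h4 := h1.unique h3
  have h5 := congrArg (fun (L : V →L[ℝ] ℝ) => L v) h4
  simpa using h5

theorem C3_fund (D : RedData V) {F : V → ℝ} (hF : IsMinkowski F) {x : V} (hx : x ≠ 0)
    {c : ℝ} (hc : 0 < c) (u v : V) :
    fderiv ℝ (fun y => fund F y u v) (c • x) (spray D F (c • x))
      = c * fderiv ℝ (fun y => fund F y u v) x (spray D F x) := by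
  have h := C3_fderiv_hom (c := c) (a := 1) (fund_eval_smooth hF u v)
    (fun y hy => by rw [fund_smul hF hy hc, one_mul]) hx hc (spray D F x)
  rw [spray_smul D hF hx hc, map_smul, smul_eq_mul]
  linear_combination c * h

theorem C3_kk1 (D : RedData V) {F : V → ℝ} (hF : IsMinkowski F) {x : V} (hx : x ≠ 0)
    {c : ℝ} (hc : 0 < c) (u v : V) : kk1 D F (c • x) u v = c * kk1 D F x u v := by
  unfold kk1
  rw [C3_fund D hF hx hc, fund_smul hF hx hc]
  simp only [map_smul, smul_apply, smul_eq_mul]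
  ring

theorem C3_conn (D : RedData V) {F : V → ℝ} (hF : IsMinkowski F) {x : V} (hx : x ≠ 0)
    {c : ℝ} (hc : 0 < c) (w : V) : conn D F (c • x) w = c • conn D F x w := by
  have hcx : c • x ≠ 0 := smul_ne_zero hc.ne' hx
  refine fund_inj hF hcx (fun u => ?_)
  have h1 := conn_spec D hF hcx w u
  have h2 := conn_spec D hF hx w u
  rw [C3_fund D hF hx hc] at h1
  rw [fund_smul hF hx hc] at h1 ⊢
  simp only [map_smul, smul_apply, smul_eq_mul] at h1 ⊢
  linear_combination (1 / 2) * h1 - (c / 2) * h2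

theorem C3_kk2 (D : RedData V) {F : V → ℝ} (hF : IsMinkowski F) {x : V} (hx : x ≠ 0)
    {c : ℝ} (hc : 0 < c) (u v : V) : kk2 D F (c • x) u v = c ^ 2 * kk2 D F x u v := by
  unfold kk2
  have h := C3_fderiv_hom (c := c) (a := c) (kk1_smooth D hF u v)
    (fun y hy => C3_kk1 D hF hy hc u v) hx hc (spray D F x)
  have e1 : D.mm (c • x) u = c • D.mm x u := by simp
  have e2 : D.mm (c • x) v = c • D.mm x v := by simp
  have h2 : kk1 D F x u (c • D.mm x v) = c * kk1 D F x u (D.mm x v) := by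
    rw [kk1_symm D hF hx, kk1_smul D hF hx, kk1_symm D hF hx]
  rw [C3_kk1 D hF hx hc, C3_kk1 D hF hx hc, e1, e2, kk1_smul D hF hx, h2,
    spray_smul D hF hx hc, map_smul, smul_eq_mul]
  linear_combination c * h

theorem curvQ_smul_left (D : RedData V) {F : V → ℝ} (hF : IsMinkowski F) {x : V} (hx : x ≠ 0)
    {c : ℝ} (hc : 0 < c) (w : V) : curvQ D F (c • x) w = c ^ 2 * curvQ D F x w := by
  unfold curvQ
  rw [C3_conn D hF hx hc, C3_kk2 D hF hx hc, fund_smul hF hx hc]
  simp only [map_smul, smul_apply, smul_eq_mul]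
  ring

end HFin
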