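import Mathlib

/-!
# Homogeneous Finsler spaces with one-dimensional isotropy algebra: definitions

`V` is the tangent space `𝔪` of `G/H` at the base point, `𝔤 = ℝ h₀ ⊕ 𝔪` a reductive
decomposition.  The Lie bracket of `𝔤` is recorded by
* `mm x y = [x, y]_𝔪`,
* `mh x y`, the coefficient of `h₀` in `[x, y]`,
* `act x = [h₀, x]`.

The flag curvature is defined by Huang's formula (L. Huang, *Flag curvatures of homogeneous
Finsler spaces*).
-/

namespace HFin

open scoped ContDiff

/-- Bracket data of a reductive decomposition `𝔤 = ℝ h₀ ⊕ V`. -/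
structure RedData (V : Type*) [NormedAddCommGroup V] [NormedSpace ℝ V] where
  /-- `[x, y]_𝔪` -/
  mm : V →L[ℝ] V →L[ℝ] V
  /-- the coefficient of `h₀` in `[x, y]` -/
  mh : V →L[ℝ] V →L[ℝ] ℝ
  /-- `[h₀, x]` -/
  act : V →L[ℝ] V
  mm_self : ∀ x, mm x x = 0
  mh_self : ∀ x, mh x x = 0

variable {V : Type*} [NormedAddCommGroup V] [NormedSpace ℝ V]

/-- The fundamental tensor `g_x(u,v)` of `F`: the Hessian of `F²/2` at `x`. -/
noncomputable def fund (F : V → ℝ) (x : V) : V →L[ℝ] V →L[ℝ] ℝ :=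
  fderiv ℝ (fun y => fderiv ℝ (fun z => F z ^ 2 / 2) y) x

/-- (Not necessarily reversible) Minkowski norms on `V`. -/
structure IsMinkowski (F : V → ℝ) : Prop where
  zero : F 0 = 0
  pos : ∀ x, x ≠ 0 → 0 < F x
  smul : ∀ (c : ℝ) (x : V), 0 ≤ c → F (c • x) = c * F x
  smooth : ContDiffOn ℝ ∞ F {x | x ≠ 0}
  conv : ∀ x v, x ≠ 0 → v ≠ 0 → 0 < fund F x v v

/-- The spray vector field `η`: `g_x(η x, v) = g_x(x, [v, x]_𝔪)` for all `v`. -/
noncomputable def spray (D : RedData V) (F : V → ℝ) (x : V) : V :=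
  Classical.epsilon fun e => ∀ v, fund F x e v = fund F x x (D.mm v x)

/-- The connection operator `N(x, ·)`:
`2 g_x(N(x,w), u) = g_x([u,w]_𝔪, x) + g_x([u,x]_𝔪, w) + g_x([w,x]_𝔪, u) - 2 C_x(u, w, η x)`,
where `2 C_x(u, w, η x)` is the derivative of `g(w, u)` at `x` in the direction `η x`. -/
noncomputable def conn (D : RedData V) (F : V → ℝ) (x w : V) : V :=
  Classical.epsilon fun n => ∀ u, 2 * fund F x n u =
    fund F x (D.mm u w) x + fund F x (D.mm u x) w + fund F x (D.mm w x) u
      - fderiv ℝ (fun y => fund F y w u) x (spray D F x)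

/-- Huang's formula for the Riemann curvature:
`R_x(w) = [[x,w]_𝔥, x] + D_η N(w) - N(N(w)) + N([x,w]_𝔪) - [x, N(w)]_𝔪`. -/
noncomputable def curvR (D : RedData V) (F : V → ℝ) (x w : V) : V :=
  D.mh x w • D.act x + fderiv ℝ (fun y => conn D F y w) x (spray D F x)
    - conn D F x (conn D F x w) + conn D F x (D.mm x w) - D.mm x (conn D F x w)

/-- The flag curvature of the flag with flagpole `x` in the plane spanned by `x, w`. -/
noncomputable def flagK (D : RedData V) (F : V → ℝ) (x w : V) : ℝ :=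
  fund F x (curvR D F x w) w / (fund F x x x * fund F x w w - fund F x x w ^ 2)

/-- Positive flag curvature. -/
def PosFlag (D : RedData V) (F : V → ℝ) : Prop :=
  ∀ x w : V, LinearIndependent ℝ ![x, w] → 0 < flagK D F x w

end HFin
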