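import Pool.Agent.HFin.Defs

/-! Definitions on the dual side and for perturbations of a normal homogeneous metric. -/

namespace HFin

open scoped ContDiff RealInnerProductSpace

variable {V : Type*} [NormedAddCommGroup V] [InnerProductSpace ℝ V]

/-- The inner product of `V` comes from a bi-invariant inner product of `𝔤`, with `h₀` a unit
vector orthogonal to `V`. -/
structure IsNormal (D : RedData V) : Prop where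
  skew : ∀ x y z, ⟪D.mm x y, z⟫ = -⟪y, D.mm x z⟫
  act_skew : ∀ x y, ⟪D.act x, y⟫ = -⟪x, D.act y⟫
  mh_eq : ∀ x y, D.mh x y = ⟪D.act x, y⟫
  jacobi : ∀ x y z, D.mm x (D.mm y z) + D.mm y (D.mm z x) + D.mm z (D.mm x y) =
    ⟪D.act y, z⟫ • D.act x + ⟪D.act z, x⟫ • D.act y + ⟪D.act x, y⟫ • D.act z
  deriv : ∀ x y, D.act (D.mm x y) = D.mm (D.act x) y + D.mm x (D.act y)

/-- `L` is the gradient field of the co-Finsler energy `H = F*²/2`. -/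
structure IsCoField (L : V → V) : Prop where
  zero : L 0 = 0
  smul : ∀ (c : ℝ) (ξ : V), 0 < c → L (c • ξ) = c • L ξ
  smooth : ContDiffOn ℝ ∞ L {x | x ≠ 0}
  symm : ∀ ξ, ξ ≠ 0 → ∀ u v, ⟪fderiv ℝ L ξ u, v⟫ = ⟪u, fderiv ℝ L ξ v⟫
  pos : ∀ ξ, ξ ≠ 0 → ∀ v, v ≠ 0 → 0 < ⟪fderiv ℝ L ξ v, v⟫
  bij : Function.Bijective L

/-- `F` is the Minkowski norm whose Legendre transform has gradient field `L`. -/
structure IsDualPair (F : V → ℝ) (L : V → V) : Prop where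
  grad : ∀ ξ, ξ ≠ 0 → ∀ v, fderiv ℝ (fun z => F z ^ 2 / 2) (L ξ) v = ⟪ξ, v⟫
  hess : ∀ ξ, ξ ≠ 0 → ∀ u v, fund F (L ξ) (fderiv ℝ L ξ u) v = ⟪u, v⟫

/-- `q ξ σ = B'σ - [x, Bσ]_𝔪 + B [x, σ]_𝔪`, with `x = L ξ`, `B = DL(ξ)`, `'` = derivative in the
direction `[x, ξ]_𝔪`. -/
noncomputable def coq (D : RedData V) (L : V → V) (ξ σ : V) : V :=
  fderiv ℝ (fun y => fderiv ℝ L y σ) ξ (D.mm (L ξ) ξ)
    - D.mm (L ξ) (fderiv ℝ L ξ σ) + fderiv ℝ L ξ (D.mm (L ξ) σ)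

/-- `q' σ - [x, qσ]_𝔪 + q [x, σ]_𝔪`. -/
noncomputable def coqq (D : RedData V) (L : V → V) (ξ σ : V) : V :=
  fderiv ℝ (fun y => coq D L y σ) ξ (D.mm (L ξ) ξ)
    - D.mm (L ξ) (coq D L ξ σ) + coq D L ξ (D.mm (L ξ) σ)

/-- The curvature form in dual variables; `c` stands for `B⁻¹ (q σ)`. -/
noncomputable def dualP (D : RedData V) (L : V → V) (ξ σ c : V) : ℝ :=
  ⟪coqq D L ξ σ, σ⟫ / 2 - 3 / 4 * ⟪c, coq D L ξ σ⟫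
    + ⟪fderiv ℝ L ξ (D.mm ξ (fderiv ℝ L ξ σ)), D.mm ξ (fderiv ℝ L ξ σ)⟫ / 4
    - ⟪D.mm ξ (fderiv ℝ L ξ σ), coq D L ξ σ⟫ / 2
    + ⟪σ, D.act (L ξ)⟫ * ⟪fderiv ℝ L ξ σ, D.act (L ξ)⟫

/-- `p` is the gradient field of a perturbation `h`, positively homogeneous of degree two. -/
structure IsPert (D : RedData V) (p : V → V) : Prop where
  zero : p 0 = 0
  smul : ∀ (c : ℝ) (ξ : V), 0 < c → p (c • ξ) = c • p ξ
  smooth : ContDiffOn ℝ ∞ p {x | x ≠ 0}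
  symm : ∀ ξ, ξ ≠ 0 → ∀ u v, ⟪fderiv ℝ p ξ u, v⟫ = ⟪u, fderiv ℝ p ξ v⟫
  inv : ∀ ξ, ⟪p ξ, D.act ξ⟫ = 0
  equi : ∀ ξ, ξ ≠ 0 → fderiv ℝ p ξ (D.act ξ) = D.act (p ξ)

/-- `L_t = id + t p`. -/
def Lt (p : V → V) (t : ℝ) (ξ : V) : V := ξ + t • p ξ

/-- `q₂ ξ σ = β̇ σ - [p, βσ]_𝔪 + β [p, σ]_𝔪`, where `β = Dp(ξ)` and `β̇` is its derivative in the
direction `[p, ξ]_𝔪`. -/
noncomputable def qq2 (D : RedData V) (p : V → V) (ξ σ : V) : V :=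
  fderiv ℝ (fun y => fderiv ℝ p y σ) ξ (D.mm (p ξ) ξ)
    - D.mm (p ξ) (fderiv ℝ p ξ σ) + fderiv ℝ p ξ (D.mm (p ξ) σ)

/-- The third order coefficient of the curvature. -/
noncomputable def P3 (D : RedData V) (p : V → V) (ξ σ : V) : ℝ :=
  ⟪fderiv ℝ (fun y => qq2 D p y σ) ξ (D.mm (p ξ) ξ), σ⟫ / 2
    + ⟪qq2 D p ξ σ, D.mm (p ξ) σ + D.mm ξ (fderiv ℝ p ξ σ)⟫
    + ⟪fderiv ℝ p ξ (D.mm ξ (fderiv ℝ p ξ σ)), D.mm ξ (fderiv ℝ p ξ σ)⟫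
    + ⟪σ, D.act (p ξ)⟫ * ⟪fderiv ℝ p ξ σ, D.act (p ξ)⟫

end HFin
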