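import Pool.Agent.HFin.F1

/-! MODULE F2 (diff 2): the curvature form in dual variables.

`x = L ξ`, `B = DL(ξ)`, `w = B σ`, `A = [ξ,·]_𝔪 = D.mm ξ`, `q = coq`, `qq = coqq`,
`g_x(B u, v) = ⟪u,v⟫`.
(a) `2 g(Nw,u) = g(x,[u,w]) - k(w,u)` (`conn_kk1`) `= ⟪ξ,[u,w]⟫ + g(qσ,u)` (`kk1_dual`) and
`⟪ξ,[u,w]⟫ = -⟪Aw,u⟫ = - g(B(Aw),u)` (`hD.skew` twice and antisymmetry).  So
`N w = (qσ - B(Aw))/2` and
`g(Nw,Nw) = g(qσ,qσ)/4 - ⟪qσ,Aw⟫/2 + ⟪B(Aw),Aw⟫/4`.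
(b) `k°(w,w) = - 2 k(qσ,w) - g(qqσ,w)` (`kk2_dual`), `k(qσ,w) = k(w,qσ) = - g(qσ,qσ)`,
`g(qqσ,w) = g(w,qqσ) = ⟪σ,qqσ⟫`: `- k°(w,w)/2 = ⟪qqσ,σ⟫/2 - g(qσ,qσ)`.
(c) `mh x w * g(act x,w) = ⟪act x, w⟫ ⟪act x, σ⟫` (`hD.mh_eq`; `g(act x,w) = g(w,act x) = ⟪σ,act x⟫`).
(d) `g(qσ,qσ) = g(Bc,qσ) = ⟪c,qσ⟫`.
Sum of (a), (b), (c) = `dualP`.
-/

namespace HFin

open scoped ContDiff RealInnerProductSpace

variable {V : Type*} [NormedAddCommGroup V] [InnerProductSpace ℝ V] [FiniteDimensional ℝ V]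

theorem F2_conn {D : RedData V} (hD : IsNormal D) {F : V → ℝ} (hF : IsMinkowski F)
    {L : V → V} (hL : IsCoField L) (hFL : IsDualPair F L) {ξ : V} (hξ : ξ ≠ 0) (σ : V) :
    conn D F (L ξ) (fderiv ℝ L ξ σ) =
      (1 / 2 : ℝ) • (coq D L ξ σ - fderiv ℝ L ξ (D.mm ξ (fderiv ℝ L ξ σ))) := by
  have hx : L ξ ≠ 0 := cofield_ne hL hξ
  apply fund_inj hF hx
  intro u
  have h1 := conn_kk1 D hF hx (fderiv ℝ L ξ σ) u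
  rw [kk1_dual hD hF hL hFL hξ, fund_self_dual hF hL hFL hξ] at h1
  have h2 : ⟪ξ, D.mm u (fderiv ℝ L ξ σ)⟫ = - ⟪D.mm ξ (fderiv ℝ L ξ σ), u⟫ := by
    rw [← real_inner_comm, hD.skew, mm_anti D u ξ, inner_neg_right, neg_neg]
    have := hD.skew ξ (fderiv ℝ L ξ σ) u
    linarith
  have h3 := hFL.hess ξ hξ (D.mm ξ (fderiv ℝ L ξ σ)) u
  rw [h2] at h1
  rw [map_smul, map_sub]
  simp only [_root_.smul_apply, _root_.sub_apply, smul_eq_mul]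
  rw [h3]
  linarith

theorem dual_formula {D : RedData V} (hD : IsNormal D) {F : V → ℝ} (hF : IsMinkowski F)
    {L : V → V} (hL : IsCoField L) (hFL : IsDualPair F L) {ξ : V} (hξ : ξ ≠ 0) (σ c : V)
    (hc : fderiv ℝ L ξ c = coq D L ξ σ) :
    curvQ D F (L ξ) (fderiv ℝ L ξ σ) = dualP D L ξ σ c := by
  have hx : L ξ ≠ 0 := cofield_ne hL hξ
  have hN := F2_conn hD hF hL hFL hξ σ
  have e1 : fund F (L ξ) (coq D L ξ σ) (coq D L ξ σ) = ⟪c, coq D L ξ σ⟫ := by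
    conv_lhs => rw [← hc]
    rw [hFL.hess ξ hξ, hc]
  have e2 : fund F (L ξ) (fderiv ℝ L ξ (D.mm ξ (fderiv ℝ L ξ σ))) (coq D L ξ σ) =
      ⟪D.mm ξ (fderiv ℝ L ξ σ), coq D L ξ σ⟫ := hFL.hess ξ hξ _ _
  have e3 : fund F (L ξ) (fderiv ℝ L ξ (D.mm ξ (fderiv ℝ L ξ σ)))
      (fderiv ℝ L ξ (D.mm ξ (fderiv ℝ L ξ σ))) =
      ⟪fderiv ℝ L ξ (D.mm ξ (fderiv ℝ L ξ σ)), D.mm ξ (fderiv ℝ L ξ σ)⟫ := by
    rw [hFL.hess ξ hξ, real_inner_comm]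
  have e2' : fund F (L ξ) (coq D L ξ σ) (fderiv ℝ L ξ (D.mm ξ (fderiv ℝ L ξ σ))) =
      ⟪D.mm ξ (fderiv ℝ L ξ σ), coq D L ξ σ⟫ := by
    rw [fund_symm hF hx, e2]
  have hNN : fund F (L ξ) (conn D F (L ξ) (fderiv ℝ L ξ σ))
      (conn D F (L ξ) (fderiv ℝ L ξ σ)) =
      ⟪c, coq D L ξ σ⟫ / 4 - ⟪D.mm ξ (fderiv ℝ L ξ σ), coq D L ξ σ⟫ / 2 +
        ⟪fderiv ℝ L ξ (D.mm ξ (fderiv ℝ L ξ σ)), D.mm ξ (fderiv ℝ L ξ σ)⟫ / 4 := by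
    rw [hN]
    simp only [map_smul, map_sub, _root_.smul_apply, _root_.sub_apply,
      smul_eq_mul]
    rw [e1, e2, e2', e3]
    ring
  have hk2 := kk2_dual hD hF hL hFL hξ σ (fderiv ℝ L ξ σ)
  have hk1 : kk1 D F (L ξ) (coq D L ξ σ) (fderiv ℝ L ξ σ) = - ⟪c, coq D L ξ σ⟫ := by
    rw [kk1_symm D hF hx, kk1_dual hD hF hL hFL hξ, e1]
  have hqq : fund F (L ξ) (coqq D L ξ σ) (fderiv ℝ L ξ σ) = ⟪coqq D L ξ σ, σ⟫ := by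
    rw [fund_symm hF hx, hFL.hess ξ hξ, real_inner_comm]
  have hact : fund F (L ξ) (D.act (L ξ)) (fderiv ℝ L ξ σ) = ⟪σ, D.act (L ξ)⟫ := by
    rw [fund_symm hF hx, hFL.hess ξ hξ]
  have hmh : D.mh (L ξ) (fderiv ℝ L ξ σ) = ⟪fderiv ℝ L ξ σ, D.act (L ξ)⟫ := by
    rw [hD.mh_eq, real_inner_comm]
  unfold curvQ dualP
  rw [hNN, hk2, hk1, hqq, hact, hmh]
  ring

end HFin
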