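import Pool.Agent.HFin.J2
import Pool.Agent.HFin.G2

/-! MODULE K2 (diff 3): derivatives of `pmod` and the general second-derivative formula.

Let `f(y) = ‖y‖ - 4 mf y/‖y‖` and `gf(y) = ∇f(y) = (1/‖y‖)y - (4/‖y‖) sw y + (4 mf y/‖y‖³) y`; so
`pmod y = -sw y + f(y) e₀ + y₀ gf(y)` and for `y ≠ 0`
`Dpmod(y) v = - sw v + ⟪gf y, v⟫ e₀ + v₀ gf(y) + y₀ Dgf(y) v`.            (`pmod_fderiv`)
`q2_deriv_general` (any `IsPert p`, product rule + symmetry, `η = [p,ξ]`):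
`⟪D(y ↦ q₂ y σ)(ξ) η, σ⟫ = ⟪D(y ↦ bdot y σ)(ξ) η, σ⟫ + 2⟪βσ,[βη,σ]⟫ + 2⟪β̇σ,[p,σ]⟫`
because `q₂ y σ = bdot y σ - [p y, β_yσ] + β_y [p y,σ]`, the derivative of the second term paired with
`σ` is `-⟪[βη,βσ],σ⟫ - ⟪[p,β̇σ],σ⟫ = ⟪βσ,[βη,σ]⟫ + ⟪β̇σ,[p,σ]⟫` (`skew`) and the same for the third
(`β̇`, `β` symmetric).
`gf_hess`: at a unit vector `ξ` with `ξ₀ = 0` and `σ ⊥ ξ`, `‖σ‖ = 1`:
`⟪Dgf(ξ)σ,σ⟫ = D²f(ξ)(σ,σ) = 1 - 4(2 mf σ - mf ξ)`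
(`D²‖·‖(σ,σ) = 1`; `D²(m/r)(σ,σ) = 2mf(σ)/r + 2·(Dm σ)·0 + m·(-1)`).
`bdot_model`: for `σ₀ = 0`, `ξ₀ = 0`, `η₀ = 0` (where `η = [pmod ξ, ξ]`): differentiate `pmod_fderiv`:
`bdot y σ = ⟪Dgf(y)η_y,σ⟫ e₀ + (η_y)₀ Dgf(y)σ + y₀ (...)`, so `bdot ξ σ = ⟪Dgf(ξ)η,σ⟫ e₀` and
`⟪D(y ↦ bdot y σ)(ξ)η, σ⟫ = (Dη(ξ)η)₀ ⟪Dgf(ξ)σ,σ⟫`, with `Dη(ξ)η = [βη,ξ] + [p,η]`.
-/

namespace HFin

open scoped ContDiff RealInnerProductSpace

/-- `∇f`. -/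
noncomputable def gf (y : V5) : V5 :=
  (1 / ‖y‖) • y - (4 / ‖y‖) • sw y + (4 * mf y / ‖y‖ ^ 3) • y

/-- `sw` as a continuous linear map -/
noncomputable def K2_swL : V5 →L[ℝ] V5 :=
  LinearMap.toContinuousLinearMap
    { toFun := sw
      map_add' := by
        intro x y
        ext i
        fin_cases i <;> simp [sw]
      map_smul' := by
        intro c x
        ext i
        fin_cases i <;> simp [sw] }

theorem K2_swL_apply (x : V5) : K2_swL x = sw x := rfl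

theorem K2_sw_hasFDerivAt (x : V5) : HasFDerivAt sw K2_swL x := K2_swL.hasFDerivAt

theorem K2_sw_contDiff : ContDiff ℝ ∞ sw := K2_swL.contDiff

/-- the coordinate -/
noncomputable def K2_pr (i : Fin 5) : V5 →L[ℝ] ℝ := EuclideanSpace.proj i

theorem K2_pr_apply (i : Fin 5) (x : V5) : K2_pr i x = x i := rfl

theorem K2_inner_sw (x v : V5) : ⟪sw x, v⟫ = x 3 * v 1 + x 4 * v 2 + x 1 * v 3 + x 2 * v 4 := by
  simp [PiLp.inner_apply, Fin.sum_univ_five, sw]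
  ring

theorem K2_mf_hasFDerivAt (x : V5) : HasFDerivAt mf (innerSL ℝ (sw x)) x := by
  have h : ∀ i : Fin 5, HasFDerivAt (fun y : V5 => y i) (K2_pr i) x :=
    fun i => (K2_pr i).hasFDerivAt
  have h1 := ((h 1).mul (h 3)).add ((h 2).mul (h 4))
  have h2 : mf = fun y : V5 => y 1 * y 3 + y 2 * y 4 := rfl
  rw [h2]
  refine h1.congr_fderiv ?_
  ext v
  simp only [innerSL_apply_apply]
  rw [K2_inner_sw]
  simp [K2_pr_apply]
  ring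

theorem K2_mf_contDiff : ContDiff ℝ ∞ mf := by
  have h : ∀ i : Fin 5, ContDiff ℝ ∞ (fun y : V5 => y i) := fun i => (K2_pr i).contDiff
  have h1 := ((h 1).mul (h 3)).add ((h 2).mul (h 4))
  exact h1

theorem K2_norm_contDiffAt {x : V5} (hx : x ≠ 0) : ContDiffAt ℝ ∞ (fun y : V5 => ‖y‖) x :=
  contDiffAt_norm ℝ hx

theorem K2_norm_hasFDerivAt {x : V5} (hx : x ≠ 0) :
    HasFDerivAt (fun y : V5 => ‖y‖) ((1 / ‖x‖) • innerSL ℝ x) x := by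
  have hn : ‖x‖ ≠ 0 := norm_ne_zero_iff.2 hx
  have h1 : HasFDerivAt (fun y : V5 => ‖y‖ ^ 2) (2 • innerSL ℝ x) x :=
    (hasStrictFDerivAt_norm_sq x).hasFDerivAt
  have h2 := h1.sqrt (by positivity)
  have h3 : (fun y : V5 => Real.sqrt (‖y‖ ^ 2)) = fun y : V5 => ‖y‖ := by
    funext y
    exact Real.sqrt_sq (norm_nonneg y)
  rw [h3] at h2
  refine h2.congr_fderiv ?_
  ext v
  rw [Real.sqrt_sq (norm_nonneg x)]
  simp [innerSL_apply_apply]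
  field_simp

theorem K2_gf_contDiffAt {x : V5} (hx : x ≠ 0) : ContDiffAt ℝ ∞ gf x := by
  have hn : ‖x‖ ≠ 0 := norm_ne_zero_iff.2 hx
  have h1 := K2_norm_contDiffAt hx
  have h2 : ContDiffAt ℝ ∞ mf x := K2_mf_contDiff.contDiffAt
  have h3 : ContDiffAt ℝ ∞ sw x := K2_sw_contDiff.contDiffAt
  have h4 : ContDiffAt ℝ ∞ (fun y : V5 => y) x := contDiffAt_id
  have c1 : ContDiffAt ℝ ∞ (fun _ : V5 => (1:ℝ)) x := contDiffAt_const
  have c4 : ContDiffAt ℝ ∞ (fun _ : V5 => (4:ℝ)) x := contDiffAt_const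
  have t1 := (c1.div h1 hn).smul h4
  have t2 := (c4.div h1 hn).smul h3
  have t3 := ((c4.mul h2).div (h1.pow 3) (pow_ne_zero 3 hn)).smul h4
  exact (t1.sub t2).add t3

theorem gf_smooth : ContDiffOn ℝ ∞ gf {x | x ≠ 0} :=
  fun _ hx => (K2_gf_contDiffAt hx).contDiffWithinAt

theorem K2_div {c d : V5 → ℝ} {c' d' : V5 →L[ℝ] ℝ} {x : V5} (hc : HasFDerivAt c c' x)
    (hd : HasFDerivAt d d' x) (h0 : d x ≠ 0) :
    HasFDerivAt (fun y => c y / d y) ((1 / d x) • c' - (c x / d x ^ 2) • d') x := by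
  have h1 : HasFDerivAt (fun y => (d y)⁻¹) ((-(d x ^ 2)⁻¹) • d') x :=
    (hasDerivAt_inv h0).comp_hasFDerivAt x hd
  have h2 : HasFDerivAt (fun y => c y * (d y)⁻¹) (c x • ((-(d x ^ 2)⁻¹) • d') + (d x)⁻¹ • c') x :=
    hc.mul h1
  have h3 : (fun y => c y / d y) = fun y => c y * (d y)⁻¹ := by
    funext y
    exact div_eq_mul_inv _ _
  rw [h3]
  refine h2.congr_fderiv ?_
  ext v
  simp only [add_apply, sub_apply,
    smul_apply, smul_eq_mul]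
  field_simp
  ring

/-- the scalar function `f` -/
noncomputable def K2_f (y : V5) : ℝ := ‖y‖ - 4 * mf y / ‖y‖

theorem K2_f_hasFDerivAt {x : V5} (hx : x ≠ 0) : HasFDerivAt K2_f (innerSL ℝ (gf x)) x := by
  have hn : ‖x‖ ≠ 0 := norm_ne_zero_iff.2 hx
  have h1 := K2_norm_hasFDerivAt hx
  have h2 := (K2_mf_hasFDerivAt x).const_mul 4
  have h3 : HasFDerivAt K2_f _ x := h1.sub (K2_div h2 h1 hn)
  refine h3.congr_fderiv ?_
  ext v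
  simp only [sub_apply, smul_apply, innerSL_apply_apply,
    smul_eq_mul, gf, inner_add_left, inner_sub_left, real_inner_smul_left]
  field_simp
  ring

theorem K2_pmod_eq : pmod = fun y : V5 =>
    - sw y + K2_f y • (EuclideanSpace.single (0 : Fin 5) (1 : ℝ)) + y 0 • gf y := by
  funext y
  simp only [pmod, K2_f, gf, smul_add, smul_sub, smul_smul]
  have e1 : y 0 * (1 / ‖y‖) = y 0 / ‖y‖ := by ring
  have e2 : y 0 * (4 / ‖y‖) = 4 * y 0 / ‖y‖ := by ring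
  have e3 : y 0 * (4 * mf y / ‖y‖ ^ 3) = 4 * y 0 * mf y / ‖y‖ ^ 3 := by ring
  rw [e1, e2, e3]
  abel

theorem pmod_fderiv {y : V5} (hy : y ≠ 0) (v : V5) :
    fderiv ℝ pmod y v = - sw v + ⟪gf y, v⟫ • (EuclideanSpace.single (0 : Fin 5) (1 : ℝ))
      + v 0 • gf y + y 0 • fderiv ℝ gf y v := by
  have hg : HasFDerivAt gf (fderiv ℝ gf y) y :=
    ((K2_gf_contDiffAt hy).differentiableAt (by simp)).hasFDerivAt
  have h0 : HasFDerivAt (fun z : V5 => z 0) (K2_pr 0) y := (K2_pr 0).hasFDerivAt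
  have hs : HasFDerivAt (fun z : V5 => - sw z) (-K2_swL) y := (K2_sw_hasFDerivAt y).neg
  have hf : HasFDerivAt (fun z : V5 => K2_f z • (EuclideanSpace.single (0 : Fin 5) (1 : ℝ) : V5))
      ((innerSL ℝ (gf y)).smulRight (EuclideanSpace.single (0 : Fin 5) (1 : ℝ) : V5)) y :=
    (K2_f_hasFDerivAt hy).smul_const (EuclideanSpace.single (0 : Fin 5) (1 : ℝ) : V5)
  have h2 : HasFDerivAt (fun z : V5 => - sw z +
      K2_f z • (EuclideanSpace.single (0 : Fin 5) (1 : ℝ) : V5) + z 0 • gf z) _ y :=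
    (hs.add hf).add (h0.smul hg)
  rw [K2_pmod_eq, h2.fderiv]
  simp [K2_swL_apply, K2_pr_apply, innerSL_apply_apply]
  abel

theorem K2_inner_sw_self (x : V5) : ⟪sw x, x⟫ = 2 * mf x := by
  rw [K2_inner_sw, mf]
  ring

theorem gf_hess {ξ σ : V5} (hξ : ‖ξ‖ = 1) (hσ : ‖σ‖ = 1) (h : ⟪ξ, σ⟫ = 0) :
    ⟪fderiv ℝ gf ξ σ, σ⟫ = 1 - 4 * (2 * mf σ - mf ξ) := by
  have hx : ξ ≠ 0 := by
    intro h0
    rw [h0, norm_zero] at hξ
    exact zero_ne_one hξ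
  have hn : ‖ξ‖ ≠ 0 := norm_ne_zero_iff.2 hx
  have h1 := K2_norm_hasFDerivAt hx
  have hid : HasFDerivAt (fun y : V5 => y) (ContinuousLinearMap.id ℝ V5) ξ := hasFDerivAt_id ξ
  have c1 : HasFDerivAt (fun _ : V5 => (1:ℝ)) (0 : V5 →L[ℝ] ℝ) ξ := hasFDerivAt_const _ _
  have c4 : HasFDerivAt (fun _ : V5 => (4:ℝ)) (0 : V5 →L[ℝ] ℝ) ξ := hasFDerivAt_const _ _
  have t1 := (K2_div c1 h1 hn).smul hid
  have t2 := (K2_div c4 h1 hn).smul (K2_sw_hasFDerivAt ξ)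
  have t3 := (K2_div ((K2_mf_hasFDerivAt ξ).const_mul 4) (h1.pow 3) (pow_ne_zero 3 hn)).smul hid
  have h2 : HasFDerivAt gf _ ξ := (t1.sub t2).add t3
  rw [h2.fderiv]
  have hσσ : ⟪σ, σ⟫ = (1:ℝ) := by
    rw [real_inner_self_eq_norm_sq, hσ]
    norm_num
  simp [K2_swL_apply, innerSL_apply_apply, hξ, h, inner_add_left, inner_sub_left,
    real_inner_smul_left, K2_inner_sw_self, hσ]
  ring

/-- `D(y ↦ Dp(y) u)(ξ) η = D²p(ξ)(η) u` -/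
theorem K2_fderiv_apply {V W : Type*} [NormedAddCommGroup V] [NormedSpace ℝ V]
    [NormedAddCommGroup W] [NormedSpace ℝ W] {p : V → W} {ξ : V}
    (hp : ContDiffAt ℝ ∞ p ξ) (u : V) :
    HasFDerivAt (fun y => fderiv ℝ p y u) ((fderiv ℝ (fderiv ℝ p) ξ).flip u) ξ := by
  have h1 : ContDiffAt ℝ ∞ (fderiv ℝ p) ξ := hp.fderiv_right (by simp)
  have h2 : HasFDerivAt (fderiv ℝ p) (fderiv ℝ (fderiv ℝ p) ξ) ξ :=
    (h1.differentiableAt (by simp)).hasFDerivAt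
  have h3 := h2.clm_apply (hasFDerivAt_const u ξ)
  refine h3.congr_fderiv ?_
  ext v
  simp

theorem K2_bdot_eq {V : Type*} [NormedAddCommGroup V] [InnerProductSpace ℝ V]
    {D : RedData V} {p : V → V} {ξ : V} (hp : ContDiffAt ℝ ∞ p ξ) (u : V) :
    bdot D p ξ u = fderiv ℝ (fderiv ℝ p) ξ (D.mm (p ξ) ξ) u := by
  unfold bdot
  rw [(K2_fderiv_apply hp u).fderiv]
  rfl

theorem K2_bdot_contDiffAt {V : Type*} [NormedAddCommGroup V] [InnerProductSpace ℝ V]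
    {D : RedData V} {p : V → V} {ξ : V} (hp : ContDiffAt ℝ ∞ p ξ) (u : V) :
    ContDiffAt ℝ ∞ (fun y => bdot D p y u) ξ := by
  unfold bdot
  have h1 : ContDiffAt ℝ ∞ (fderiv ℝ p) ξ := hp.fderiv_right (by simp)
  have h2 : ContDiffAt ℝ ∞ (fun y => fderiv ℝ p y u) ξ := h1.clm_apply contDiffAt_const
  have h3 : ContDiffAt ℝ ∞ (fderiv ℝ (fun y => fderiv ℝ p y u)) ξ := h2.fderiv_right (by simp)
  have h4 : ContDiffAt ℝ ∞ (fun y => D.mm (p y)) ξ :=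
    (D.mm.contDiff.contDiffAt).comp ξ hp
  exact h3.clm_apply (h4.clm_apply contDiffAt_id)

theorem q2_deriv_general {V : Type*} [NormedAddCommGroup V] [InnerProductSpace ℝ V]
    [FiniteDimensional ℝ V] {D : RedData V} (hD : IsNormal D) {p : V → V} (hp : IsPert D p)
    {ξ : V} (hξ : ξ ≠ 0) (σ : V) :
    ⟪fderiv ℝ (fun y => qq2 D p y σ) ξ (D.mm (p ξ) ξ), σ⟫ =
      ⟪fderiv ℝ (fun y => bdot D p y σ) ξ (D.mm (p ξ) ξ), σ⟫
      + 2 * ⟪fderiv ℝ p ξ σ, D.mm (fderiv ℝ p ξ (D.mm (p ξ) ξ)) σ⟫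
      + 2 * ⟪bdot D p ξ σ, D.mm (p ξ) σ⟫ := by
  have hs : ContDiffAt ℝ ∞ p ξ :=
    (hp.smooth ξ hξ).contDiffAt (isOpen_ne.mem_nhds hξ)
  have hb : HasFDerivAt (fun y => bdot D p y σ) (fderiv ℝ (fun y => bdot D p y σ) ξ) ξ :=
    ((K2_bdot_contDiffAt hs σ).differentiableAt (by simp)).hasFDerivAt
  have hpd : HasFDerivAt p (fderiv ℝ p ξ) ξ := (hs.differentiableAt (by simp)).hasFDerivAt
  have hmp : HasFDerivAt (fun y => D.mm (p y)) (D.mm.comp (fderiv ℝ p ξ)) ξ :=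
    (D.mm.hasFDerivAt).comp ξ hpd
  have h1 : ContDiffAt ℝ ∞ (fderiv ℝ p) ξ := hs.fderiv_right (by simp)
  have h2 : HasFDerivAt (fderiv ℝ p) (fderiv ℝ (fderiv ℝ p) ξ) ξ :=
    (h1.differentiableAt (by simp)).hasFDerivAt
  have t2 := hmp.clm_apply (K2_fderiv_apply hs σ)
  have t3 := h2.clm_apply (hmp.clm_apply (hasFDerivAt_const σ ξ))
  have hq : HasFDerivAt (fun y => qq2 D p y σ) _ ξ := (hb.sub t2).add t3
  rw [hq.fderiv]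
  have e1 : ∀ u, fderiv ℝ (fderiv ℝ p) ξ (D.mm (p ξ) ξ) u = bdot D p ξ u :=
    fun u => (K2_bdot_eq hs u).symm
  simp only [add_apply, sub_apply,
    ContinuousLinearMap.comp_apply, ContinuousLinearMap.flip_apply, inner_add_left,
    inner_sub_left, e1, zero_apply, map_zero, zero_add]
  rw [hD.skew (p ξ) (bdot D p ξ σ) σ, hD.skew (fderiv ℝ p ξ (D.mm (p ξ) ξ)) (fderiv ℝ p ξ σ) σ,
    bdot_symm hp hξ (D.mm (p ξ) σ) σ, hp.symm ξ hξ (D.mm (fderiv ℝ p ξ (D.mm (p ξ) ξ)) σ) σ,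
    real_inner_comm (bdot D p ξ σ) (D.mm (p ξ) σ),
    real_inner_comm (fderiv ℝ p ξ σ) (D.mm (fderiv ℝ p ξ (D.mm (p ξ) ξ)) σ)]
  ring

theorem K2_eventually {ξ σ : V5} (hξ : ξ ≠ 0) (hσ0 : σ 0 = 0) :
    (fun y => fderiv ℝ pmod y σ) =ᶠ[nhds ξ] fun y =>
      - sw σ + ⟪gf y, σ⟫ • (EuclideanSpace.single (0 : Fin 5) (1 : ℝ))
        + y 0 • fderiv ℝ gf y σ := by
  filter_upwards [isOpen_ne.mem_nhds hξ] with y hy
  rw [pmod_fderiv hy, hσ0, zero_smul, add_zero]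

/-- `bdot` for the model near `ξ ≠ 0` -/
theorem K2_bdot_formula {ξ σ : V5} (hξ : ξ ≠ 0) (hσ0 : σ 0 = 0) :
    bdot (su2 1 1) pmod ξ σ =
      ⟪fderiv ℝ gf ξ ((su2 1 1).mm (pmod ξ) ξ), σ⟫ • (EuclideanSpace.single (0 : Fin 5) (1 : ℝ))
      + ((su2 1 1).mm (pmod ξ) ξ) 0 • fderiv ℝ gf ξ σ
      + ξ 0 • fderiv ℝ (fun z => fderiv ℝ gf z σ) ξ ((su2 1 1).mm (pmod ξ) ξ) := by
  unfold bdot
  rw [(K2_eventually hξ hσ0).fderiv_eq]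
  have hgs := K2_gf_contDiffAt hξ
  have hg : HasFDerivAt gf (fderiv ℝ gf ξ) ξ :=
    (hgs.differentiableAt (by simp)).hasFDerivAt
  have hG : ContDiffAt ℝ ∞ (fun z => fderiv ℝ gf z σ) ξ :=
    (hgs.fderiv_right (by simp)).clm_apply contDiffAt_const
  have hG' : HasFDerivAt (fun z => fderiv ℝ gf z σ) (fderiv ℝ (fun z => fderiv ℝ gf z σ) ξ) ξ :=
    (hG.differentiableAt (by simp)).hasFDerivAt
  have h0 : HasFDerivAt (fun z : V5 => z 0) (K2_pr 0) ξ := (K2_pr 0).hasFDerivAt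
  have hin : HasFDerivAt (fun z : V5 => ⟪gf z, σ⟫) _ ξ := hg.inner ℝ (hasFDerivAt_const σ ξ)
  have h1 : HasFDerivAt (fun y : V5 => - sw σ + ⟪gf y, σ⟫ •
      (EuclideanSpace.single (0 : Fin 5) (1 : ℝ)) + y 0 • fderiv ℝ gf y σ) _ ξ :=
    ((hin.smul_const (EuclideanSpace.single (0 : Fin 5) (1 : ℝ))).const_add (- sw σ)).add
      (h0.smul hG')
  rw [HasFDerivAt.fderiv h1]
  simp [K2_pr_apply]
  abel

theorem bdot_model {ξ σ : V5} (hξ : ξ ≠ 0) (h0 : ξ 0 = 0) (hσ0 : σ 0 = 0)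
    (hη : ((su2 1 1).mm (pmod ξ) ξ) 0 = 0) :
    bdot (su2 1 1) pmod ξ σ =
      ⟪fderiv ℝ gf ξ ((su2 1 1).mm (pmod ξ) ξ), σ⟫ • (EuclideanSpace.single (0 : Fin 5) (1 : ℝ)) := by
  rw [K2_bdot_formula hξ hσ0, h0, hη, zero_smul, zero_smul, add_zero, add_zero]

theorem bdot_deriv_model {ξ σ : V5} (hξ : ξ ≠ 0) (h0 : ξ 0 = 0) (hσ0 : σ 0 = 0)
    (hη : ((su2 1 1).mm (pmod ξ) ξ) 0 = 0) :
    ⟪fderiv ℝ (fun y => bdot (su2 1 1) pmod y σ) ξ ((su2 1 1).mm (pmod ξ) ξ), σ⟫ =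
      ((su2 1 1).mm (fderiv ℝ pmod ξ ((su2 1 1).mm (pmod ξ) ξ)) ξ
        + (su2 1 1).mm (pmod ξ) ((su2 1 1).mm (pmod ξ) ξ)) 0 * ⟪fderiv ℝ gf ξ σ, σ⟫ := by
  have hps : ContDiffAt ℝ ∞ pmod ξ := (pmod_smooth ξ hξ).contDiffAt (isOpen_ne.mem_nhds hξ)
  have hgs := K2_gf_contDiffAt hξ
  have hb : HasFDerivAt (fun y => bdot (su2 1 1) pmod y σ)
      (fderiv ℝ (fun y => bdot (su2 1 1) pmod y σ) ξ) ξ :=
    ((K2_bdot_contDiffAt hps σ).differentiableAt (by simp)).hasFDerivAt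
  have hin : HasFDerivAt (fun y : V5 => ⟪bdot (su2 1 1) pmod y σ, σ⟫) _ ξ :=
    hb.inner ℝ (hasFDerivAt_const σ ξ)
  have e1 : ⟪fderiv ℝ (fun y => bdot (su2 1 1) pmod y σ) ξ ((su2 1 1).mm (pmod ξ) ξ), σ⟫
      = fderiv ℝ (fun y : V5 => ⟪bdot (su2 1 1) pmod y σ, σ⟫) ξ ((su2 1 1).mm (pmod ξ) ξ) := by
    rw [hin.fderiv]
    simp
  rw [e1]
  have hpd : HasFDerivAt pmod (fderiv ℝ pmod ξ) ξ := (hps.differentiableAt (by simp)).hasFDerivAt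
  -- `η_y`
  have hmp : HasFDerivAt (fun y => (su2 1 1).mm (pmod y)) ((su2 1 1).mm.comp (fderiv ℝ pmod ξ)) ξ :=
    ((su2 1 1).mm.hasFDerivAt).comp ξ hpd
  have heta := hmp.clm_apply (hasFDerivAt_id ξ)
  have heta' : HasFDerivAt (fun y => (su2 1 1).mm (pmod y) y) _ ξ := heta
  have heta0 : HasFDerivAt (fun y => K2_pr 0 ((su2 1 1).mm (pmod y) y)) _ ξ :=
    (K2_pr 0).hasFDerivAt.comp ξ heta'
  have hG : ContDiffAt ℝ ∞ (fun z => fderiv ℝ gf z σ) ξ :=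
    (hgs.fderiv_right (by simp)).clm_apply contDiffAt_const
  have hG' : HasFDerivAt (fun z => fderiv ℝ gf z σ) (fderiv ℝ (fun z => fderiv ℝ gf z σ) ξ) ξ :=
    (hG.differentiableAt (by simp)).hasFDerivAt
  have hA : HasFDerivAt (fun z : V5 => ⟪fderiv ℝ gf z σ, σ⟫) _ ξ :=
    hG'.inner ℝ (hasFDerivAt_const σ ξ)
  have hH : ContDiffAt ℝ ∞ (fun y => fderiv ℝ (fun z => fderiv ℝ gf z σ) y
      ((su2 1 1).mm (pmod y) y)) ξ := by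
    have h4 : ContDiffAt ℝ ∞ (fun y => (su2 1 1).mm (pmod y)) ξ :=
      ((su2 1 1).mm.contDiff.contDiffAt).comp ξ hps
    exact (hG.fderiv_right (by simp)).clm_apply (h4.clm_apply contDiffAt_id)
  have hH' := (hH.differentiableAt (by simp)).hasFDerivAt
  have hB : HasFDerivAt (fun y : V5 => ⟪fderiv ℝ (fun z => fderiv ℝ gf z σ) y
      ((su2 1 1).mm (pmod y) y), σ⟫) _ ξ :=
    hH'.inner ℝ (hasFDerivAt_const σ ξ)
  have h0' : HasFDerivAt (fun z : V5 => K2_pr 0 z) (K2_pr 0) ξ := (K2_pr 0).hasFDerivAt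
  have hev : (fun y : V5 => ⟪bdot (su2 1 1) pmod y σ, σ⟫) =ᶠ[nhds ξ] fun y =>
      K2_pr 0 ((su2 1 1).mm (pmod y) y) * ⟪fderiv ℝ gf y σ, σ⟫
        + K2_pr 0 y * ⟪fderiv ℝ (fun z => fderiv ℝ gf z σ) y ((su2 1 1).mm (pmod y) y), σ⟫ := by
    filter_upwards [isOpen_ne.mem_nhds hξ] with y hy
    rw [K2_bdot_formula hy hσ0]
    simp only [inner_add_left, real_inner_smul_left, K2_pr_apply]
    have : ⟪(EuclideanSpace.single (0 : Fin 5) (1 : ℝ)), σ⟫ = (0:ℝ) := by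
      rw [EuclideanSpace.inner_single_left]
      simp [hσ0]
    rw [this, mul_zero, zero_add]
  rw [hev.fderiv_eq]
  have hfin : HasFDerivAt (fun y : V5 =>
      K2_pr 0 ((su2 1 1).mm (pmod y) y) * ⟪fderiv ℝ gf y σ, σ⟫
        + K2_pr 0 y * ⟪fderiv ℝ (fun z => fderiv ℝ gf z σ) y ((su2 1 1).mm (pmod y) y), σ⟫) _ ξ :=
    (heta0.mul hA).add (h0'.mul hB)
  rw [HasFDerivAt.fderiv hfin]
  simp [K2_pr_apply, h0, hη]
  ring

end HFin
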