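import Pool.Agent.HFin.K1
import Pool.Agent.HFin.K2

/-! MODULE K3 (diff 2-3): positivity of `P3` on the critical flats.

By `flats`, `ξ = (0; c e; εs e)`, `σ = δ(0; -s e; εc e)`; everything below is quadratic in `σ` so take
`δ = 1`.  `k = 1/nrm 1 1`, `k² = 1/2`; `J(u,v) = (-v,u)`; write `(x₀; x; y)` for vectors.
`S = 2εcs`, `f = 1 - 2S`, `τ = -4ε(c²-s²)`, so `τ² = 16(1-S²)`, `|S| ≤ 1`.
`p = (f; -εs e; -c e)`, `gf ξ = (1+2S) ξ - 4 sw ξ`.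
`η = [p,ξ] = kf(0; cJe; -εsJe)`, `s' := [p,σ] = kf(0; -sJe; -εcJe)`,
`βσ = (τ; -εc e; s e)`, `r = [ξ,βσ] = -kτ(0; cJe; -εsJe)`, `β(0; aJe; bJe) = (0; -bJe; -aJe)`.
`(Dη(ξ)η)₀ = -fS` (both terms are `-fS/2`), `⟪Dgf σ,σ⟫ = 1 + 6S` (`gf_hess`, `mf ξ = S/2`,
`mf σ = -S/2`), `bdot ξ σ ∥ e₀` and `s', r, ..` have zero `0`-component, so (definition of `P3`,
`q2_deriv_general`, `bdot_model`, `bdot_deriv_model`, `⟪σ,act p⟫ = 0`)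
`P3 = -fS(1+6S)/2 + ⟪βσ,[βη,σ]⟫ - ⟪[p,βσ],s'+r⟫ + ⟪βs',s'+r⟫ + ⟪βr,r⟫`
where `⟪βσ,[βη,σ]⟫ = fτ²/8`, `-⟪[p,βσ],s'+r⟫ = -f²S/2 + fτ²/4 + τ²S/2`,
`⟪βs',s'+r⟫ = -f²S/2 + fτ²/8`, `⟪βr,r⟫ = τ²S/2`.
Total `P3 = 8 - (3/2)S - 6S² + 2S³ ≥ 3/2 > 0` for `|S| ≤ 1`
(`8 - 3S/2 - 6S² + 2S³ - 3/2 ≥ 0` on `[-1,1]`: `nlinarith`; checked numerically).
-/

namespace HFin

open scoped RealInnerProductSpace

private theorem K3_inner (x y : V5) :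
    ⟪x, y⟫ = x 0 * y 0 + x 1 * y 1 + x 2 * y 2 + x 3 * y 3 + x 4 * y 4 := by
  simp [PiLp.inner_apply, Fin.sum_univ_five]; ring

private theorem K3_beta {ξ : V5} (hξ : ξ ≠ 0) (x0 : ξ 0 = 0) {v : V5} (hv : v 0 = 0) :
    (fderiv ℝ pmod ξ v) 0 = ⟪gf ξ, v⟫ ∧ (fderiv ℝ pmod ξ v) 1 = - v 3 ∧
    (fderiv ℝ pmod ξ v) 2 = - v 4 ∧ (fderiv ℝ pmod ξ v) 3 = - v 1 ∧
    (fderiv ℝ pmod ξ v) 4 = - v 2 := by
  rw [pmod_fderiv hξ]
  simp [x0, hv, sw]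

theorem P3_model (c s u v ε δ : ℝ) (hcs : c ^ 2 + s ^ 2 = 1) (huv : u ^ 2 + v ^ 2 = 1)
    (hε : ε = 1 ∨ ε = -1) (hδ : δ = 1 ∨ δ = -1) :
    P3 (su2 1 1) pmod !₂[0, c * u, c * v, ε * s * u, ε * s * v]
      (δ • !₂[0, -s * u, -s * v, ε * c * u, ε * c * v]) =
      8 - 3 / 2 * (2 * ε * c * s) - 6 * (2 * ε * c * s) ^ 2 + 2 * (2 * ε * c * s) ^ 3 := by
  have hε2 : ε ^ 2 = 1 := by rcases hε with h | h <;> simp [h]
  have hδ2 : δ ^ 2 = 1 := by rcases hδ with h | h <;> simp [h]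
  set k : ℝ := ((1 : ℕ) : ℝ) / nrm 1 1 with hk
  have hk2 : k ^ 2 = 1 / 2 := by
    have := nrm_sq (p := 1) (q := 1) (by norm_num)
    rw [← hk] at this
    linarith
  have hmm : ∀ x y : V5, (su2 1 1).mm x y =
      !₂[k * (x 1 * y 2 - x 2 * y 1) - k * (x 3 * y 4 - x 4 * y 3), k * (x 2 * y 0 - x 0 * y 2),
        k * (x 0 * y 1 - x 1 * y 0), -k * (x 4 * y 0 - x 0 * y 4),
        -k * (x 0 * y 3 - x 3 * y 0)] := fun x y => su2_mm 1 1 x y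
  have hact : ∀ x : V5, (su2 1 1).act x = !₂[0, -k * x 2, k * x 1, -k * x 4, k * x 3] :=
    fun x => su2_act 1 1 x
  have m0 : ∀ x y : V5, ((su2 1 1).mm x y) 0 =
    k * (x 1 * y 2 - x 2 * y 1) - k * (x 3 * y 4 - x 4 * y 3) := by intro x y; rw [hmm]; simp
  have m1 : ∀ x y : V5, ((su2 1 1).mm x y) 1 = k * (x 2 * y 0 - x 0 * y 2) := by
    intro x y; rw [hmm]; simp
  have m2 : ∀ x y : V5, ((su2 1 1).mm x y) 2 = k * (x 0 * y 1 - x 1 * y 0) := by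
    intro x y; rw [hmm]; simp
  have m3 : ∀ x y : V5, ((su2 1 1).mm x y) 3 = -k * (x 4 * y 0 - x 0 * y 4) := by
    intro x y; rw [hmm]; simp
  have m4 : ∀ x y : V5, ((su2 1 1).mm x y) 4 = -k * (x 0 * y 3 - x 3 * y 0) := by
    intro x y; rw [hmm]; simp
  set S : ℝ := ε * c * s with hS
  set ξ : V5 := !₂[0, c * u, c * v, ε * s * u, ε * s * v] with hξd
  have x0 : ξ 0 = 0 := by simp [hξd]
  have x1 : ξ 1 = c * u := by simp [hξd]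
  have x2 : ξ 2 = c * v := by simp [hξd]
  have x3 : ξ 3 = ε * s * u := by simp [hξd]
  have x4 : ξ 4 = ε * s * v := by simp [hξd]
  set σ : V5 := δ • !₂[0, -s * u, -s * v, ε * c * u, ε * c * v] with hσd
  have s0 : σ 0 = 0 := by simp [hσd]
  have s1 : σ 1 = δ * (-s * u) := by simp [hσd]
  have s2 : σ 2 = δ * (-s * v) := by simp [hσd]
  have s3 : σ 3 = δ * (ε * c * u) := by simp [hσd]
  have s4 : σ 4 = δ * (ε * c * v) := by simp [hσd]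
  clear_value ξ σ
  have nξ : ‖ξ‖ = 1 := by
    have : ‖ξ‖ ^ 2 = 1 := by
      rw [← real_inner_self_eq_norm_sq, K3_inner, x0, x1, x2, x3, x4]
      linear_combination (c ^ 2 + s ^ 2 * ε ^ 2) * huv + hcs + s ^ 2 * hε2
    nlinarith [norm_nonneg ξ]
  have nσ : ‖σ‖ = 1 := by
    have : ‖σ‖ ^ 2 = 1 := by
      rw [← real_inner_self_eq_norm_sq, K3_inner, s0, s1, s2, s3, s4]
      linear_combination (δ ^ 2 * (s ^ 2 + c ^ 2 * ε ^ 2)) * huv + δ ^ 2 * hcs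
        + δ ^ 2 * c ^ 2 * hε2 + hδ2
    nlinarith [norm_nonneg σ]
  have hξσ : ⟪ξ, σ⟫ = 0 := by
    rw [K3_inner, s0, s1, s2, s3, s4, x0, x1, x2, x3, x4]
    linear_combination (δ * c * s * (ε ^ 2 - 1)) * huv + δ * c * s * hε2
  have hξ0 : ξ ≠ 0 := by
    intro h; rw [h, norm_zero] at nξ; exact zero_ne_one nξ
  have mξ : mf ξ = S := by
    rw [mf, x1, x2, x3, x4, hS]
    linear_combination (ε * c * s) * huv
  have mσ : mf σ = -S := by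
    rw [mf, s1, s2, s3, s4, hS]
    linear_combination (-δ ^ 2 * ε * c * s) * huv - ε * c * s * hδ2
  -- p
  set P : V5 := pmod ξ with hP
  have p0 : P 0 = 1 - 4 * S := by simp [hP, pmod, nξ, mξ, x0, sw]
  have p1 : P 1 = -(ε * s * u) := by simp [hP, pmod, nξ, mξ, x0, sw, x3]
  have p2 : P 2 = -(ε * s * v) := by simp [hP, pmod, nξ, mξ, x0, sw, x4]
  have p3 : P 3 = -(c * u) := by simp [hP, pmod, nξ, mξ, x0, sw, x1]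
  have p4 : P 4 = -(c * v) := by simp [hP, pmod, nξ, mξ, x0, sw, x2]
  have g0 : gf ξ 0 = 0 := by simp [gf, nξ, mξ, sw, x0]
  have g1 : gf ξ 1 = (1 + 4 * S) * (c * u) - 4 * (ε * s * u) := by
    simp [gf, nξ, mξ, sw, x1, x3]; ring
  have g2 : gf ξ 2 = (1 + 4 * S) * (c * v) - 4 * (ε * s * v) := by
    simp [gf, nξ, mξ, sw, x2, x4]; ring
  have g3 : gf ξ 3 = (1 + 4 * S) * (ε * s * u) - 4 * (c * u) := by
    simp [gf, nξ, mξ, sw, x1, x3]; ring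
  have g4 : gf ξ 4 = (1 + 4 * S) * (ε * s * v) - 4 * (c * v) := by
    simp [gf, nξ, mξ, sw, x2, x4]; ring
  -- η
  set η : V5 := (su2 1 1).mm P ξ with hη
  have e0 : η 0 = 0 := by rw [hη, m0, p1, p2, p3, p4, x1, x2, x3, x4]; ring
  have e1 : η 1 = -(k * (1 - 4 * S) * (c * v)) := by rw [hη, m1, p0, x0, x2]; ring
  have e2 : η 2 = k * (1 - 4 * S) * (c * u) := by rw [hη, m2, p0, x0, x1]; ring
  have e3 : η 3 = k * (1 - 4 * S) * (ε * s * v) := by rw [hη, m3, p0, x0, x4]; ring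
  have e4 : η 4 = -(k * (1 - 4 * S) * (ε * s * u)) := by rw [hη, m4, p0, x0, x3]; ring
  obtain ⟨b0, b1, b2, b3, b4⟩ := K3_beta hξ0 x0 e0
  have b0' : (fderiv ℝ pmod ξ η) 0 = 0 := by
    rw [b0, K3_inner, g0, g1, g2, g3, g4, e0, e1, e2, e3, e4]; ring
  rw [e3] at b1
  rw [e4] at b2
  rw [e1] at b3
  rw [e2] at b4
  set τ : ℝ := -4 * ε * (c ^ 2 - s ^ 2) with hτ
  have hgσ : ⟪gf ξ, σ⟫ = δ * τ := by
    rw [K3_inner, g0, g1, g2, g3, g4, s0, s1, s2, s3, s4, hτ]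
    linear_combination (δ * (-(1 + 4 * S) * c * s - 4 * ε * (c ^ 2 - s ^ 2)
      + ε ^ 2 * (1 + 4 * S) * c * s)) * huv + δ * (1 + 4 * S) * c * s * hε2
  obtain ⟨q0, q1, q2, q3, q4⟩ := K3_beta hξ0 x0 s0
  rw [hgσ] at q0
  rw [s3] at q1
  rw [s4] at q2
  rw [s1] at q3
  rw [s2] at q4
  set βσ : V5 := fderiv ℝ pmod ξ σ with hβσ
  set βη : V5 := fderiv ℝ pmod ξ η with hβη
  -- s' = [p, σ]
  set t : V5 := (su2 1 1).mm P σ with ht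
  have t0 : t 0 = 0 := by rw [ht, m0, p1, p2, p3, p4, s1, s2, s3, s4]; ring
  have t1 : t 1 = k * (1 - 4 * S) * (δ * s * v) := by rw [ht, m1, p0, s0, s2]; ring
  have t2 : t 2 = -(k * (1 - 4 * S) * (δ * s * u)) := by rw [ht, m2, p0, s0, s1]; ring
  have t3 : t 3 = k * (1 - 4 * S) * (δ * ε * c * v) := by rw [ht, m3, p0, s0, s4]; ring
  have t4 : t 4 = -(k * (1 - 4 * S) * (δ * ε * c * u)) := by rw [ht, m4, p0, s0, s3]; ring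
  -- r = [ξ, βσ]
  set r : V5 := (su2 1 1).mm ξ βσ with hr
  have r0 : r 0 = 0 := by rw [hr, m0, q1, q2, q3, q4, x1, x2, x3, x4]; ring
  have r1 : r 1 = k * δ * τ * (c * v) := by rw [hr, m1, x0, x2, q0]; ring
  have r2 : r 2 = -(k * δ * τ * (c * u)) := by rw [hr, m2, x0, x1, q0]; ring
  have r3 : r 3 = -(k * δ * τ * (ε * s * v)) := by rw [hr, m3, x0, x4, q0]; ring
  have r4 : r 4 = k * δ * τ * (ε * s * u) := by rw [hr, m4, x0, x3, q0]; ring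
  -- T1
  have hbd := bdot_deriv_model hξ0 x0 s0 (by rw [← hP]; exact e0)
  have hgh := gf_hess nξ nσ hξσ
  rw [mξ, mσ] at hgh
  have hbm := bdot_model hξ0 x0 s0 (by rw [← hP]; exact e0)
  have hq2 := q2_deriv_general (su2_normal 1 1 (by norm_num)) pmod_pert hξ0 σ
  rw [← hP, ← hη] at hbd hbm hq2
  rw [hgh] at hbd
  rw [← hβη, ← hβσ, hbd, ← ht] at hq2
  have hA : ((su2 1 1).mm βη ξ + (su2 1 1).mm P η) 0 = -(2 * (1 - 4 * S) * S) := by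
    rw [PiLp.add_apply, m0, m0, b1, b2, b3, b4, x1, x2, x3, x4, p1, p2, p3, p4, e1, e2, e3, e4]
    linear_combination (-4 * k ^ 2 * (1 - 4 * S) * ε * c * s) * huv
      - 4 * (1 - 4 * S) * ε * c * s * hk2 + 2 * (1 - 4 * S) * hS
  have hJ1 : ⟪βσ, (su2 1 1).mm βη σ⟫ = (1 - 4 * S) * τ ^ 2 / 8 := by
    rw [K3_inner, m0, m1, m2, m3, m4, b0', s0, q0, b1, b2, b3, b4, s1, s2, s3, s4]
    linear_combination (δ ^ 2 * τ * k ^ 2 * (1 - 4 * S) * ε * (s ^ 2 - c ^ 2)) * huv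
      + (τ * k ^ 2 * (1 - 4 * S) * ε * (s ^ 2 - c ^ 2)) * hδ2
      + (τ * (1 - 4 * S) * ε * (s ^ 2 - c ^ 2)) * hk2 - ((1 - 4 * S) * τ / 8) * hτ
  have hJ2 : ⟪bdot (su2 1 1) pmod ξ σ, t⟫ = 0 := by
    rw [hbm, K3_inner, t0]; simp
  have hqq : qq2 (su2 1 1) pmod ξ σ = bdot (su2 1 1) pmod ξ σ - (su2 1 1).mm P βσ
      + fderiv ℝ pmod ξ t := by
    simp only [qq2, bdot, ← hP, ← hη, ← hβσ, ← ht]
  obtain ⟨bt0, bt1, bt2, bt3, bt4⟩ := K3_beta hξ0 x0 t0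
  obtain ⟨br0, br1, br2, br3, br4⟩ := K3_beta hξ0 x0 r0
  have hz : ⟪(su2 1 1).mm P βσ, t + r⟫ = (1 - 4 * S) ^ 2 * S - (1 - 4 * S) * τ ^ 2 / 4
      - τ ^ 2 * S := by
    rw [K3_inner]
    simp only [PiLp.add_apply]
    rw [m1, m2, m3, m4, t0, r0, t1, t2, t3, t4, r1, r2, r3, r4, p0, p1, p2, p3, p4,
      q0, q1, q2, q3, q4]
    linear_combination (2 * k ^ 2 * δ ^ 2 * ε * ((1 - 4 * S) * c - s * τ)
        * ((1 - 4 * S) * s + τ * c)) * huv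
      + (2 * k ^ 2 * ε * ((1 - 4 * S) * c - s * τ) * ((1 - 4 * S) * s + τ * c)) * hδ2
      + (2 * ε * ((1 - 4 * S) * c - s * τ) * ((1 - 4 * S) * s + τ * c)) * hk2
      - ((1 - 4 * S) ^ 2 - τ ^ 2) * hS + ((1 - 4 * S) * τ / 4) * hτ
  have hbt : ⟪fderiv ℝ pmod ξ t, t + r⟫ = - (1 - 4 * S) ^ 2 * S + (1 - 4 * S) * τ ^ 2 / 8 := by
    rw [K3_inner]
    simp only [PiLp.add_apply]
    rw [bt1, bt2, bt3, bt4, t0, r0, t1, t2, t3, t4, r1, r2, r3, r4]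
    linear_combination (-(k ^ 2 * δ ^ 2 * ε * (1 - 4 * S)) * (c * ((1 - 4 * S) * s + τ * c)
        + s * ((1 - 4 * S) * c - τ * s))) * huv
      - (k ^ 2 * ε * (1 - 4 * S)) * (c * ((1 - 4 * S) * s + τ * c)
        + s * ((1 - 4 * S) * c - τ * s)) * hδ2
      - (ε * (1 - 4 * S)) * (c * ((1 - 4 * S) * s + τ * c)
        + s * ((1 - 4 * S) * c - τ * s)) * hk2
      + (1 - 4 * S) ^ 2 * hS - ((1 - 4 * S) * τ / 8) * hτ
  have hbr : ⟪fderiv ℝ pmod ξ r, r⟫ = τ ^ 2 * S := by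
    rw [K3_inner, br1, br2, br3, br4, r0, r1, r2, r3, r4]
    linear_combination (2 * k ^ 2 * δ ^ 2 * τ ^ 2 * ε * c * s) * huv
      + (2 * k ^ 2 * τ ^ 2 * ε * c * s) * hδ2 + (2 * τ ^ 2 * ε * c * s) * hk2 - τ ^ 2 * hS
  have hbd0 : ⟪bdot (su2 1 1) pmod ξ σ, t + r⟫ = 0 := by
    rw [hbm, K3_inner]; simp [t0, r0]
  have hν : ⟪σ, (su2 1 1).act P⟫ = 0 := by
    rw [K3_inner, hact]
    simp [s0, s1, s2, s3, s4, p1, p2, p3, p4]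
    ring
  have hτ2 : τ ^ 2 = 16 * (1 - 4 * S ^ 2) := by
    rw [hτ, hS]
    linear_combination (16 * (c ^ 2 - s ^ 2) ^ 2 + 64 * c ^ 2 * s ^ 2) * hε2
      + 16 * (c ^ 2 + s ^ 2 + 1) * hcs
  have hP3 : P3 (su2 1 1) pmod ξ σ =
      ⟪fderiv ℝ (fun y => qq2 (su2 1 1) pmod y σ) ξ η, σ⟫ / 2
      + ⟪qq2 (su2 1 1) pmod ξ σ, t + r⟫ + ⟪fderiv ℝ pmod ξ r, r⟫
      + ⟪σ, (su2 1 1).act P⟫ * ⟪βσ, (su2 1 1).act P⟫ := by
    simp only [P3, ← hP, ← hη, ← hβσ, ← ht, ← hr]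
  rw [hP3, hν, hbr, hqq, inner_add_left, inner_sub_left, hbd0, hz, hbt, hq2, hA, hJ1, hJ2]
  have h2S : 2 * ε * c * s = 2 * S := by rw [hS]; ring
  rw [h2S]
  linear_combination ((1 - 4 * S) / 2 + 2 * S) * hτ2

theorem P3_pos (ξ σ : V5) (hξ : ‖ξ‖ = 1) (hσ : ‖σ‖ = 1) (hξσ : ⟪ξ, σ⟫ = 0)
    (h1 : (su2 1 1).mm ξ σ = 0) (h2 : ⟪σ, (su2 1 1).act ξ⟫ = 0)
    (h3 : ⟪σ, (su2 1 1).act (pmod ξ)⟫ = 0) : 0 < P3 (su2 1 1) pmod ξ σ := by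
  obtain ⟨c, s, u, v, ε, δ, hcs, huv, hε, hδ, rfl, rfl⟩ := flats ξ σ hξ hσ hξσ h1 h2 h3
  rw [P3_model c s u v ε δ hcs huv hε hδ]
  have hS : (2 * ε * c * s) ^ 2 ≤ 1 := by
    have hε2 : ε ^ 2 = 1 := by rcases hε with h | h <;> simp [h]
    have : (2 * ε * c * s) ^ 2 = (2 * c * s) ^ 2 := by
      linear_combination (4 * c ^ 2 * s ^ 2) * hε2
    rw [this]
    nlinarith [sq_nonneg (c ^ 2 - s ^ 2)]
  set S := 2 * ε * c * s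
  have h1 : S ≤ 1 := by nlinarith
  have h2 : -1 ≤ S := by nlinarith
  nlinarith [mul_nonneg (sub_nonneg.2 h1) (sub_nonneg.2 h2), sq_nonneg (S - 1), sq_nonneg (S + 1),
    mul_nonneg (sub_nonneg.2 h1) (sq_nonneg (S - 1)), mul_nonneg (sub_nonneg.2 h1) (sq_nonneg (S+1)),
    mul_nonneg (sub_nonneg.2 h2) (sq_nonneg (S - 1)), mul_nonneg (sub_nonneg.2 h2) (sq_nonneg (S+1))]

end HFin
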