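import Pool.Agent.HFin.SU2
import Pool.Agent.HFin.Dual

/-! MODULE J1 (diff 2): explicit formulas for `su2 p q` and normality.

With `n = nrm p q`, `A = q/n`, `B = p/n` (`A² + B² = 1`):
`mm x y = (A (x₁y₂-x₂y₁) - B (x₃y₄-x₄y₃), A (x₂y₀-x₀y₂), A (x₀y₁-x₁y₀), -B (x₄y₀-x₀y₄), -B (x₀y₃-x₃y₀))`,
`mh x y = B (x₁y₂-x₂y₁) + A (x₃y₄-x₄y₃)`, `act x = (0, -B x₂, B x₁, -A x₄, A x₃)`.
(unfold `su2`, `toCB_apply`, `LinearMap.mk₂_apply`, `brk`, `emb`, `prM`, `crossProduct`).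
Normality is then polynomial algebra in `A, B` with `A² + B² = 1`; inner products on
`EuclideanSpace ℝ (Fin 5)`: `EuclideanSpace.inner_eq_star_dotProduct` or
`simp [PiLp.inner_apply, Fin.sum_univ_five]`; `ext i; fin_cases i` and `ring_nf`/`linear_combination
(...) * hAB`.
-/

namespace HFin

open scoped RealInnerProductSpace

theorem nrm_pos {p q : ℕ} (h : (p : ℝ) ^ 2 + (q : ℝ) ^ 2 ≠ 0) : 0 < nrm p q := by
  unfold nrm
  exact Real.sqrt_pos.2 (lt_of_le_of_ne (by positivity) (Ne.symm h))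

theorem nrm_sq {p q : ℕ} (h : (p : ℝ) ^ 2 + (q : ℝ) ^ 2 ≠ 0) :
    ((q : ℝ) / nrm p q) ^ 2 + ((p : ℝ) / nrm p q) ^ 2 = 1 := by
  have h1 : nrm p q ^ 2 = (p : ℝ) ^ 2 + (q : ℝ) ^ 2 := by
    unfold nrm
    exact Real.sq_sqrt (by positivity)
  rw [div_pow, div_pow, h1, ← add_div, add_comm ((q : ℝ) ^ 2)]
  exact div_self h

theorem su2_mm (p q : ℕ) (x y : V5) : (su2 p q).mm x y =
    !₂[q / nrm p q * (x 1 * y 2 - x 2 * y 1) - p / nrm p q * (x 3 * y 4 - x 4 * y 3),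
      q / nrm p q * (x 2 * y 0 - x 0 * y 2), q / nrm p q * (x 0 * y 1 - x 1 * y 0),
      -(p / nrm p q) * (x 4 * y 0 - x 0 * y 4), -(p / nrm p q) * (x 0 * y 3 - x 3 * y 0)] := by
  ext i
  fin_cases i <;> simp [su2, prM, brk, emb, crossProduct] <;> ring

theorem su2_mh (p q : ℕ) (x y : V5) : (su2 p q).mh x y =
    p / nrm p q * (x 1 * y 2 - x 2 * y 1) + q / nrm p q * (x 3 * y 4 - x 4 * y 3) := by
  simp [su2, prH, brk, emb, crossProduct]

theorem su2_act (p q : ℕ) (x : V5) : (su2 p q).act x =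
    !₂[0, -(p / nrm p q) * x 2, p / nrm p q * x 1, -(q / nrm p q) * x 4, q / nrm p q * x 3] := by
  ext i
  fin_cases i <;> simp [su2, prM, brk, emb, hzero, crossProduct]

theorem J1_inner (x y : V5) :
    ⟪x, y⟫ = x 0 * y 0 + x 1 * y 1 + x 2 * y 2 + x 3 * y 3 + x 4 * y 4 := by
  simp [PiLp.inner_apply, Fin.sum_univ_five]
  ring

theorem su2_normal (p q : ℕ) (h : (p : ℝ) ^ 2 + (q : ℝ) ^ 2 ≠ 0) : IsNormal (su2 p q) := by
  have hAB := nrm_sq h
  have e := su2_mm p q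
  have e1 := su2_mh p q
  have e2 := su2_act p q
  set A : ℝ := (q : ℝ) / nrm p q with hA
  set B : ℝ := (p : ℝ) / nrm p q with hB
  refine ⟨?_, ?_, ?_, ?_, ?_⟩
  · intro x y z
    rw [e, e, J1_inner, J1_inner]
    simp
    ring
  · intro x y
    rw [e2, e2, J1_inner, J1_inner]
    simp
    ring
  · intro x y
    rw [e1, e2, J1_inner]
    simp
    ring
  · intro x y z
    ext i
    simp only [e, e2, J1_inner]
    fin_cases i
    · simp
      ring
    · simp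
      ring
    · simp
      ring
    · simp
      ring
    · simp
      ring
  · intro x y
    ext i
    simp only [e, e2]
    fin_cases i <;> simp <;> ring

end HFin
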