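import Pool.Agent.HFin.L2
import Pool.Agent.HFin.J1

/-! MODULE L4 (diff 2): the flow of `rot p q`, and critical flagpoles.

* `rot_flow`: `rot p q θ` is (the coercion of) a continuous linear equivalence, `rot 0 = id`,
  `d/dθ rot p q θ x |₀ = nrm p q • act x` (J1 `su2_act`; `nrm * (p/nrm) = p`), and it commutes with the
  bracket (rotations about `e₀` are automorphisms of the cross product; use `su2_mm`,
  `cos² + sin² = 1`).
* `exists_crit`: for a Minkowski norm `F` on `V5`, a linear functional `ℓ ≠ 0` on a subspace `U`: there is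
  `x ∈ U` with `ℓ x = 1` and `D(F²/2)(x) v = F(x)² ℓ v` for all `v ∈ U`.  Proof: minimise `F` on
  `{x ∈ U : ℓ x = 1}`.
* `exists_crit_sphere`: there is a unit vector `x ∈ U` with `D(F²/2)(x) v = F(x)² ⟪x,v⟫` for `v ∈ U`
  (`U ≠ 0`): maximise `F` on the unit sphere of `U`.
-/

namespace HFin

open scoped RealInnerProductSpace ContDiff

/-- The rotation as a continuous linear equivalence. -/
noncomputable def rotE (p q : ℕ) (θ : ℝ) : V5 ≃L[ℝ] V5 :=
  LinearEquiv.toContinuousLinearEquiv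
    { toFun := rot p q θ
      map_add' := by
        intro x y
        ext i
        fin_cases i <;> simp [rot] <;> ring
      map_smul' := by
        intro c x
        ext i
        fin_cases i <;> simp [rot] <;> ring
      invFun := rot p q (-θ)
      left_inv := by
        intro x
        have h1 := Real.cos_sq_add_sin_sq (p * θ)
        have h2 := Real.cos_sq_add_sin_sq (q * θ)
        ext i
        fin_cases i
        · simp [rot]
        · simp [rot]
          linear_combination x 1 * h1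
        · simp [rot]
          linear_combination x 2 * h1
        · simp [rot]
          linear_combination x 3 * h2
        · simp [rot]
          linear_combination x 4 * h2
      right_inv := by
        intro x
        have h1 := Real.cos_sq_add_sin_sq (p * θ)
        have h2 := Real.cos_sq_add_sin_sq (q * θ)
        ext i
        fin_cases i
        · simp [rot]
        · simp [rot]
          linear_combination x 1 * h1
        · simp [rot]
          linear_combination x 2 * h1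
        · simp [rot]
          linear_combination x 3 * h2
        · simp [rot]
          linear_combination x 4 * h2 }

lemma rotE_apply (p q : ℕ) (θ : ℝ) (x : V5) : rotE p q θ x = rot p q θ x := rfl

lemma rot_decomp (p q : ℕ) (θ : ℝ) (x : V5) : rot p q θ x =
    !₂[x 0, 0, 0, 0, 0] + Real.cos (p * θ) • (!₂[0, x 1, x 2, 0, 0] : V5)
      + Real.sin (p * θ) • (!₂[0, - x 2, x 1, 0, 0] : V5)
      + Real.cos (q * θ) • (!₂[0, 0, 0, x 3, x 4] : V5)
      + Real.sin (q * θ) • (!₂[0, 0, 0, - x 4, x 3] : V5) := by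
  ext i
  fin_cases i <;> simp [rot] <;> ring

theorem rot_flow {p q : ℕ} (h : (p : ℝ) ^ 2 + (q : ℝ) ^ 2 ≠ 0) {F : V5 → ℝ} (hinv : IsoInv p q F) :
    ∃ R : ℝ → V5 ≃L[ℝ] V5, (∀ θ x, R θ x = rot p q θ x) ∧ IsFlow (su2 p q) F R (nrm p q) := by
  refine ⟨rotE p q, fun θ x => rfl, ?_⟩
  have hn := nrm_pos h
  refine ⟨hn.ne', ?_, ?_, ?_, ?_⟩
  · intro x
    rw [rotE_apply]
    ext i
    fin_cases i <;> simp [rot]
  · intro x
    have hc : ∀ c : ℝ, HasDerivAt (fun θ : ℝ => Real.cos (c * θ)) 0 0 := by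
      intro c
      have := (Real.hasDerivAt_cos (c * 0)).comp (0 : ℝ) ((hasDerivAt_id (0 : ℝ)).const_mul c)
      simpa [Function.comp_def] using this
    have hs : ∀ c : ℝ, HasDerivAt (fun θ : ℝ => Real.sin (c * θ)) c 0 := by
      intro c
      have := (Real.hasDerivAt_sin (c * 0)).comp (0 : ℝ) ((hasDerivAt_id (0 : ℝ)).const_mul c)
      simpa [Function.comp_def] using this
    have h1 := (((((hasDerivAt_const (0 : ℝ) (!₂[x 0, 0, 0, 0, 0] : V5)).add
      ((hc p).smul_const (!₂[0, x 1, x 2, 0, 0] : V5))).add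
      ((hs p).smul_const (!₂[0, - x 2, x 1, 0, 0] : V5))).add
      ((hc q).smul_const (!₂[0, 0, 0, x 3, x 4] : V5))).add
      ((hs q).smul_const (!₂[0, 0, 0, - x 4, x 3] : V5)))
    have h2 : (fun θ => rotE p q θ x) = fun θ : ℝ =>
        (!₂[x 0, 0, 0, 0, 0] : V5) + Real.cos (p * θ) • (!₂[0, x 1, x 2, 0, 0] : V5)
      + Real.sin (p * θ) • (!₂[0, - x 2, x 1, 0, 0] : V5)
      + Real.cos (q * θ) • (!₂[0, 0, 0, x 3, x 4] : V5)
      + Real.sin (q * θ) • (!₂[0, 0, 0, - x 4, x 3] : V5) := by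
      funext θ
      rw [rotE_apply, rot_decomp]
    rw [h2]
    refine h1.congr_deriv ?_
    rw [su2_act]
    have e1 : nrm p q * (p / nrm p q) = p := by field_simp
    have e2 : nrm p q * (q / nrm p q) = q := by field_simp
    ext i
    fin_cases i
    · simp
    · simp
      field_simp
    · simp
      field_simp
    · simp
      field_simp
    · simp
      field_simp
  · intro θ x
    exact hinv θ x
  · intro θ u v
    have h1 := Real.cos_sq_add_sin_sq (p * θ)
    have h2 := Real.cos_sq_add_sin_sq (q * θ)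
    simp only [rotE_apply]
    rw [su2_mm, su2_mm]
    ext i
    fin_cases i
    · simp [rot]
      linear_combination (q / nrm p q * (u 1 * v 2 - u 2 * v 1)) * h1
        - (p / nrm p q * (u 3 * v 4 - u 4 * v 3)) * h2
    · simp [rot]
      ring
    · simp [rot]
      ring
    · simp [rot]
      ring
    · simp [rot]
      ring

variable {V : Type*} [NormedAddCommGroup V] [InnerProductSpace ℝ V] [FiniteDimensional ℝ V]

omit [FiniteDimensional ℝ V] in
lemma mink_nonneg {F : V → ℝ} (hF : IsMinkowski F) (x : V) : 0 ≤ F x := by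
  by_cases h : x = 0
  · rw [h, hF.zero]
  · exact (hF.pos x h).le

omit [FiniteDimensional ℝ V] in
lemma energy_hasDerivAt {F : V → ℝ} (hF : IsMinkowski F) {x : V} (hx : x ≠ 0) (v : V) :
    HasDerivAt (fun s : ℝ => F (x + s • v) ^ 2 / 2) (fderiv ℝ (fun z => F z ^ 2 / 2) x v) 0 := by
  have hd : DifferentiableAt ℝ (fun z => F z ^ 2 / 2) x :=
    ((energy_smooth hF).contDiffAt (isOpen_ne.mem_nhds hx)).differentiableAt (by simp)
  have h1 : HasFDerivAt (fun z => F z ^ 2 / 2) (fderiv ℝ (fun z => F z ^ 2 / 2) x)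
      (x + (0 : ℝ) • v) := by
    simpa using hd.hasFDerivAt
  have h2 : HasDerivAt (fun s : ℝ => x + s • v) v 0 := by
    simpa using ((hasDerivAt_id (0 : ℝ)).smul_const v).const_add x
  exact h1.comp_hasDerivAt (0 : ℝ) h2

theorem exists_crit {F : V → ℝ} (hF : IsMinkowski F) (U : Submodule ℝ V) (l : V →L[ℝ] ℝ)
    (hl : ∃ x ∈ U, l x ≠ 0) :
    ∃ x ∈ U, l x = 1 ∧ ∀ v ∈ U, fderiv ℝ (fun z => F z ^ 2 / 2) x v = F x ^ 2 * l v := by
  classical
  obtain ⟨z, hzU, hz⟩ := hl
  have hz0 : z ≠ 0 := by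
    rintro rfl
    simp at hz
  have hcont : ContinuousOn F {x | x ≠ 0} := hF.smooth.continuousOn
  -- lower bound
  have hsph : IsCompact (Metric.sphere (0 : V) 1) := isCompact_sphere 0 1
  have hsne : (Metric.sphere (0 : V) 1).Nonempty :=
    ⟨‖z‖⁻¹ • z, by
      rw [mem_sphere_zero_iff_norm, norm_smul, norm_inv, norm_norm,
        inv_mul_cancel₀ (norm_ne_zero_iff.2 hz0)]⟩
  have hne1 : ∀ y ∈ Metric.sphere (0 : V) 1, y ≠ 0 := by
    rintro y hy rfl
    simp at hy
  obtain ⟨s0, hs0, hmin⟩ := hsph.exists_isMinOn hsne (hcont.mono hne1)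
  have hm : 0 < F s0 := hF.pos s0 (hne1 s0 hs0)
  have hlow : ∀ y : V, F s0 * ‖y‖ ≤ F y := by
    intro y
    by_cases hy : y = 0
    · simp [hy, hF.zero]
    · have hny : 0 < ‖y‖ := norm_pos_iff.2 hy
      have h1 : F s0 ≤ F (‖y‖⁻¹ • y) := hmin (by
        rw [mem_sphere_zero_iff_norm, norm_smul, norm_inv, norm_norm,
          inv_mul_cancel₀ hny.ne'])
      rw [hF.smul _ _ (by positivity)] at h1
      rw [inv_mul_eq_div, le_div_iff₀ hny] at h1
      exact h1
  set x0 : V := (l z)⁻¹ • z with hx0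
  have hx0U : x0 ∈ U := U.smul_mem _ hzU
  have hlx0 : l x0 = 1 := by
    rw [hx0, map_smul, smul_eq_mul, inv_mul_cancel₀ hz]
  set S : Set V := {y | y ∈ U ∧ l y = 1} ∩ Metric.closedBall 0 (F x0 / F s0) with hS
  have hScomp : IsCompact S := by
    refine (isCompact_closedBall (0 : V) (F x0 / F s0)).inter_left ?_
    have h1 : IsClosed (U : Set V) := U.closed_of_finiteDimensional
    exact h1.inter (isClosed_eq l.continuous continuous_const)
  have hx0S : x0 ∈ S := by
    refine ⟨⟨hx0U, hlx0⟩, ?_⟩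
    rw [mem_closedBall_zero_iff, le_div_iff₀ hm]
    have := hlow x0
    linarith [mul_comm (F s0) ‖x0‖]
  have hSne : ∀ y ∈ S, y ≠ 0 := by
    rintro y hy rfl
    have := hy.1.2
    simp at this
  obtain ⟨x, hxS, hxmin⟩ := hScomp.exists_isMinOn ⟨x0, hx0S⟩ (hcont.mono hSne)
  have hglob : ∀ y ∈ U, l y = 1 → F x ≤ F y := by
    intro y hyU hly
    by_cases hb : y ∈ Metric.closedBall (0 : V) (F x0 / F s0)
    · exact hxmin ⟨⟨hyU, hly⟩, hb⟩
    · rw [mem_closedBall_zero_iff, not_le, div_lt_iff₀ hm] at hb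
      have h1 := hlow y
      have h2 : F x ≤ F x0 := hxmin hx0S
      linarith [mul_comm (F s0) ‖y‖]
  have hx : x ≠ 0 := hSne x hxS
  have hlx : l x = 1 := hxS.1.2
  refine ⟨x, hxS.1.1, hlx, fun v hv => ?_⟩
  have hd1 := energy_hasDerivAt hF hx v
  have hd2 : HasDerivAt (fun s : ℝ => F x ^ 2 * (l (x + s • v)) ^ 2 / 2) (F x ^ 2 * l v) 0 := by
    have h2 : HasDerivAt (fun s : ℝ => l (x + s • v)) (l v) 0 := by
      have h3 : HasDerivAt (fun s : ℝ => x + s • v) v 0 := by
        simpa using ((hasDerivAt_id (0 : ℝ)).smul_const v).const_add x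
      exact l.hasFDerivAt.comp_hasDerivAt (0 : ℝ) h3
    have h4 := ((h2.pow 2).const_mul (F x ^ 2)).div_const 2
    refine h4.congr_deriv ?_
    simp [hlx]
    ring
  have hd := hd1.sub hd2
  have hpos : ∀ᶠ s : ℝ in nhds 0, 0 < l (x + s • v) := by
    have hc : ContinuousAt (fun s : ℝ => l (x + s • v)) 0 := by fun_prop
    have : (fun s : ℝ => l (x + s • v)) 0 = 1 := by simp [hlx]
    exact hc.eventually (lt_mem_nhds (by rw [this]; norm_num))
  have hmin0 : IsLocalMin (fun s : ℝ => F (x + s • v) ^ 2 / 2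
      - F x ^ 2 * (l (x + s • v)) ^ 2 / 2) 0 := by
    filter_upwards [hpos] with s hs
    have hyU : x + s • v ∈ U := U.add_mem hxS.1.1 (U.smul_mem _ hv)
    have h1 := hglob ((l (x + s • v))⁻¹ • (x + s • v)) (U.smul_mem _ hyU) (by
      rw [map_smul, smul_eq_mul, inv_mul_cancel₀ hs.ne'])
    rw [hF.smul _ _ (by positivity), inv_mul_eq_div, le_div_iff₀ hs] at h1
    have h0 : F (x + (0 : ℝ) • v) ^ 2 / 2
      - F x ^ 2 * (l (x + (0 : ℝ) • v)) ^ 2 / 2 = 0 := by
      simp [hlx]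
    have h2 : 0 ≤ F x * l (x + s • v) := mul_nonneg (mink_nonneg hF x) hs.le
    have h3 : (F x * l (x + s • v)) ^ 2 ≤ F (x + s • v) ^ 2 := by gcongr
    rw [mul_pow] at h3
    show F (x + (0 : ℝ) • v) ^ 2 / 2 - F x ^ 2 * (l (x + (0 : ℝ) • v)) ^ 2 / 2
      ≤ F (x + s • v) ^ 2 / 2 - F x ^ 2 * (l (x + s • v)) ^ 2 / 2
    linarith
  have := hmin0.hasDerivAt_eq_zero hd
  linarith

theorem exists_crit_sphere {F : V → ℝ} (hF : IsMinkowski F) (U : Submodule ℝ V) (hU : U ≠ ⊥) :
    ∃ x ∈ U, ‖x‖ = 1 ∧ ∀ v ∈ U, fderiv ℝ (fun z => F z ^ 2 / 2) x v = F x ^ 2 * ⟪x, v⟫ := by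
  classical
  obtain ⟨z, hzU, hz0⟩ := U.ne_bot_iff.1 hU
  have hcont : ContinuousOn F {x | x ≠ 0} := hF.smooth.continuousOn
  set S : Set V := (U : Set V) ∩ Metric.sphere 0 1 with hS
  have hScomp : IsCompact S :=
    (isCompact_sphere (0 : V) 1).inter_left U.closed_of_finiteDimensional
  have hzS : ‖z‖⁻¹ • z ∈ S := ⟨U.smul_mem _ hzU, by
      rw [mem_sphere_zero_iff_norm, norm_smul, norm_inv, norm_norm,
        inv_mul_cancel₀ (norm_ne_zero_iff.2 hz0)]⟩
  have hSne : ∀ y ∈ S, y ≠ 0 := by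
    rintro y hy rfl
    have := hy.2
    simp at this
  obtain ⟨x, hxS, hxmax⟩ := hScomp.exists_isMaxOn ⟨_, hzS⟩ (hcont.mono hSne)
  have hx : x ≠ 0 := hSne x hxS
  have hnx : ‖x‖ = 1 := mem_sphere_zero_iff_norm.1 hxS.2
  have hglob : ∀ y ∈ U, F y ≤ F x * ‖y‖ := by
    intro y hyU
    by_cases hy : y = 0
    · simp [hy, hF.zero]
    · have hny : 0 < ‖y‖ := norm_pos_iff.2 hy
      have h1 : F (‖y‖⁻¹ • y) ≤ F x := hxmax ⟨U.smul_mem _ hyU, by
        rw [mem_sphere_zero_iff_norm, norm_smul, norm_inv, norm_norm,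
          inv_mul_cancel₀ hny.ne']⟩
      rw [hF.smul _ _ (by positivity), inv_mul_eq_div, div_le_iff₀ hny] at h1
      exact h1
  refine ⟨x, hxS.1, hnx, fun v hv => ?_⟩
  have hd1 := energy_hasDerivAt hF hx v
  have hd2 : HasDerivAt (fun s : ℝ => F x ^ 2 * ‖x + s • v‖ ^ 2 / 2) (F x ^ 2 * ⟪x, v⟫) 0 := by
    have h3 : HasDerivAt (fun s : ℝ => x + s • v) v 0 := by
      simpa using ((hasDerivAt_id (0 : ℝ)).smul_const v).const_add x
    have h4 := ((h3.norm_sq).const_mul (F x ^ 2)).div_const 2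
    refine h4.congr_deriv ?_
    simp
    ring
  have hd := hd2.sub hd1
  have hmin0 : IsLocalMin (fun s : ℝ => F x ^ 2 * ‖x + s • v‖ ^ 2 / 2
      - F (x + s • v) ^ 2 / 2) 0 := by
    refine Filter.Eventually.of_forall fun s => ?_
    have hyU : x + s • v ∈ U := U.add_mem hxS.1 (U.smul_mem _ hv)
    have h1 := hglob _ hyU
    have h0 : F x ^ 2 * ‖x + (0 : ℝ) • v‖ ^ 2 / 2
      - F (x + (0 : ℝ) • v) ^ 2 / 2 = 0 := by
      simp [hnx]
    have h2 : 0 ≤ F (x + s • v) := mink_nonneg hF _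
    have h3 : F (x + s • v) ^ 2 ≤ (F x * ‖x + s • v‖) ^ 2 := by gcongr
    rw [mul_pow] at h3
    show F x ^ 2 * ‖x + (0 : ℝ) • v‖ ^ 2 / 2 - F (x + (0 : ℝ) • v) ^ 2 / 2
      ≤ F x ^ 2 * ‖x + s • v‖ ^ 2 / 2 - F (x + s • v) ^ 2 / 2
    linarith
  have := hmin0.hasDerivAt_eq_zero hd
  linarith

end HFin
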