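import Pool.Agent.HFin.L3
import Pool.Agent.HFin.L4

/-! MODULE L5 (diff 3): `p ≥ 2` is excluded.

`F` invariant of positive flag curvature.  `U = {x : x₃ = x₄ = 0}`, `e = e₃`, `e' = e₄` (basis vectors
with indices 3, 4), `A = q/n`, `B = p/n`, `n = nrm p q`.
(i) `R = rot p q (2π/p)` fixes `U` pointwise and rotates the `(3,4)`-plane by `α = 2πq/p ∉ 2πℤ`
(`p ≥ 2`, `gcd(p,q) = 1`).  For `x, u ∈ U`, `w` in the `(3,4)`-plane: `g_x(u,w) = g_{Rx}(Ru,Rw) = g_x(u,Rw)`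
(`fund_equi`), so `g_x(u, Rw - w) = 0`, and `R - 1` is onto the plane (determinant
`2 - 2cos α ≠ 0`): `g_x(u,w) = 0`.
(ii) `exists_crit` with `U`, `l = (·)₁`: `x = (x₀,1,x₂,0,0)`, `D(F²/2)(x)v = c v₁` for `v ∈ U`,
`c = F(x)² > 0`; also for `v` in the plane (both sides `0`, (i) and `fund_self`): so for all `v`.
(iii) `energy_act`: `0 = c (act x)₁ = - c B x₂`, so `x₂ = 0`.
(iv) `spray x = τ act x`, `τ = q x₀/p`: `g_x(spray x, v) = c ([v,x])₁ = c A x₀ v₂` (`su2_mm`) and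
`g_x(act x, v) = - c (act v)₁ = c B v₂` (`fund_act`); `A x₀ = τ B`; `fund_inj`.
(v) `[x,e₃] - τ act e₃ = κ e₄`, `[x,e₄] - τ act e₄ = -κ e₃` with `κ = -B x₀ - τ A`.
(vi) `XU ⊆ U`; `(mm v e₃)₁ = 0 = (mm v e₄)₁`; `mh x e₃ = mh x e₄ = 0`.
`core_nonpos` gives `w ≠ 0` in the plane with `curvQ ≤ 0`; `x, w` are independent; contradiction with
`flagK_pos_iff`.
-/

namespace HFin

/-- The subspace `x₃ = x₄ = 0`. -/
noncomputable def L5_U : Submodule ℝ V5 where
  carrier := {x | x 3 = 0 ∧ x 4 = 0}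
  add_mem' := by
    rintro x y ⟨h1, h2⟩ ⟨h3, h4⟩
    exact ⟨by simp [h1, h3], by simp [h2, h4]⟩
  zero_mem' := ⟨by simp, by simp⟩
  smul_mem' := by
    rintro c x ⟨h1, h2⟩
    exact ⟨by simp [h1], by simp [h2]⟩

/-- The basis vector with index 3. -/
noncomputable def L5_e : V5 := !₂[0, 0, 0, 1, 0]

/-- The basis vector with index 4. -/
noncomputable def L5_f : V5 := !₂[0, 0, 0, 0, 1]

theorem L5_mem {x : V5} : x ∈ L5_U ↔ x 3 = 0 ∧ x 4 = 0 := Iff.rfl

theorem L5_cos_ne {p q : ℕ} (hc : Nat.Coprime p q) (hp : 2 ≤ p) :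
    Real.cos ((q : ℝ) * (2 * Real.pi / p)) ≠ 1 := by
  intro h
  rw [Real.cos_eq_one_iff] at h
  obtain ⟨k, hk⟩ := h
  have hp0 : (p : ℝ) ≠ 0 := by positivity
  have h1 : (k : ℝ) * p = q := by
    have hpi := Real.pi_pos.ne'
    field_simp at hk
    exact hk
  have h2 : (k * (p : ℤ)) = (q : ℤ) := by exact_mod_cast h1
  have h3 : (p : ℤ) ∣ (q : ℤ) := ⟨k, by rw [← h2]; ring⟩
  have h4 : p ∣ q := by exact_mod_cast h3
  have h5 := Nat.dvd_gcd (dvd_refl p) h4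
  rw [hc] at h5
  have := Nat.le_of_dvd one_pos h5
  omega

theorem L5_rot_U {p q : ℕ} (hp : 2 ≤ p) {x : V5} (hx : x ∈ L5_U) :
    rot p q (2 * Real.pi / p) x = x := by
  have hp0 : (p : ℝ) ≠ 0 := by positivity
  have e1 : (p : ℝ) * (2 * Real.pi / p) = 2 * Real.pi := by field_simp
  obtain ⟨h3, h4⟩ := hx
  ext i
  fin_cases i <;> simp [rot, e1, h3, h4]

theorem L5_rot_e (p q : ℕ) (θ : ℝ) :
    rot p q θ L5_e = Real.cos (q * θ) • L5_e + Real.sin (q * θ) • L5_f := by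
  ext i
  fin_cases i <;> simp [rot, L5_e, L5_f]

theorem L5_rot_f (p q : ℕ) (θ : ℝ) :
    rot p q θ L5_f = -Real.sin (q * θ) • L5_e + Real.cos (q * θ) • L5_f := by
  ext i
  fin_cases i <;> simp [rot, L5_e, L5_f]

theorem L5_lin {c s a b : ℝ} (hc : c ≠ 1) (h1 : a = c * a + s * b)
    (h2 : b = -s * a + c * b) (h3 : s ^ 2 + c ^ 2 = 1) : a = 0 ∧ b = 0 := by
  have k1 : (2 - 2 * c) * a = 0 := by
    linear_combination (1 - c) * h1 + s * h2 - a * h3
  have k2 : (2 - 2 * c) * b = 0 := by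
    linear_combination (1 - c) * h2 - s * h1 - b * h3
  have hc' : 2 - 2 * c ≠ 0 := fun h => hc (by linarith)
  exact ⟨(mul_eq_zero.mp k1).resolve_left hc', (mul_eq_zero.mp k2).resolve_left hc'⟩

theorem not_admits_of_two_le_left {p q : ℕ} (hc : Nat.Coprime p q) (hp : 2 ≤ p) :
    ¬ AdmitsPos p q := by
  rintro ⟨F, hF, hinv, hpos⟩
  have hp0 : (0 : ℝ) < p := by positivity
  have h0 : (p : ℝ) ^ 2 + (q : ℝ) ^ 2 ≠ 0 := by positivity
  have hn := nrm_pos h0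
  obtain ⟨R, hR, hflow⟩ := rot_flow h0 hinv
  -- (i)
  have orth : ∀ x ∈ L5_U, x ≠ 0 → ∀ u ∈ L5_U, fund F x u L5_e = 0 ∧ fund F x u L5_f = 0 := by
    intro x hx hx0 u hu
    have k1 := fund_equi hF (R (2 * Real.pi / p)) (hflow.inv _) hx0 u L5_e
    have k2 := fund_equi hF (R (2 * Real.pi / p)) (hflow.inv _) hx0 u L5_f
    rw [hR, hR, hR, L5_rot_U hp hx, L5_rot_U hp hu, L5_rot_e, map_add, map_smul, map_smul,
      smul_eq_mul, smul_eq_mul] at k1
    rw [hR, hR, hR, L5_rot_U hp hx, L5_rot_U hp hu, L5_rot_f, map_add, map_smul, map_smul,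
      smul_eq_mul, smul_eq_mul] at k2
    exact L5_lin (L5_cos_ne hc hp) k1.symm k2.symm (Real.sin_sq_add_cos_sq _)
  -- (ii)
  obtain ⟨x, hxU, hl, hcrit⟩ := exists_crit hF L5_U (EuclideanSpace.proj (1 : Fin 5))
    ⟨!₂[0, 1, 0, 0, 0], ⟨by simp, by simp⟩, by simp⟩
  have hx1 : x 1 = 1 := by simpa using hl
  have hx0 : x ≠ 0 := by
    rintro rfl
    simp at hx1
  have hc0 : 0 < F x ^ 2 := pow_pos (hF.pos x hx0) 2
  have hspan : ∀ v : V5, ∃ u ∈ L5_U, ∃ a b : ℝ, v = u + a • L5_e + b • L5_f := by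
    intro v
    refine ⟨!₂[v 0, v 1, v 2, 0, 0], ⟨by simp, by simp⟩, v 3, v 4, ?_⟩
    ext i
    fin_cases i <;> simp [L5_e, L5_f]
  have hD : ∀ v : V5, fderiv ℝ (fun z => F z ^ 2 / 2) x v = F x ^ 2 * v 1 := by
    intro v
    obtain ⟨u, hu, a, b, rfl⟩ := hspan v
    have h1 := hcrit u hu
    have h2 := (orth x hxU hx0 x hxU).1
    have h3 := (orth x hxU hx0 x hxU).2
    rw [fund_self hF hx0] at h2 h3
    rw [map_add, map_add, map_smul, map_smul, h1, h2, h3]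
    simp [L5_e, L5_f]
  obtain ⟨hx3, hx4⟩ := hxU
  -- (iii)
  have hB : 0 < (p : ℝ) / nrm p q := div_pos hp0 hn
  have hx2 : x 2 = 0 := by
    have h1 := energy_act hF hflow hx0
    rw [hD, su2_act] at h1
    have h2 := (mul_eq_zero.mp h1).resolve_left hc0.ne'
    simp at h2
    rcases h2 with (h | h) | h
    · exfalso; rw [h] at hp0; simp at hp0
    · exact absurd h hn.ne'
    · exact h
  -- (iv)
  set τ : ℝ := q * x 0 / p with hτ
  have hτB : τ * (p / nrm p q) = q / nrm p q * x 0 := by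
    rw [hτ]; field_simp
  have hs : spray (su2 p q) F x = τ • (su2 p q).act x := by
    apply fund_inj hF hx0
    intro v
    rw [spray_spec (su2 p q) hF hx0, fund_self hF hx0, hD, map_smul]
    rw [smul_apply, fund_act hF hflow hx0, hD, su2_mm, su2_act]
    simp [hx2]
    linear_combination (-(F x ^ 2 * v 2)) * hτB
  have hcore := core_nonpos hF hflow hx0 τ (-(p / nrm p q) * x 0 - τ * (q / nrm p q)) hs
    L5_e L5_f L5_U hspan (orth x ⟨hx3, hx4⟩ hx0) ?_ ?_ ?_ ?_ ?_ ?_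
  · obtain ⟨a, b, hne, hle⟩ := hcore
    have hli : LinearIndependent ℝ ![x, a • L5_e + b • L5_f] := by
      rw [LinearIndependent.pair_iff]
      intro s t hst
      have h1 := congrArg (fun z : V5 => z 1) hst
      simp [L5_e, L5_f, hx1] at h1
      rw [h1, zero_smul, zero_add] at hst
      exact ⟨h1, (smul_eq_zero.mp hst).resolve_right hne⟩
    have h2 := (flagK_pos_iff (su2 p q) hF hli).mp (hpos x _ hli)
    linarith
  · rintro u ⟨hu3, hu4⟩
    rw [su2_mm, su2_act]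
    exact ⟨by simp [hx3, hx4, hu3, hu4], by simp [hx3, hx4, hu3, hu4]⟩
  · rw [su2_mm, su2_act]
    ext i
    fin_cases i <;> simp [L5_e, L5_f, hx3, hx4]
  · rw [su2_mm, su2_act]
    ext i
    fin_cases i <;> simp [L5_e, L5_f, hx3, hx4]
    ring
  · intro v
    rw [fund_self hF hx0, fund_self hF hx0, hD, hD, su2_mm, su2_mm]
    constructor <;> simp [L5_e, L5_f]
  · rw [su2_mh, su2_mh]
    constructor <;> simp [L5_e, L5_f, hx3, hx4]
  · intro a b h
    have h1 := congrArg (fun z : V5 => z 3) h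
    have h2 := congrArg (fun z : V5 => z 4) h
    simp [L5_e, L5_f] at h1 h2
    exact ⟨h1, h2⟩

end HFin
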