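import Pool.Agent.HFin.L3
import Pool.Agent.HFin.L4

/-! MODULE L6 (diff 3): `q ≥ 2` is excluded (mirror image of L5).

`U = {x : x₁ = x₂ = 0}`, `e = e₁`, `e' = e₂`, `A = q/n`, `B = p/n`, `n = nrm p q`.
(i) `R = rot p q (2π/q)` fixes `U` pointwise and rotates the `(1,2)`-plane by `α = 2πp/q ∉ 2πℤ`; so
`g_x(u,w) = 0` for `x, u ∈ U`, `w` in the `(1,2)`-plane.
(ii) `exists_crit` with `U`, `l = (·)₃`: `x = (x₀,0,0,1,x₄)`, `D(F²/2)(x)v = c v₃` for all `v`.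
(iii) `energy_act`: `0 = c (act x)₃ = - c A x₄`, so `x₄ = 0`.
(iv) `spray x = τ act x`, `τ = - p x₀/q`: `g_x(spray x, v) = c ([v,x])₃ = - c B x₀ v₄` and
`g_x(act x, v) = - c (act v)₃ = c A v₄`; `- B x₀ = τ A`.
(v) `[x,e₁] - τ act e₁ = κ e₂`, `[x,e₂] - τ act e₂ = -κ e₁` with `κ = A x₀ - τ B`.
(vi) `XU ⊆ U`; `(mm v e₁)₃ = 0 = (mm v e₂)₃`; `mh x e₁ = mh x e₂ = 0`.  Conclude as in L5.
-/

namespace HFin

/-- The subspace `x₁ = x₂ = 0`. -/
noncomputable def L6_U : Submodule ℝ V5 where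
  carrier := {x | x 1 = 0 ∧ x 2 = 0}
  add_mem' := by
    rintro x y ⟨h1, h2⟩ ⟨h3, h4⟩
    exact ⟨by simp [h1, h3], by simp [h2, h4]⟩
  zero_mem' := ⟨by simp, by simp⟩
  smul_mem' := by
    rintro c x ⟨h1, h2⟩
    exact ⟨by simp [h1], by simp [h2]⟩

/-- The basis vector with index 1. -/
noncomputable def L6_e : V5 := !₂[0, 1, 0, 0, 0]

/-- The basis vector with index 2. -/
noncomputable def L6_f : V5 := !₂[0, 0, 1, 0, 0]

theorem L6_cos_ne {p q : ℕ} (hc : Nat.Coprime p q) (hq : 2 ≤ q) :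
    Real.cos ((p : ℝ) * (2 * Real.pi / q)) ≠ 1 := by
  intro h
  rw [Real.cos_eq_one_iff] at h
  obtain ⟨k, hk⟩ := h
  have hq0 : (q : ℝ) ≠ 0 := by positivity
  have h1 : (k : ℝ) * q = p := by
    have hpi := Real.pi_pos.ne'
    field_simp at hk
    exact hk
  have h2 : (k * (q : ℤ)) = (p : ℤ) := by exact_mod_cast h1
  have h3 : (q : ℤ) ∣ (p : ℤ) := ⟨k, by rw [← h2]; ring⟩
  have h4 : q ∣ p := by exact_mod_cast h3
  have h5 := Nat.dvd_gcd h4 (dvd_refl q)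
  rw [hc] at h5
  have := Nat.le_of_dvd one_pos h5
  omega

theorem L6_rot_U {p q : ℕ} (hq : 2 ≤ q) {x : V5} (hx : x ∈ L6_U) :
    rot p q (2 * Real.pi / q) x = x := by
  have hq0 : (q : ℝ) ≠ 0 := by positivity
  have e1 : (q : ℝ) * (2 * Real.pi / q) = 2 * Real.pi := by field_simp
  obtain ⟨h3, h4⟩ := hx
  ext i
  fin_cases i <;> simp [rot, e1, h3, h4]

theorem L6_rot_e (p q : ℕ) (θ : ℝ) :
    rot p q θ L6_e = Real.cos (p * θ) • L6_e + Real.sin (p * θ) • L6_f := by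
  ext i
  fin_cases i <;> simp [rot, L6_e, L6_f]

theorem L6_rot_f (p q : ℕ) (θ : ℝ) :
    rot p q θ L6_f = -Real.sin (p * θ) • L6_e + Real.cos (p * θ) • L6_f := by
  ext i
  fin_cases i <;> simp [rot, L6_e, L6_f]

theorem L6_lin {c s a b : ℝ} (hc : c ≠ 1) (h1 : a = c * a + s * b)
    (h2 : b = -s * a + c * b) (h3 : s ^ 2 + c ^ 2 = 1) : a = 0 ∧ b = 0 := by
  have k1 : (2 - 2 * c) * a = 0 := by
    linear_combination (1 - c) * h1 + s * h2 - a * h3
  have k2 : (2 - 2 * c) * b = 0 := by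
    linear_combination (1 - c) * h2 - s * h1 - b * h3
  have hc' : 2 - 2 * c ≠ 0 := fun h => hc (by linarith)
  exact ⟨(mul_eq_zero.mp k1).resolve_left hc', (mul_eq_zero.mp k2).resolve_left hc'⟩

theorem not_admits_of_two_le_right {p q : ℕ} (hc : Nat.Coprime p q) (hq : 2 ≤ q) :
    ¬ AdmitsPos p q := by
  rintro ⟨F, hF, hinv, hpos⟩
  have hq0 : (0 : ℝ) < q := by positivity
  have h0 : (p : ℝ) ^ 2 + (q : ℝ) ^ 2 ≠ 0 := by positivity
  have hn := nrm_pos h0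
  obtain ⟨R, hR, hflow⟩ := rot_flow h0 hinv
  -- (i)
  have orth : ∀ x ∈ L6_U, x ≠ 0 → ∀ u ∈ L6_U, fund F x u L6_e = 0 ∧ fund F x u L6_f = 0 := by
    intro x hx hx0 u hu
    have k1 := fund_equi hF (R (2 * Real.pi / q)) (hflow.inv _) hx0 u L6_e
    have k2 := fund_equi hF (R (2 * Real.pi / q)) (hflow.inv _) hx0 u L6_f
    rw [hR, hR, hR, L6_rot_U hq hx, L6_rot_U hq hu, L6_rot_e, map_add, map_smul, map_smul,
      smul_eq_mul, smul_eq_mul] at k1
    rw [hR, hR, hR, L6_rot_U hq hx, L6_rot_U hq hu, L6_rot_f, map_add, map_smul, map_smul,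
      smul_eq_mul, smul_eq_mul] at k2
    exact L6_lin (L6_cos_ne hc hq) k1.symm k2.symm (Real.sin_sq_add_cos_sq _)
  -- (ii)
  obtain ⟨x, hxU, hl, hcrit⟩ := exists_crit hF L6_U (EuclideanSpace.proj (3 : Fin 5))
    ⟨!₂[0, 0, 0, 1, 0], ⟨by simp, by simp⟩, by simp⟩
  have hx3 : x 3 = 1 := by simpa using hl
  have hx0 : x ≠ 0 := by
    rintro rfl
    simp at hx3
  have hc0 : 0 < F x ^ 2 := pow_pos (hF.pos x hx0) 2
  have hspan : ∀ v : V5, ∃ u ∈ L6_U, ∃ a b : ℝ, v = u + a • L6_e + b • L6_f := by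
    intro v
    refine ⟨!₂[v 0, 0, 0, v 3, v 4], ⟨by simp, by simp⟩, v 1, v 2, ?_⟩
    ext i
    fin_cases i <;> simp [L6_e, L6_f]
  have hD : ∀ v : V5, fderiv ℝ (fun z => F z ^ 2 / 2) x v = F x ^ 2 * v 3 := by
    intro v
    obtain ⟨u, hu, a, b, rfl⟩ := hspan v
    have h1 := hcrit u hu
    have h2 := (orth x hxU hx0 x hxU).1
    have h3 := (orth x hxU hx0 x hxU).2
    rw [fund_self hF hx0] at h2 h3
    rw [map_add, map_add, map_smul, map_smul, h1, h2, h3]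
    simp [L6_e, L6_f]
  obtain ⟨hx1, hx2⟩ := hxU
  -- (iii)
  have hA : 0 < (q : ℝ) / nrm p q := div_pos hq0 hn
  have hx4 : x 4 = 0 := by
    have h1 := energy_act hF hflow hx0
    rw [hD, su2_act] at h1
    have h2 := (mul_eq_zero.mp h1).resolve_left hc0.ne'
    simp at h2
    rcases h2 with (h | h) | h
    · exfalso; rw [h] at hq0; simp at hq0
    · exact absurd h hn.ne'
    · exact h
  -- (iv)
  set τ : ℝ := -(p * x 0 / q) with hτ
  have hτA : τ * (q / nrm p q) = -(p / nrm p q * x 0) := by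
    rw [hτ]; field_simp
  have hs : spray (su2 p q) F x = τ • (su2 p q).act x := by
    apply fund_inj hF hx0
    intro v
    rw [spray_spec (su2 p q) hF hx0, fund_self hF hx0, hD, map_smul]
    rw [smul_apply, fund_act hF hflow hx0, hD, su2_mm, su2_act]
    simp [hx4]
    linear_combination (-(F x ^ 2 * v 4)) * hτA
  have hcore := core_nonpos hF hflow hx0 τ (q / nrm p q * x 0 - τ * (p / nrm p q)) hs
    L6_e L6_f L6_U hspan (orth x ⟨hx1, hx2⟩ hx0) ?_ ?_ ?_ ?_ ?_ ?_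
  · obtain ⟨a, b, hne, hle⟩ := hcore
    have hli : LinearIndependent ℝ ![x, a • L6_e + b • L6_f] := by
      rw [LinearIndependent.pair_iff]
      intro s t hst
      have h1 := congrArg (fun z : V5 => z 3) hst
      simp [L6_e, L6_f, hx3] at h1
      rw [h1, zero_smul, zero_add] at hst
      exact ⟨h1, (smul_eq_zero.mp hst).resolve_right hne⟩
    have h2 := (flagK_pos_iff (su2 p q) hF hli).mp (hpos x _ hli)
    linarith
  · rintro u ⟨hu1, hu2⟩
    rw [su2_mm, su2_act]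
    exact ⟨by simp [hx1, hx2, hu1, hu2], by simp [hx1, hx2, hu1, hu2]⟩
  · rw [su2_mm, su2_act]
    ext i
    fin_cases i <;> simp [L6_e, L6_f, hx1, hx2]
  · rw [su2_mm, su2_act]
    ext i
    fin_cases i <;> simp [L6_e, L6_f, hx1, hx2]
    ring
  · intro v
    rw [fund_self hF hx0, fund_self hF hx0, hD, hD, su2_mm, su2_mm]
    constructor <;> simp [L6_e, L6_f]
  · rw [su2_mh, su2_mh]
    constructor <;> simp [L6_e, L6_f, hx1, hx2]
  · intro a b h
    have h1 := congrArg (fun z : V5 => z 1) h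
    have h2 := congrArg (fun z : V5 => z 2) h
    simp [L6_e, L6_f] at h1 h2
    exact ⟨h1, h2⟩

end HFin
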