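import Pool.Agent.HFin.L4
import Pool.Agent.HFin.C2

/-! MODULE M (diff 2-3): the circles in one factor are excluded.

Case `(0,1)` (`n = 1`, `A = 1`, `B = 0`): `U = {x₃ = x₄ = 0} = ℝ³` with `mm` = cross product on `U`,
`mm` vanishes when one argument is in the `(3,4)`-plane `W` (`B = 0`), `act` rotates `W`.
`exists_crit_sphere` for `U`: unit `x ∈ U`, `D(F²/2)(x)v = c⟪x,v⟫` for `v ∈ U`; for `w ∈ W` both sides
vanish: `rot 0 1 π` is `1` on `U`, `-1` on `W`, so `g_x(x,w) = g_x(x,-w) = 0`.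
`g_x(spray x,v) = g_x(x,[v,x]) = c⟪x,[v,x]⟫ = 0` (`skew`), so `spray x = 0`.  Let `w = e₃`:
`[x,w] = 0`, so `k(w,u) = g(w,[x,u])` and `[x,u] ∈ U`, `g_x(w,U) = 0` by the same symmetry: `k(w,u) = 0`
for all `u`; `2g(Nw,u) = g_x(x,[u,w]) - k(w,u) = 0` (`[u,w] = 0`): `Nw = 0`; `k°(w,w) = 0` (derivative in
the direction `spray x = 0` vanishes, `[x,w] = 0`, `kk1` of `0`); `mh x w = ⟪act x, w⟫ = 0`.
So `curvQ D F x w = 0`, contradiction with `flagK_pos_iff`.
Case `(1,0)`: the same with the `(1,2)`-plane as `W`, `U = {x₁ = x₂ = 0}` (`A = 0`, `B = 1`; `mm` on `U` is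
minus a cross product).
-/

namespace HFin

open scoped RealInnerProductSpace

theorem excl {V : Type*} [NormedAddCommGroup V] [InnerProductSpace ℝ V] [FiniteDimensional ℝ V]
    (D : RedData V) {F : V → ℝ} (hF : IsMinkowski F) (hpos : PosFlag D F)
    (U : Submodule ℝ V) (hU : U ≠ ⊥) (S : V ≃L[ℝ] V) (hS : ∀ x, F (S x) = F x)
    (hSU : ∀ x ∈ U, S x = x) (w : V) (hw : w ≠ 0) (hwS : S w = -w)
    (hmU : ∀ x y, D.mm x y ∈ U) (hmw : ∀ x, D.mm x w = 0)
    (hort : ∀ x ∈ U, ∀ v, ⟪x, D.mm v x⟫ = 0) (hmh : ∀ x ∈ U, D.mh x w = 0) : False := by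
  obtain ⟨x, hxU, hx1, hcrit⟩ := exists_crit_sphere hF U hU
  have hx : x ≠ 0 := by
    rintro rfl
    simp at hx1
  -- linear independence
  have hli : LinearIndependent ℝ ![x, w] := by
    rw [LinearIndependent.pair_iff]
    intro a b hab
    have hbU : b • w ∈ U := by
      have : b • w = -(a • x) := by
        rw [eq_neg_iff_add_eq_zero, add_comm]
        exact hab
      rw [this]
      exact U.neg_mem (U.smul_mem _ hxU)
    have h1 := hSU _ hbU
    rw [map_smul, hwS, smul_neg] at h1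
    have h2 : b • w = 0 := by
      have h3 : (2 : ℝ) • (b • w) = 0 := by
        rw [two_smul]
        nth_rewrite 1 [← h1]
        exact neg_add_cancel _
      rcases smul_eq_zero.1 h3 with h | h
      · norm_num at h
      · exact h
    have hb : b = 0 := by
      rcases smul_eq_zero.1 h2 with h | h
      · exact h
      · exact absurd h hw
    rw [hb, zero_smul, add_zero] at hab
    rcases smul_eq_zero.1 hab with h | h
    · exact ⟨h, hb⟩
    · exact absurd h hx
  -- orthogonality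
  have horth : ∀ u ∈ U, fund F x u w = 0 := by
    intro u hu
    have h1 := fund_equi hF S hS hx u w
    rw [hSU x hxU, hSU u hu, hwS, map_neg] at h1
    linarith
  -- the spray vanishes
  have hspray : spray D F x = 0 := by
    refine fund_inj hF hx (fun v => ?_)
    rw [spray_spec D hF hx v, fund_self hF hx, hcrit _ (hmU v x), hort x hxU v]
    simp
  have hk : ∀ u, kk1 D F x w u = 0 := by
    intro u
    unfold kk1
    rw [hspray, hmw, map_zero, map_zero, zero_apply,
      fund_symm hF hx, horth _ (hmU x u)]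
    ring
  have hconn : conn D F x w = 0 := by
    refine fund_inj hF hx (fun u => ?_)
    have h1 := conn_kk1 D hF hx w u
    rw [hk, hmw, map_zero] at h1
    simp only [map_zero, zero_apply]
    linarith
  have hk2 : kk2 D F x w w = 0 := by
    unfold kk2
    rw [hspray, map_zero, kk1_symm D hF hx (D.mm x w) w, hk]
    ring
  have hQ : curvQ D F x w = 0 := by
    unfold curvQ
    rw [hconn, hk2, hmh x hxU]
    simp
  have h1 := (flagK_pos_iff D hF hli).1 (hpos x w hli)
  rw [hQ] at h1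
  exact lt_irrefl _ h1

theorem nrm_zero_one : nrm 0 1 = 1 := by
  simp [nrm]

theorem nrm_one_zero : nrm 1 0 = 1 := by
  simp [nrm]

/-- The subspace `x₃ = x₄ = 0`. -/
noncomputable def U34 : Submodule ℝ V5 where
  carrier := {x | x 3 = 0 ∧ x 4 = 0}
  add_mem' := by
    rintro x y ⟨h1, h2⟩ ⟨h3, h4⟩
    simp [h1, h2, h3, h4]
  zero_mem' := by simp
  smul_mem' := by
    rintro c x ⟨h1, h2⟩
    simp [h1, h2]

/-- The subspace `x₁ = x₂ = 0`. -/
noncomputable def U12 : Submodule ℝ V5 where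
  carrier := {x | x 1 = 0 ∧ x 2 = 0}
  add_mem' := by
    rintro x y ⟨h1, h2⟩ ⟨h3, h4⟩
    simp [h1, h2, h3, h4]
  zero_mem' := by simp
  smul_mem' := by
    rintro c x ⟨h1, h2⟩
    simp [h1, h2]

theorem not_admits_zero_one : ¬ AdmitsPos 0 1 := by
  rintro ⟨F, hF, hinv, hpos⟩
  refine excl (su2 0 1) hF hpos U34 ?_ (rotE 0 1 Real.pi) (fun x => hinv _ x) ?_
    (EuclideanSpace.single (3 : Fin 5) (1 : ℝ)) ?_ ?_ ?_ ?_ ?_ ?_
  · rw [Submodule.ne_bot_iff]
    refine ⟨EuclideanSpace.single (0 : Fin 5) (1 : ℝ), ⟨by simp, by simp⟩, ?_⟩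
    intro h
    have := congrArg (fun z : V5 => z 0) h
    simp at this
  · rintro x ⟨h3, h4⟩
    rw [rotE_apply]
    ext i
    fin_cases i <;> simp [rot, h3, h4]
  · intro h
    have := congrArg (fun z : V5 => z 3) h
    simp at this
  · rw [rotE_apply]
    ext i
    fin_cases i <;> simp [rot]
  · intro x y
    rw [su2_mm]
    exact ⟨by simp, by simp⟩
  · intro x
    rw [su2_mm]
    ext i
    fin_cases i <;> simp
  · rintro x ⟨h3, h4⟩ v
    rw [su2_mm]
    simp [PiLp.inner_apply, Fin.sum_univ_five, nrm_zero_one, h3, h4]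
    ring
  · rintro x ⟨h3, h4⟩
    rw [su2_mh]
    simp [h3, h4]

theorem not_admits_one_zero : ¬ AdmitsPos 1 0 := by
  rintro ⟨F, hF, hinv, hpos⟩
  refine excl (su2 1 0) hF hpos U12 ?_ (rotE 1 0 Real.pi) (fun x => hinv _ x) ?_
    (EuclideanSpace.single (1 : Fin 5) (1 : ℝ)) ?_ ?_ ?_ ?_ ?_ ?_
  · rw [Submodule.ne_bot_iff]
    refine ⟨EuclideanSpace.single (0 : Fin 5) (1 : ℝ), ⟨by simp, by simp⟩, ?_⟩
    intro h
    have := congrArg (fun z : V5 => z 0) h
    simp at this
  · rintro x ⟨h3, h4⟩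
    rw [rotE_apply]
    ext i
    fin_cases i <;> simp [rot, h3, h4]
  · intro h
    have := congrArg (fun z : V5 => z 1) h
    simp at this
  · rw [rotE_apply]
    ext i
    fin_cases i <;> simp [rot]
  · intro x y
    rw [su2_mm]
    exact ⟨by simp, by simp⟩
  · intro x
    rw [su2_mm]
    ext i
    fin_cases i <;> simp
  · rintro x ⟨h3, h4⟩ v
    rw [su2_mm]
    simp [PiLp.inner_apply, Fin.sum_univ_five, nrm_one_zero, h3, h4]
    ring
  · rintro x ⟨h3, h4⟩
    rw [su2_mh]
    simp [h3, h4]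

end HFin
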