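import Pool.Agent.HFin.I
import Pool.Agent.HFin.K3
import Pool.Agent.HFin.L5
import Pool.Agent.HFin.L6
import Pool.Agent.HFin.M

namespace HFin

open scoped RealInnerProductSpace

theorem admits_one_one : AdmitsPos 1 1 := by
  obtain ⟨F, hF, hpos, hinv⟩ := exists_pos (su2_normal 1 1 (by norm_num)) pmod_pert
    (fun ξ σ h1 h2 h3 h4 h5 h6 => P3_pos ξ σ h1 h2 h3 h4 h5 h6)
  refine ⟨F, hF, ?_, hpos⟩
  intro θ x
  obtain ⟨R, hR⟩ := rot_iso 1 1 θ
  rw [← hR]
  exact hinv R (fun ξ => by rw [hR, hR, pmod_rot]) x

theorem main (p q : ℕ) (hc : Nat.Coprime p q) : AdmitsPos p q ↔ p = q := by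
  constructor
  · intro h
    by_contra hne
    rcases lt_or_ge p 2 with hp | hp
    · rcases lt_or_ge q 2 with hq | hq
      · interval_cases p <;> interval_cases q <;> simp_all [not_admits_zero_one, not_admits_one_zero]
      · exact not_admits_of_two_le_right hc hq h
    · exact not_admits_of_two_le_left hc hp h
  · rintro rfl
    have : p = 1 := by simpa using hc
    subst this
    exact admits_one_one

end HFin
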