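import Pool.Agent.HFin.Dual

/-! Definitions for the expansion (modules G1-G5). -/

namespace HFin

open scoped ContDiff RealInnerProductSpace

variable {V : Type*} [NormedAddCommGroup V] [InnerProductSpace ℝ V]

/-- `β̇ σ`: the derivative of `β = Dp` in the direction `η = [p ξ, ξ]_𝔪`, applied to `σ`. -/
noncomputable def bdot (D : RedData V) (p : V → V) (ξ σ : V) : V :=
  fderiv ℝ (fun y => fderiv ℝ p y σ) ξ (D.mm (p ξ) ξ)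

/-- `q₁ ξ σ = - [ξ, βσ]_𝔪 + β [ξ,σ]_𝔪`. -/
noncomputable def qq1 (D : RedData V) (p : V → V) (ξ σ : V) : V :=
  - D.mm ξ (fderiv ℝ p ξ σ) + fderiv ℝ p ξ (D.mm ξ σ)

/-- The polynomial part of `dualP D (Lt p t) ξ σ c`. -/
noncomputable def polyP (D : RedData V) (p : V → V) (t : ℝ) (ξ σ : V) : ℝ :=
  ⟪coqq D (Lt p t) ξ σ, σ⟫ / 2
    - 3 / 4 * (⟪coq D (Lt p t) ξ σ, coq D (Lt p t) ξ σ⟫
        - t * ⟪fderiv ℝ p ξ (coq D (Lt p t) ξ σ), coq D (Lt p t) ξ σ⟫)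
    + ⟪fderiv ℝ (Lt p t) ξ (D.mm ξ (fderiv ℝ (Lt p t) ξ σ)),
        D.mm ξ (fderiv ℝ (Lt p t) ξ σ)⟫ / 4
    - ⟪D.mm ξ (fderiv ℝ (Lt p t) ξ σ), coq D (Lt p t) ξ σ⟫ / 2
    + ⟪σ, D.act (Lt p t ξ)⟫ * ⟪fderiv ℝ (Lt p t) ξ σ, D.act (Lt p t ξ)⟫

end HFin
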