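import Pool.Agent.HFin.G5

/-! MODULE H (diff 2): compactness.

Let `S` = compact set of orthonormal pairs `z = (ξ,σ)`, `a = ‖[ξ,σ]‖`, `λ = ⟪σ,act ξ⟫`,
`ν = ⟪σ,act (p ξ)⟫`, `φ = a² + λ² + ν²` continuous on `S`, `P3` continuous (`P3_cont`), `P3 > 0` on
`{φ = 0}`.
(a) There are `δ, ρ > 0` with `P3 ≥ ρ` on `{z ∈ S : φ ≤ δ}`, and `|P3| ≤ C` on `S`
(`P3 + n φ`-argument, or: the set `{z ∈ S : P3 ≤ 0}` is compact and `φ > 0` on it, so `φ ≥ 2δ` there;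
then `{φ ≤ δ}` is compact with `P3 > 0`).
(b) `λ² + 3tλν + 3t²ν² ≥ (λ² + t²ν²)/10` (`nlinarith`: the form `x²+3xy+3y²` has least eigenvalue
`> 0.19`).  `K t² a ≤ a²/16 + 4K² t⁴`, `K t a² ≤ a²/16` for `t ≤ 1/(16K)`.  So by `expansion`
`dualP ≥ a²/8 + (λ² + t²ν²)/10 + t³ P3 - (K + 4K²) t⁴ ≥ t² φ/10 + t³P3 - K' t⁴` (`t ≤ 1`).
(c) If `φ ≤ δ`: `≥ t³ρ - K't⁴ > 0` for `t < ρ/K'`; if `φ > δ`: `≥ t²δ/10 - Ct³ - K't⁴ > 0` for small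
`t`.
-/

namespace HFin

open scoped ContDiff RealInnerProductSpace

variable {V : Type*} [NormedAddCommGroup V] [InnerProductSpace ℝ V] [FiniteDimensional ℝ V]

theorem H_lb {Z : Type*} [TopologicalSpace Z] {S : Set Z} (hS : IsCompact S) {f : Z → ℝ}
    (hf : ContinuousOn f S) (h : ∀ z ∈ S, 0 < f z) : ∃ m : ℝ, 0 < m ∧ ∀ z ∈ S, m ≤ f z := by
  rcases S.eq_empty_or_nonempty with rfl | hne
  · exact ⟨1, one_pos, fun z hz => absurd hz (Set.notMem_empty z)⟩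
  · obtain ⟨z0, hz0, hmin⟩ := hS.exists_isMinOn hne hf
    exact ⟨f z0, h z0 hz0, fun z hz => hmin hz⟩

theorem H_compact {Z : Type*} [TopologicalSpace Z] [T2Space Z] {S : Set Z} (hS : IsCompact S)
    {φ P : Z → ℝ} (hφ : ContinuousOn φ S) (hP : ContinuousOn P S) (h0 : ∀ z ∈ S, 0 ≤ φ z)
    (h1 : ∀ z ∈ S, φ z = 0 → 0 < P z) :
    ∃ ρ N : ℝ, 0 < ρ ∧ 0 < N ∧ ∀ z ∈ S, ρ ≤ P z + N * φ z := by
  have hT : IsCompact (S ∩ P ⁻¹' Set.Iic 0) :=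
    hS.of_isClosed_subset (hP.preimage_isClosed_of_isClosed hS.isClosed isClosed_Iic)
      Set.inter_subset_left
  obtain ⟨m, hm, hmT⟩ := H_lb hT (hφ.mono Set.inter_subset_left) (by
    rintro z ⟨hz, hz'⟩
    rcases (h0 z hz).lt_or_eq with h | h
    · exact h
    · exact absurd (h1 z hz h.symm) (not_lt.mpr hz'))
  have hT2 : IsCompact (S ∩ φ ⁻¹' Set.Iic (m / 2)) :=
    hS.of_isClosed_subset (hφ.preimage_isClosed_of_isClosed hS.isClosed isClosed_Iic)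
      Set.inter_subset_left
  obtain ⟨ρ, hρ, hρT⟩ := H_lb hT2 (hP.mono Set.inter_subset_left) (by
    rintro z ⟨hz, hz'⟩
    by_contra hc
    have h2 := hmT z ⟨hz, not_lt.mp hc⟩
    have h3 : φ z ≤ m / 2 := hz'
    linarith)
  obtain ⟨C, hC⟩ : ∃ C : ℝ, ∀ z ∈ S, ‖P z‖ ≤ C := hS.exists_bound_of_continuousOn hP
  have hN : 0 < 2 * (|C| + ρ) / m := by positivity
  refine ⟨ρ, 2 * (|C| + ρ) / m, hρ, hN, fun z hz => ?_⟩
  by_cases hz2 : φ z ≤ m / 2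
  · have h2 := hρT z ⟨hz, hz2⟩
    have h3 : 0 ≤ 2 * (|C| + ρ) / m * φ z := mul_nonneg hN.le (h0 z hz)
    linarith
  · have h2 : 2 * (|C| + ρ) / m * (m / 2) ≤ 2 * (|C| + ρ) / m * φ z :=
      mul_le_mul_of_nonneg_left (not_le.mp hz2).le hN.le
    have h3 : 2 * (|C| + ρ) / m * (m / 2) = |C| + ρ := by field_simp
    have h4 := hC z hz
    rw [Real.norm_eq_abs] at h4
    have h5 := neg_abs_le (P z)
    have h6 := le_abs_self C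
    linarith

theorem H_est {a lam nu t K ρ N P X : ℝ} (_hK : 0 < K) (_hN : 0 < N) (ht : 0 < t)
    (h1 : t < 1) (h2 : t * (16 * K) < 1) (h3 : t * (10 * N) < 1)
    (h4 : t * (K + 4 * K ^ 2) < ρ)
    (hP : ρ ≤ P + N * (a ^ 2 + lam ^ 2 + nu ^ 2))
    (hX : a ^ 2 / 4 + (lam ^ 2 + 3 * t * lam * nu + 3 * t ^ 2 * nu ^ 2) + t ^ 3 * P
      - K * (t * a ^ 2 + t ^ 2 * a + t ^ 4) ≤ X) : 0 < X := by
  have e1 : (lam ^ 2 + t ^ 2 * nu ^ 2) / 10 ≤ lam ^ 2 + 3 * t * lam * nu + 3 * t ^ 2 * nu ^ 2 := by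
    nlinarith [sq_nonneg (lam * 3 / 2 + 5 / 2 * (t * nu)), sq_nonneg (lam + 5 / 3 * (t * nu)),
      sq_nonneg (t * nu), sq_nonneg lam]
  have e2 : K * t * a ^ 2 ≤ a ^ 2 / 16 := by
    nlinarith [sq_nonneg a]
  have e3 : K * (t ^ 2 * a) ≤ a ^ 2 / 16 + 4 * K ^ 2 * t ^ 4 := by
    nlinarith [sq_nonneg (a / 4 - 2 * K * t ^ 2)]
  have ht2 : t ^ 2 < 1 := by nlinarith
  have e4 : t ^ 2 * a ^ 2 / 10 ≤ a ^ 2 / 8 := by
    nlinarith [sq_nonneg a]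
  have e5 : t ^ 2 * lam ^ 2 / 10 ≤ lam ^ 2 / 10 := by
    nlinarith [sq_nonneg lam]
  have e6 : t ^ 3 * ρ ≤ t ^ 3 * P + t ^ 3 * (N * (a ^ 2 + lam ^ 2 + nu ^ 2)) := by
    have := mul_le_mul_of_nonneg_left hP (pow_pos ht 3).le
    linarith
  have e7 : t ^ 3 * (N * (a ^ 2 + lam ^ 2 + nu ^ 2)) ≤
      t ^ 2 * (a ^ 2 + lam ^ 2 + nu ^ 2) / 10 := by
    have hs : 0 ≤ t ^ 2 * (a ^ 2 + lam ^ 2 + nu ^ 2) := by positivity
    nlinarith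
  have e8 : t ^ 3 * (t * (K + 4 * K ^ 2)) < t ^ 3 * ρ :=
    mul_lt_mul_of_pos_left h4 (pow_pos ht 3)
  nlinarith

theorem dualP_pos {D : RedData V} (hD : IsNormal D) {p : V → V} (hp : IsPert D p)
    (h3 : ∀ ξ σ : V, ‖ξ‖ = 1 → ‖σ‖ = 1 → ⟪ξ, σ⟫ = 0 → D.mm ξ σ = 0 → ⟪σ, D.act ξ⟫ = 0 →
      ⟪σ, D.act (p ξ)⟫ = 0 → 0 < P3 D p ξ σ) :
    ∃ t1 : ℝ, 0 < t1 ∧ ∀ t, 0 < t → t < t1 → ∀ ξ σ c : V, ‖ξ‖ = 1 → ‖σ‖ = 1 →
      ⟪ξ, σ⟫ = 0 → fderiv ℝ (Lt p t) ξ c = coq D (Lt p t) ξ σ →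
      0 < dualP D (Lt p t) ξ σ c := by
  obtain ⟨K, t0, hK, ht0, hexp⟩ := expansion hD hp
  set S : Set (V × V) := {z | ‖z.1‖ = 1 ∧ ‖z.2‖ = 1 ∧ ⟪z.1, z.2⟫ = 0} with hSdef
  have hS : IsCompact S := by
    have hcl : IsClosed S := by
      refine (isClosed_eq (by fun_prop) continuous_const).inter
        ((isClosed_eq (by fun_prop) continuous_const).inter
          (isClosed_eq (by fun_prop) continuous_const))
    have hsub : S ⊆ Metric.sphere (0 : V) 1 ×ˢ Metric.sphere (0 : V) 1 := by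
      rintro z ⟨h1, h2, -⟩
      exact ⟨by simpa using h1, by simpa using h2⟩
    exact ((isCompact_sphere (0 : V) 1).prod (isCompact_sphere (0 : V) 1)).of_isClosed_subset
      hcl hsub
  have hSne : ∀ z ∈ S, z.1 ≠ 0 := by
    rintro z ⟨h1, -, -⟩ h0
    rw [h0, norm_zero] at h1
    exact zero_ne_one h1
  have hpc : ContinuousOn (fun z : V × V => p z.1) S :=
    hp.smooth.continuousOn.comp continuous_fst.continuousOn (fun z hz => hSne z hz)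
  have hφ : ContinuousOn (fun z : V × V => ‖D.mm z.1 z.2‖ ^ 2 + ⟪z.2, D.act z.1⟫ ^ 2
      + ⟪z.2, D.act (p z.1)⟫ ^ 2) S := by
    have h1 : Continuous fun z : V × V => ‖D.mm z.1 z.2‖ ^ 2 + ⟪z.2, D.act z.1⟫ ^ 2 := by
      fun_prop
    have h2 : ContinuousOn (fun z : V × V => D.act (p z.1)) S :=
      D.act.continuous.comp_continuousOn hpc
    exact h1.continuousOn.add ((continuous_snd.continuousOn.inner h2).pow 2)
  have hP : ContinuousOn (fun z : V × V => P3 D p z.1 z.2) S :=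
    (P3_cont hp).mono hSne
  obtain ⟨ρ, N, hρ, hN, hρN⟩ := H_compact hS hφ hP
    (fun z _ => by positivity) (by
      rintro z ⟨hz1, hz2, hz3⟩ hz
      have q1 : 0 ≤ ‖D.mm z.1 z.2‖ ^ 2 := by positivity
      have q2 : 0 ≤ ⟪z.2, D.act z.1⟫ ^ 2 := by positivity
      have q3 : 0 ≤ ⟪z.2, D.act (p z.1)⟫ ^ 2 := by positivity
      refine h3 z.1 z.2 hz1 hz2 hz3 ?_ ?_ ?_
      · have : ‖D.mm z.1 z.2‖ ^ 2 = 0 := by linarith
        simpa using this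
      · have : ⟪z.2, D.act z.1⟫ ^ 2 = 0 := by linarith
        simpa using this
      · have : ⟪z.2, D.act (p z.1)⟫ ^ 2 = 0 := by linarith
        simpa using this)
  refine ⟨min (min t0 1) (min (1 / (16 * K)) (min (1 / (10 * N)) (ρ / (K + 4 * K ^ 2)))),
    by positivity, fun t ht htlt ξ σ c hξ hσ hξσ hc => ?_⟩
  simp only [lt_min_iff] at htlt
  obtain ⟨⟨ht1, ht2⟩, ht3, ht4, ht5⟩ := htlt
  have hz : ((ξ, σ) : V × V) ∈ S := ⟨hξ, hσ, hξσ⟩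
  exact H_est hK hN ht ht2 ((lt_div_iff₀ (by positivity)).mp ht3)
    ((lt_div_iff₀ (by positivity)).mp ht4) ((lt_div_iff₀ (by positivity)).mp ht5)
    (hρN (ξ, σ) hz) (hexp t ht ht1 ξ σ c hξ hσ hξσ hc)

end HFin
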