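import Pool.Agent.HFin.SU2
import Pool.Agent.HFin.Dual

/-! The perturbation used for `SU(2) × SU(2) / S¹_{(1,1)}`:
`h(x) = -m(x) + x₀ (r - 4 m(x) / r)`, `m(x) = x₁x₃ + x₂x₄`, `r = ‖x‖`. -/

namespace HFin

/-- The gradient of `m(x) = x₁ x₃ + x₂ x₄`. -/
noncomputable def sw (x : V5) : V5 := !₂[0, x 3, x 4, x 1, x 2]

/-- `m(x) = x₁ x₃ + x₂ x₄`. -/
noncomputable def mf (x : V5) : ℝ := x 1 * x 3 + x 2 * x 4

/-- `h(x) = -m(x) + x₀ (r - 4 m(x) / r)`. -/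
noncomputable def hmod (x : V5) : ℝ := - mf x + x 0 * (‖x‖ - 4 * mf x / ‖x‖)

/-- The gradient of `hmod`:
`-∇m + (r - 4m/r) e₀ + x₀ (x/r - 4 ∇m / r + 4 m x / r³)`. -/
noncomputable def pmod (x : V5) : V5 :=
  - sw x + (‖x‖ - 4 * mf x / ‖x‖) • (EuclideanSpace.single (0 : Fin 5) (1 : ℝ))
    + (x 0 / ‖x‖) • x - (4 * x 0 / ‖x‖) • sw x + (4 * x 0 * mf x / ‖x‖ ^ 3) • x

end HFin
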