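import Pool.Agent.HFin.J1
import Pool.Agent.HFin.ModelDefs

/-! MODULE J2 (diff 3): `pmod` is an admissible perturbation field.

* `hmod` is smooth off `0` and `D hmod(x) v = ⟪pmod x, v⟫` (`hmod_grad`): product rule with
  `D‖·‖(x) v = ⟪x,v⟫/‖x‖`, `D mf(x) v = ⟪sw x, v⟫`.
* `smooth`: norms are smooth off `0` (`contDiffAt_norm`/`ContDiffAt.norm`), `sw` is linear.
* `symm`: `⟪Dp(ξ) u, v⟫ = D²hmod(ξ)(u,v)`: second derivative symmetry
  (`second_derivative_symmetric_of_eventually`) using `hmod_grad` near `ξ`.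
* `inv`: `⟪pmod ξ, act ξ⟫ = 0`: explicit with `su2_act` (`p = q = 1`): `act ξ = k(0,-ξ₂,ξ₁,-ξ₄,ξ₃)`,
  `⟪ξ, act ξ⟫ = 0`, `⟪sw ξ, act ξ⟫ = 0`, `⟪e₀, act ξ⟫ = 0`.
* `equi`: `Dp(ξ)(act ξ) = act (p ξ)`: differentiate `pmod (rot 1 1 θ ξ) = rot 1 1 θ (pmod ξ)`
  (`pmod_rot`) at `θ = 0`, where `d/dθ rot 1 1 θ x = nrm 1 1 • act x`; or directly: with
  `f = ‖x‖ - 4 mf x/‖x‖` one has `Df(x)(act x) = 0`, `D‖·‖(x)(act x) = 0`, `sw (act x) = act (sw x)`,
  `act e₀ = 0`, `(act x) 0 = 0`, so the product rule gives the claim term by term.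
* `zero`, `smul` clear.
* `rot_iso`: `rot p q θ` is linear and preserves the norm.
-/

namespace HFin

open scoped ContDiff RealInnerProductSpace

/-- `sw` as a continuous linear map -/
noncomputable def J2_swL : V5 →L[ℝ] V5 := LinearMap.toContinuousLinearMap
  { toFun := sw
    map_add' := by
      intro x y
      ext i
      fin_cases i <;> simp [sw]
    map_smul' := by
      intro c x
      ext i
      fin_cases i <;> simp [sw] }

lemma J2_swL_apply (x : V5) : J2_swL x = sw x := rfl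

lemma J2_inner (x y : V5) :
    ⟪x, y⟫ = x 0 * y 0 + x 1 * y 1 + x 2 * y 2 + x 3 * y 3 + x 4 * y 4 := by
  simp [PiLp.inner_apply, Fin.sum_univ_five]
  ring

lemma J2_sw_inner (x v : V5) : ⟪sw x, v⟫ = x 3 * v 1 + x 4 * v 2 + x 1 * v 3 + x 2 * v 4 := by
  rw [J2_inner]
  simp [sw]

lemma J2_e0_inner (v : V5) : ⟪(EuclideanSpace.single (0 : Fin 5) (1 : ℝ) : V5), v⟫ = v 0 := by
  rw [J2_inner]
  simp

lemma J2_proj (i : Fin 5) (x : V5) :
    HasFDerivAt (fun y : V5 => y i) (EuclideanSpace.proj i : V5 →L[ℝ] ℝ) x :=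
  (EuclideanSpace.proj i : V5 →L[ℝ] ℝ).hasFDerivAt

lemma J2_mf (x : V5) : HasFDerivAt mf (innerSL ℝ (sw x)) x := by
  have h := ((J2_proj 1 x).mul (J2_proj 3 x)).add ((J2_proj 2 x).mul (J2_proj 4 x))
  refine (h.congr_fderiv ?_)
  ext v
  rw [innerSL_apply_apply, J2_sw_inner]
  simp
  ring

lemma J2_norm {x : V5} (hx : x ≠ 0) :
    HasFDerivAt (fun y : V5 => ‖y‖) ((1 / ‖x‖) • innerSL ℝ x) x := by
  have h1 : HasFDerivAt (fun y : V5 => ‖y‖ ^ 2) ((2 : ℝ) • innerSL ℝ x) x := by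
    have := (hasStrictFDerivAt_norm_sq (F := V5) x).hasFDerivAt
    refine this.congr_fderiv ?_
    ext v
    simp
  have hx0 : (0 : ℝ) < ‖x‖ := norm_pos_iff.mpr hx
  have h2 := h1.sqrt (by positivity)
  have h3 : (fun y : V5 => Real.sqrt (‖y‖ ^ 2)) = fun y => ‖y‖ := by
    funext y
    exact Real.sqrt_sq (norm_nonneg y)
  rw [h3] at h2
  refine h2.congr_fderiv ?_
  ext v
  simp [Real.sqrt_sq (norm_nonneg x)]
  field_simp

theorem hmod_hasFDerivAt {x : V5} (hx : x ≠ 0) : HasFDerivAt hmod (innerSL ℝ (pmod x)) x := by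
  have hx0 : (0 : ℝ) < ‖x‖ := norm_pos_iff.mpr hx
  have hn := J2_norm hx
  have hinv : HasFDerivAt (fun y : V5 => ‖y‖⁻¹) (-(‖x‖ ^ 2)⁻¹ • ((1 / ‖x‖) • innerSL ℝ x)) x :=
    (hasDerivAt_inv hx0.ne').comp_hasFDerivAt x hn
  have hm := J2_mf x
  have h := hm.neg.add ((J2_proj 0 x).mul (hn.sub ((hm.const_mul 4).mul hinv)))
  have e : hmod = fun y : V5 => - mf y + y 0 * (‖y‖ - 4 * mf y * ‖y‖⁻¹) := by
    funext y
    simp [hmod, div_eq_mul_inv]
  rw [e]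
  refine h.congr_fderiv ?_
  ext v
  simp only [innerSL_apply_apply, pmod, inner_add_left, inner_sub_left, inner_neg_left,
    inner_smul_left, J2_e0_inner]
  simp
  field_simp
  ring

theorem hmod_grad {x : V5} (hx : x ≠ 0) (v : V5) : fderiv ℝ hmod x v = ⟪pmod x, v⟫ := by
  rw [(hmod_hasFDerivAt hx).fderiv]
  simp

lemma J2_norm_smooth : ContDiffOn ℝ ∞ (fun x : V5 => ‖x‖) {x | x ≠ 0} := by
  intro x hx
  exact (contDiffAt_norm ℝ hx).contDiffWithinAt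

lemma J2_mf_smooth : ContDiff ℝ ∞ mf := by
  have h : ∀ i : Fin 5, ContDiff ℝ ∞ (fun y : V5 => y i) := fun i =>
    (EuclideanSpace.proj i : V5 →L[ℝ] ℝ).contDiff
  exact ((h 1).mul (h 3)).add ((h 2).mul (h 4))

theorem pmod_smooth : ContDiffOn ℝ ∞ pmod {x | x ≠ 0} := by
  have h0 : ContDiffOn ℝ ∞ (fun y : V5 => y 0) {x | x ≠ 0} :=
    (EuclideanSpace.proj (0 : Fin 5) : V5 →L[ℝ] ℝ).contDiff.contDiffOn
  have hm : ContDiffOn ℝ ∞ mf {x : V5 | x ≠ 0} := J2_mf_smooth.contDiffOn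
  have hs : ContDiffOn ℝ ∞ sw {x : V5 | x ≠ 0} := J2_swL.contDiff.contDiffOn
  have hn := J2_norm_smooth
  have hne : ∀ x ∈ {x : V5 | x ≠ 0}, ‖x‖ ≠ 0 := fun x hx => norm_ne_zero_iff.mpr hx
  have hne3 : ∀ x ∈ {x : V5 | x ≠ 0}, ‖x‖ ^ 3 ≠ 0 := fun x hx => pow_ne_zero _ (hne x hx)
  have hid : ContDiffOn ℝ ∞ (fun y : V5 => y) {x | x ≠ 0} := contDiffOn_id
  have h4 : ContDiffOn ℝ ∞ (fun _ : V5 => (4 : ℝ)) {x | x ≠ 0} := contDiffOn_const
  have he : ContDiffOn ℝ ∞ (fun _ : V5 => (EuclideanSpace.single (0 : Fin 5) (1 : ℝ) : V5))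
    {x | x ≠ 0} := contDiffOn_const
  exact ((((hs.neg).add ((hn.sub ((h4.mul hm).div hn hne)).smul he)).add
    ((h0.div hn hne).smul hid)).sub (((h4.mul h0).div hn hne).smul hs)).add
    ((((h4.mul h0).mul hm).div (hn.pow 3) hne3).smul hid)

/-- `rot` as a linear map -/
noncomputable def J2_rotL (p q : ℕ) (θ : ℝ) : V5 →ₗ[ℝ] V5 where
  toFun := rot p q θ
  map_add' := by
    intro x y
    ext i
    fin_cases i <;> simp [rot] <;> ring
  map_smul' := by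
    intro c x
    ext i
    fin_cases i <;> simp [rot] <;> ring

lemma J2_norm_sq (x : V5) : ‖x‖ ^ 2 = x 0 ^ 2 + x 1 ^ 2 + x 2 ^ 2 + x 3 ^ 2 + x 4 ^ 2 := by
  rw [← real_inner_self_eq_norm_sq, J2_inner]
  ring

lemma J2_norm_rot (p q : ℕ) (θ : ℝ) (x : V5) : ‖rot p q θ x‖ = ‖x‖ := by
  have h : ‖rot p q θ x‖ ^ 2 = ‖x‖ ^ 2 := by
    rw [J2_norm_sq, J2_norm_sq]
    have h1 := Real.sin_sq_add_cos_sq (p * θ)
    have h2 := Real.sin_sq_add_cos_sq (q * θ)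
    simp [rot]
    linear_combination (x 1 ^ 2 + x 2 ^ 2) * h1 + (x 3 ^ 2 + x 4 ^ 2) * h2
  exact (sq_eq_sq₀ (norm_nonneg _) (norm_nonneg _)).mp h

/-- the isotropy action is by linear isometries -/
theorem rot_iso (p q : ℕ) (θ : ℝ) : ∃ R : V5 ≃ₗᵢ[ℝ] V5, ∀ x, R x = rot p q θ x := by
  refine ⟨LinearIsometry.toLinearIsometryEquiv
    { J2_rotL p q θ with norm_map' := J2_norm_rot p q θ } rfl, ?_⟩
  intro x
  simp [J2_rotL]

lemma J2_mf_rot (θ : ℝ) (x : V5) : mf (rot 1 1 θ x) = mf x := by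
  have h1 := Real.sin_sq_add_cos_sq θ
  simp [rot, mf]
  linear_combination (x 1 * x 3 + x 2 * x 4) * h1

lemma J2_sw_rot (θ : ℝ) (x : V5) : sw (rot 1 1 θ x) = rot 1 1 θ (sw x) := by
  ext i
  fin_cases i <;> simp [rot, sw]

lemma J2_rot_add (p q : ℕ) (θ : ℝ) (x y : V5) :
    rot p q θ (x + y) = rot p q θ x + rot p q θ y := (J2_rotL p q θ).map_add x y

lemma J2_rot_sub (p q : ℕ) (θ : ℝ) (x y : V5) :
    rot p q θ (x - y) = rot p q θ x - rot p q θ y := (J2_rotL p q θ).map_sub x y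

lemma J2_rot_neg (p q : ℕ) (θ : ℝ) (x : V5) :
    rot p q θ (-x) = -rot p q θ x := (J2_rotL p q θ).map_neg x

lemma J2_rot_smul (p q : ℕ) (θ c : ℝ) (x : V5) :
    rot p q θ (c • x) = c • rot p q θ x := (J2_rotL p q θ).map_smul c x

lemma J2_rot_e0 (p q : ℕ) (θ : ℝ) : rot p q θ (EuclideanSpace.single (0 : Fin 5) (1 : ℝ)) =
    EuclideanSpace.single (0 : Fin 5) (1 : ℝ) := by
  ext i
  fin_cases i <;> simp [rot]

theorem pmod_rot (θ : ℝ) (x : V5) : pmod (rot 1 1 θ x) = rot 1 1 θ (pmod x) := by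
  have h0 : (rot 1 1 θ x) 0 = x 0 := by simp [rot]
  simp only [pmod, J2_norm_rot, J2_mf_rot, J2_sw_rot, J2_rot_add, J2_rot_sub, J2_rot_neg,
    J2_rot_smul, J2_rot_e0, h0]

lemma J2_nrm_ne : ((1 : ℕ) : ℝ) ^ 2 + ((1 : ℕ) : ℝ) ^ 2 ≠ 0 := by norm_num

/-- derivative of the rotation at angle `0` -/
lemma J2_rot_deriv (x : V5) :
    HasDerivAt (fun θ : ℝ => rot 1 1 θ x) (nrm 1 1 • (su2 1 1).act x) 0 := by
  have hn : nrm 1 1 ≠ 0 := (nrm_pos J2_nrm_ne).ne'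
  have hc : HasDerivAt (fun θ : ℝ => Real.cos θ) 0 0 := by
    simpa using Real.hasDerivAt_cos 0
  have hs : HasDerivAt (fun θ : ℝ => Real.sin θ) 1 0 := by
    simpa using Real.hasDerivAt_sin 0
  have key : (fun θ : ℝ => rot 1 1 θ x) = fun θ =>
      x 0 • (EuclideanSpace.single (0 : Fin 5) (1 : ℝ) : V5) +
      Real.cos θ • (!₂[0, x 1, x 2, x 3, x 4] : V5) +
      Real.sin θ • (!₂[0, - x 2, x 1, - x 4, x 3] : V5) := by
    funext θ
    ext i
    fin_cases i <;> simp [rot] <;> ring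
  rw [key]
  have h := ((hasDerivAt_const (0 : ℝ) (x 0 • (EuclideanSpace.single (0 : Fin 5) (1 : ℝ) : V5))).add
    (hc.smul_const (!₂[0, x 1, x 2, x 3, x 4] : V5))).add
    (hs.smul_const (!₂[0, - x 2, x 1, - x 4, x 3] : V5))
  refine h.congr_deriv ?_
  rw [su2_act]
  ext i
  fin_cases i <;> simp <;> field_simp

lemma J2_diff {x : V5} (hx : x ≠ 0) : DifferentiableAt ℝ pmod x := by
  have hopen : IsOpen {x : V5 | x ≠ 0} := isOpen_ne
  exact (pmod_smooth.contDiffAt (hopen.mem_nhds hx)).differentiableAt (by simp)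

theorem pmod_pert : IsPert (su2 1 1) pmod := by
  refine ⟨?_, ?_, pmod_smooth, ?_, ?_, ?_⟩
  · ext i
    fin_cases i <;> simp [pmod, sw]
  · intro c ξ hc
    have e1 : ‖c • ξ‖ = c * ‖ξ‖ := by rw [norm_smul, Real.norm_eq_abs, abs_of_pos hc]
    have e2 : mf (c • ξ) = c ^ 2 * mf ξ := by simp [mf]; ring
    have e3 : sw (c • ξ) = c • sw ξ := J2_swL.map_smul c ξ
    have e4 : (c • ξ) 0 = c * ξ 0 := by simp
    rcases eq_or_ne ξ 0 with h | h
    · subst h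
      ext i
      fin_cases i <;> simp [pmod, sw]
    · have hn : ‖ξ‖ ≠ 0 := norm_ne_zero_iff.mpr h
      simp only [pmod, e1, e2, e3, e4, smul_add, smul_sub, smul_smul, smul_neg]
      congr 1
      · congr 1
        · congr 1
          · congr 1
            congr 1
            field_simp
          · congr 1
            field_simp
        · congr 1
          field_simp
      · congr 1
        field_simp
  · intro ξ hξ u v
    have hopen : IsOpen {x : V5 | x ≠ 0} := isOpen_ne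
    have h1 : ∀ᶠ y in nhds ξ, HasFDerivAt hmod (innerSL ℝ (pmod y)) y := by
      filter_upwards [hopen.mem_nhds hξ] with y hy
      exact hmod_hasFDerivAt hy
    have h2 : HasFDerivAt (fun y => innerSL ℝ (pmod y)) ((innerSL ℝ).comp (fderiv ℝ pmod ξ)) ξ :=
      (innerSL ℝ : V5 →L[ℝ] V5 →L[ℝ] ℝ).hasFDerivAt.comp ξ (J2_diff hξ).hasFDerivAt
    have h3 := second_derivative_symmetric_of_eventually h1 h2 u v
    simp at h3
    rw [h3, real_inner_comm]
  · intro ξ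
    rw [J2_inner, su2_act]
    simp [pmod, sw]
    ring
  · intro ξ hξ
    have hn : nrm 1 1 ≠ 0 := (nrm_pos J2_nrm_ne).ne'
    have h0 : rot 1 1 0 ξ = ξ := by
      ext i
      fin_cases i <;> simp [rot]
    have h1 : HasDerivAt (fun θ : ℝ => pmod (rot 1 1 θ ξ))
        (fderiv ℝ pmod ξ (nrm 1 1 • (su2 1 1).act ξ)) 0 := by
      have h2 : HasFDerivAt pmod (fderiv ℝ pmod ξ) (rot 1 1 0 ξ) := by
        rw [h0]
        exact (J2_diff hξ).hasFDerivAt
      exact h2.comp_hasDerivAt 0 (J2_rot_deriv ξ)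
    have h3 : HasDerivAt (fun θ : ℝ => pmod (rot 1 1 θ ξ)) (nrm 1 1 • (su2 1 1).act (pmod ξ)) 0 := by
      have : (fun θ : ℝ => pmod (rot 1 1 θ ξ)) = fun θ => rot 1 1 θ (pmod ξ) := by
        funext θ
        exact pmod_rot θ ξ
      rw [this]
      exact J2_rot_deriv (pmod ξ)
    have h4 := h1.unique h3
    rw [map_smul] at h4
    exact smul_right_injective V5 hn h4

end HFin
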