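import Pool.Agent.HFin.J1
import Pool.Agent.HFin.ModelDefs

/-! MODULE K1 (diff 2): classification of the critical flats.
`k = 1/nrm 1 1 > 0`.  From `mm ξ σ = 0` and `⟪σ, act ξ⟫ = 0` (formulas of J1 with `p = q = 1`): the
two vectors `a₁ = (kξ₀,ξ₁,ξ₂)`, `b₁ = (kσ₀,σ₁,σ₂)` of `ℝ³` have cross product `0` and so have
`a₂ = (-kξ₀,ξ₃,ξ₄)`, `b₂ = (-kσ₀,σ₃,σ₄)` (the first components of the two cross products have
difference `0` by `mm` and sum `0` by `act`).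
Claim `ξ₀ = σ₀ = 0`: write `a₁ = αe, b₁ = βe, a₂ = α'e', b₂ = β'e'` (`e, e'` unit vectors); `|ξ| = |σ| = 1`,
`⟪ξ,σ⟫ = 0` say (note `2k² = 1`) that `(α,α'), (β,β')` are orthonormal; `kξ₀ = αe₀ = -α'e'₀`,
`kσ₀ = βe₀ = -β'e'₀`, so `(e₀,e'₀)` is orthogonal to both, hence `e₀ = e'₀ = 0`.
(An elementary alternative: polynomial manipulation.)
Now `ξ = (0; αe; α'e')`, `σ = (0; βe; β'e')` with unit `e, e' ∈ ℝ²`.
`pmod ξ = -sw ξ + f e₀` at `ξ₀ = 0`, so `⟪σ, act (pmod ξ)⟫ = -⟪σ, act (sw ξ)⟫ = -k(βα' - β'α)⟪e,Je'⟫`,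
and `βα' - β'α = ±1`; hence `⟪e,Je'⟫ = 0`, `e' = ±e`.
Conclusion with `e = (u,v)`, `α = c`, `α' = ε s`, `(β,β') = ±(-s, ε c)`.
-/

namespace HFin

open scoped RealInnerProductSpace

theorem K1_par_aux {a1 a2 b1 b2 : ℝ} (h : a1 * b2 = a2 * b1) (ha : a1 ^ 2 + a2 ^ 2 ≠ 0) :
    ∃ u v α β : ℝ, u ^ 2 + v ^ 2 = 1 ∧ a1 = α * u ∧ a2 = α * v ∧ b1 = β * u ∧ b2 = β * v := by
  have hpos : 0 < a1 ^ 2 + a2 ^ 2 := lt_of_le_of_ne (by positivity) (Ne.symm ha)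
  have hr : 0 < Real.sqrt (a1 ^ 2 + a2 ^ 2) := Real.sqrt_pos.2 hpos
  have hr2 : Real.sqrt (a1 ^ 2 + a2 ^ 2) ^ 2 = a1 ^ 2 + a2 ^ 2 := Real.sq_sqrt hpos.le
  set r := Real.sqrt (a1 ^ 2 + a2 ^ 2) with hrdef
  have hr0 : r ≠ 0 := hr.ne'
  refine ⟨a1 / r, a2 / r, r, (a1 * b1 + a2 * b2) / r, ?_, ?_, ?_, ?_, ?_⟩
  · rw [div_pow, div_pow, ← add_div, hr2, div_self ha]
  · field_simp
  · field_simp
  · rw [div_mul_div_comm, eq_div_iff (mul_ne_zero hr0 hr0), ← sq, hr2]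
    linear_combination (-a2) * h
  · rw [div_mul_div_comm, eq_div_iff (mul_ne_zero hr0 hr0), ← sq, hr2]
    linear_combination a1 * h

theorem K1_par {a1 a2 b1 b2 : ℝ} (h : a1 * b2 = a2 * b1) :
    ∃ u v α β : ℝ, u ^ 2 + v ^ 2 = 1 ∧ a1 = α * u ∧ a2 = α * v ∧ b1 = β * u ∧ b2 = β * v := by
  by_cases ha : a1 ^ 2 + a2 ^ 2 = 0
  · by_cases hb : b1 ^ 2 + b2 ^ 2 = 0
    · have h1 : a1 = 0 := by nlinarith [sq_nonneg a1, sq_nonneg a2]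
      have h2 : a2 = 0 := by nlinarith [sq_nonneg a1, sq_nonneg a2]
      have h3 : b1 = 0 := by nlinarith [sq_nonneg b1, sq_nonneg b2]
      have h4 : b2 = 0 := by nlinarith [sq_nonneg b1, sq_nonneg b2]
      exact ⟨1, 0, 0, 0, by norm_num, by rw [h1]; ring, by rw [h2]; ring, by rw [h3]; ring,
        by rw [h4]; ring⟩
    · obtain ⟨u, v, β, α, h0, h1, h2, h3, h4⟩ := K1_par_aux (a1 := b1) (a2 := b2) (b1 := a1)
        (b2 := a2) (by linarith) hb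
      exact ⟨u, v, α, β, h0, h3, h4, h1, h2⟩
  · exact K1_par_aux h ha

theorem K1_sign {d : ℝ} (h : d ^ 2 = 1) : d = 1 ∨ d = -1 := by
  have : (d - 1) * (d + 1) = 0 := by linear_combination h
  rcases mul_eq_zero.1 this with h1 | h1
  · left; linarith
  · right; linarith

theorem K1_unit {u v u' v' : ℝ} (h : u ^ 2 + v ^ 2 = 1) (h' : u' ^ 2 + v' ^ 2 = 1)
    (hd : u * v' = v * u') : ∃ ε : ℝ, (ε = 1 ∨ ε = -1) ∧ u' = ε * u ∧ v' = ε * v := by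
  refine ⟨u * u' + v * v', K1_sign ?_, ?_, ?_⟩
  · linear_combination (u' ^ 2 + v' ^ 2) * h + h' - (u * v' - v * u') * hd
  · linear_combination (-u') * h - v * hd
  · linear_combination (-v') * h + u * hd

theorem K1_orth {a a' b b' : ℝ} (h : a ^ 2 + a' ^ 2 = 1) (h' : b ^ 2 + b' ^ 2 = 1)
    (hd : a * b + a' * b' = 0) : ∃ δ : ℝ, (δ = 1 ∨ δ = -1) ∧ b = δ * (-a') ∧ b' = δ * a := by
  refine ⟨a * b' - a' * b, K1_sign ?_, ?_, ?_⟩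
  · linear_combination (b ^ 2 + b' ^ 2) * h + h' - (a * b + a' * b') * hd
  · linear_combination (-b) * h + a * hd
  · linear_combination (-b') * h + a' * hd

theorem K1_core {x1 x2 x3 x4 s1 s2 s3 s4 : ℝ}
    (hx : x1 ^ 2 + x2 ^ 2 + x3 ^ 2 + x4 ^ 2 = 1) (hs : s1 ^ 2 + s2 ^ 2 + s3 ^ 2 + s4 ^ 2 = 1)
    (hxs : x1 * s1 + x2 * s2 + x3 * s3 + x4 * s4 = 0)
    (hA : x1 * s2 = x2 * s1) (hB : x3 * s4 = x4 * s3)
    (hC : s1 * x4 - s2 * x3 + s3 * x2 - s4 * x1 = 0) :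
    ∃ c s u v ε δ : ℝ, c ^ 2 + s ^ 2 = 1 ∧ u ^ 2 + v ^ 2 = 1 ∧ (ε = 1 ∨ ε = -1) ∧
      (δ = 1 ∨ δ = -1) ∧ (x1 = c * u ∧ x2 = c * v ∧ x3 = ε * s * u ∧ x4 = ε * s * v) ∧
      (s1 = δ * (-s * u) ∧ s2 = δ * (-s * v) ∧ s3 = δ * (ε * c * u) ∧ s4 = δ * (ε * c * v)) := by
  obtain ⟨u, v, α, β, huv, h1, h2, h3, h4⟩ := K1_par hA
  obtain ⟨u', v', α', β', huv', h1', h2', h3', h4'⟩ := K1_par hB
  subst h1 h2 h3 h4 h1' h2' h3' h4'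
  have hα : α ^ 2 + α' ^ 2 = 1 := by
    linear_combination hx - α ^ 2 * huv - α' ^ 2 * huv'
  have hβ : β ^ 2 + β' ^ 2 = 1 := by
    linear_combination hs - β ^ 2 * huv - β' ^ 2 * huv'
  have hαβ : α * β + α' * β' = 0 := by
    linear_combination hxs - α * β * huv - α' * β' * huv'
  obtain ⟨δ, hδ, hb, hb'⟩ := K1_orth hα hβ hαβ
  have hδ2 : δ ^ 2 = 1 := by rcases hδ with h | h <;> rw [h] <;> norm_num
  have hdet : u * v' = v * u' := by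
    have h5 : (β * α' - α * β') * (u * v' - v * u') = 0 := by linear_combination hC
    have h6 : (β * α' - α * β') = -δ := by
      rw [hb, hb']
      linear_combination (-δ) * hα
    rw [h6] at h5
    have h7 : -δ ≠ 0 := by
      intro h0
      have : δ = 0 := by linarith
      rw [this] at hδ2
      norm_num at hδ2
    have h8 := (mul_eq_zero.1 h5).resolve_left h7
    linarith
  obtain ⟨ε, hε, hu', hv'⟩ := K1_unit huv huv' hdet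
  refine ⟨α, α', u, v, ε, δ, hα, huv, hε, hδ, ⟨rfl, rfl, ?_, ?_⟩, ?_, ?_, ?_, ?_⟩
  · rw [hu']; ring
  · rw [hv']; ring
  · rw [hb]; ring
  · rw [hb]; ring
  · rw [hb', hu']; ring
  · rw [hb', hv']; ring

theorem K1_zero {x0 x1 x2 x3 x4 s0 s1 s2 s3 s4 : ℝ}
    (n1 : x0 ^ 2 + x1 ^ 2 + x2 ^ 2 + x3 ^ 2 + x4 ^ 2 = 1)
    (n2 : s0 ^ 2 + s1 ^ 2 + s2 ^ 2 + s3 ^ 2 + s4 ^ 2 = 1)
    (h : x0 * s0 + x1 * s1 + x2 * s2 + x3 * s3 + x4 * s4 = 0)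
    (e1 : x2 * s0 - x0 * s2 = 0) (e2 : x0 * s1 - x1 * s0 = 0)
    (e3 : x4 * s0 - x0 * s4 = 0) (e4 : x0 * s3 - x3 * s0 = 0) : x0 = 0 ∧ s0 = 0 := by
  have f1 : (x0 * s1 - x1 * s0) ^ 2 + (x2 * s0 - x0 * s2) ^ 2
      + (x0 * s3 - x3 * s0) ^ 2 + (x4 * s0 - x0 * s4) ^ 2 = 0 := by
    rw [e1, e2, e3, e4]; norm_num
  have h0 : x0 ^ 2 + s0 ^ 2 = 0 := by
    linear_combination f1 - x0 ^ 2 * n2 - s0 ^ 2 * n1 + 2 * x0 * s0 * h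
  constructor
  · nlinarith [sq_nonneg x0, sq_nonneg s0]
  · nlinarith [sq_nonneg x0, sq_nonneg s0]

theorem K1_core2 {k x1 x2 x3 x4 s1 s2 s3 s4 : ℝ} (hk : 0 < k)
    (hx : 0 ^ 2 + x1 ^ 2 + x2 ^ 2 + x3 ^ 2 + x4 ^ 2 = 1)
    (hs : 0 ^ 2 + s1 ^ 2 + s2 ^ 2 + s3 ^ 2 + s4 ^ 2 = 1)
    (hxs : 0 * 0 + x1 * s1 + x2 * s2 + x3 * s3 + x4 * s4 = 0)
    (e0 : k * (x1 * s2 - x2 * s1) - k * (x3 * s4 - x4 * s3) = 0)
    (h2 : -(s1 * (k * x2)) + s2 * (k * x1) + -(s3 * (k * x4)) + s4 * (k * x3) = 0)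
    (h3 : -(s1 * (k * (-x4))) + s2 * (k * (-x3)) + -(s3 * (k * (-x2))) + s4 * (k * (-x1)) = 0) :
    ∃ c s u v ε δ : ℝ, c ^ 2 + s ^ 2 = 1 ∧ u ^ 2 + v ^ 2 = 1 ∧ (ε = 1 ∨ ε = -1) ∧
      (δ = 1 ∨ δ = -1) ∧ (x1 = c * u ∧ x2 = c * v ∧ x3 = ε * s * u ∧ x4 = ε * s * v) ∧
      (s1 = δ * (-s * u) ∧ s2 = δ * (-s * v) ∧ s3 = δ * (ε * c * u) ∧ s4 = δ * (ε * c * v)) := by
  have g0 : (x1 * s2 - x2 * s1) - (x3 * s4 - x4 * s3) = 0 := by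
    have h9 : k * ((x1 * s2 - x2 * s1) - (x3 * s4 - x4 * s3)) = 0 := by linear_combination e0
    exact (mul_eq_zero.1 h9).resolve_left hk.ne'
  have g1 : (x1 * s2 - x2 * s1) + (x3 * s4 - x4 * s3) = 0 := by
    have h9 : k * ((x1 * s2 - x2 * s1) + (x3 * s4 - x4 * s3)) = 0 := by linear_combination h2
    exact (mul_eq_zero.1 h9).resolve_left hk.ne'
  have g2 : s1 * x4 - s2 * x3 + s3 * x2 - s4 * x1 = 0 := by
    have h9 : k * (s1 * x4 - s2 * x3 + s3 * x2 - s4 * x1) = 0 := by linear_combination h3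
    exact (mul_eq_zero.1 h9).resolve_left hk.ne'
  exact K1_core (by linear_combination hx) (by linear_combination hs) (by linear_combination hxs)
    (by linear_combination (g0 + g1) / 2) (by linear_combination (g1 - g0) / 2) g2

theorem K1_pmod (ξ : V5) (h : ξ 0 = 0) : (pmod ξ) 1 = - ξ 3 ∧ (pmod ξ) 2 = - ξ 4 ∧
    (pmod ξ) 3 = - ξ 1 ∧ (pmod ξ) 4 = - ξ 2 := by
  unfold pmod sw
  simp [h]

theorem K1_norm (x : V5) (hx : ‖x‖ = 1) :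
    x 0 ^ 2 + x 1 ^ 2 + x 2 ^ 2 + x 3 ^ 2 + x 4 ^ 2 = 1 := by
  have h : ‖x‖ ^ 2 = 1 := by rw [hx]; norm_num
  rw [EuclideanSpace.norm_sq_eq, Fin.sum_univ_five] at h
  simp only [Real.norm_eq_abs, sq_abs] at h
  exact h

theorem K1_inner (x y : V5) :
    ⟪x, y⟫ = x 0 * y 0 + x 1 * y 1 + x 2 * y 2 + x 3 * y 3 + x 4 * y 4 := by
  rw [PiLp.inner_apply, Fin.sum_univ_five]
  simp only [RCLike.inner_apply, conj_trivial]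
  ring

theorem flats (ξ σ : V5) (hξ : ‖ξ‖ = 1) (hσ : ‖σ‖ = 1) (hξσ : ⟪ξ, σ⟫ = 0)
    (h1 : (su2 1 1).mm ξ σ = 0) (h2 : ⟪σ, (su2 1 1).act ξ⟫ = 0)
    (h3 : ⟪σ, (su2 1 1).act (pmod ξ)⟫ = 0) :
    ∃ c s u v ε δ : ℝ, c ^ 2 + s ^ 2 = 1 ∧ u ^ 2 + v ^ 2 = 1 ∧ (ε = 1 ∨ ε = -1) ∧
      (δ = 1 ∨ δ = -1) ∧ ξ = !₂[0, c * u, c * v, ε * s * u, ε * s * v] ∧
      σ = δ • !₂[0, -s * u, -s * v, ε * c * u, ε * c * v] := by
  have hnrm : 0 < nrm 1 1 := nrm_pos (by norm_num)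
  have hk : 0 < ((1 : ℕ) : ℝ) / nrm 1 1 := div_pos (by norm_num) hnrm
  set k : ℝ := ((1 : ℕ) : ℝ) / nrm 1 1 with hkdef
  rw [su2_mm] at h1
  rw [K1_inner, su2_act] at h2 h3
  have e0 := congrArg (fun z : V5 => z 0) h1
  have e1 := congrArg (fun z : V5 => z 1) h1
  have e2 := congrArg (fun z : V5 => z 2) h1
  have e3 := congrArg (fun z : V5 => z 3) h1
  have e4 := congrArg (fun z : V5 => z 4) h1
  simp only [← hkdef] at e0 e1 e2 e3 e4 h2 h3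
  simp at e0 e1 e2 e3 e4 h2 h3
  replace e1 := e1.resolve_left hk.ne'
  replace e2 := e2.resolve_left hk.ne'
  replace e3 := e3.resolve_left hk.ne'
  replace e4 := e4.resolve_left hk.ne'
  have n1 := K1_norm ξ hξ
  have n2 := K1_norm σ hσ
  rw [K1_inner] at hξσ
  obtain ⟨hξ0, hσ0⟩ := K1_zero n1 n2 hξσ e1 e2 e3 e4
  rw [hξ0] at n1 hξσ
  rw [hσ0] at n2 hξσ
  obtain ⟨p1, p2, p3, p4⟩ := K1_pmod ξ hξ0
  rw [p1, p2, p3, p4] at h3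
  obtain ⟨c, s, u, v, ε, δ, hcs, huv, hε, hδ, ⟨a1, a2, a3, a4⟩, ⟨b1, b2, b3, b4⟩⟩ :=
    K1_core2 hk n1 n2 hξσ e0 h2 h3
  refine ⟨c, s, u, v, ε, δ, hcs, huv, hε, hδ, ?_, ?_⟩
  · ext i
    fin_cases i
    · simpa using hξ0
    · simpa using a1
    · simpa using a2
    · simpa using a3
    · simpa using a4
  · ext i
    fin_cases i
    · simpa using hσ0
    · simpa using b1
    · simpa using b2
    · simpa using b3
    · simpa using b4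

end HFin
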