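import Pool.Agent.HFin.Defs

/-! Auxiliary forms `k = g°` and `k° = g°°` (derivatives of `g` along the spray flow). -/

namespace HFin

variable {V : Type*} [NormedAddCommGroup V] [NormedSpace ℝ V]

/-- `k(u,v) = D_η g(u,v) + g([x,u]_𝔪,v) + g(u,[x,v]_𝔪)`. -/
noncomputable def kk1 (D : RedData V) (F : V → ℝ) (x u v : V) : ℝ :=
  fderiv ℝ (fun y => fund F y u v) x (spray D F x) + fund F x (D.mm x u) v
    + fund F x u (D.mm x v)

/-- `k°(u,v) = D_η k(u,v) + k([x,u]_𝔪,v) + k(u,[x,v]_𝔪)`. -/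
noncomputable def kk2 (D : RedData V) (F : V → ℝ) (x u v : V) : ℝ :=
  fderiv ℝ (fun y => kk1 D F y u v) x (spray D F x) + kk1 D F x (D.mm x u) v
    + kk1 D F x u (D.mm x v)

/-- The value of the curvature form found in module B. -/
noncomputable def curvQ (D : RedData V) (F : V → ℝ) (x w : V) : ℝ :=
  fund F x (conn D F x w) (conn D F x w) - kk2 D F x w w / 2
    + D.mh x w * fund F x (D.act x) w

end HFin
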