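import Pool.Agent.HFin.B1

namespace HFin

variable {V : Type*} [NormedAddCommGroup V] [NormedSpace ℝ V] [FiniteDimensional ℝ V]

omit [FiniteDimensional ℝ V] in
lemma L1_ne (R : V ≃L[ℝ] V) {x : V} (hx : x ≠ 0) : R x ≠ 0 := by
  intro h
  exact hx (by simpa using h)

omit [FiniteDimensional ℝ V] in
/-- `DE(Ry)(Rv) = DE(y) v` -/
lemma L1_denergy {F : V → ℝ} (hF : IsMinkowski F) (R : V ≃L[ℝ] V) (hR : ∀ x, F (R x) = F x)
    {x : V} (hx : x ≠ 0) (v : V) :
    fderiv ℝ (fun z => F z ^ 2 / 2) (R x) (R v) = fderiv ℝ (fun z => F z ^ 2 / 2) x v := by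
  have h1 : HasFDerivAt (fun z => F (R z) ^ 2 / 2)
      ((fderiv ℝ (fun z => F z ^ 2 / 2) (R x)).comp (R : V →L[ℝ] V)) x :=
    (A1_energy_diff hF (L1_ne R hx)).hasFDerivAt.comp x (R : V →L[ℝ] V).hasFDerivAt
  have e : (fun z => F (R z) ^ 2 / 2) = fun z => F z ^ 2 / 2 := by
    funext z
    rw [hR]
  rw [e] at h1
  have h2 := h1.unique (A1_energy_diff hF hx).hasFDerivAt
  rw [← h2]
  rfl

omit [FiniteDimensional ℝ V] in
theorem fund_equi {F : V → ℝ} (hF : IsMinkowski F) (R : V ≃L[ℝ] V) (hR : ∀ x, F (R x) = F x)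
    {x : V} (hx : x ≠ 0) (u v : V) : fund F (R x) (R u) (R v) = fund F x u v := by
  have h1 : HasFDerivAt (fun y => fderiv ℝ (fun z => F z ^ 2 / 2) (R y) (R v))
      (((ContinuousLinearMap.apply ℝ ℝ (R v)).comp (fund F (R x))).comp (R : V →L[ℝ] V)) x :=
    (A1_fund_eq hF (L1_ne R hx) (R v)).comp x (R : V →L[ℝ] V).hasFDerivAt
  have h2 : HasFDerivAt (fun y => fderiv ℝ (fun z => F z ^ 2 / 2) (R y) (R v))
      ((ContinuousLinearMap.apply ℝ ℝ v).comp (fund F x)) x := by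
    refine (A1_fund_eq hF hx v).congr_of_eventuallyEq ?_
    filter_upwards [A1_open.mem_nhds hx] with y hy
    exact L1_denergy hF R hR hy v
  have h3 := congrArg (fun f : V →L[ℝ] ℝ => f u) (h1.unique h2)
  simpa using h3

theorem spray_equi (D : RedData V) {F : V → ℝ} (hF : IsMinkowski F) (R : V ≃L[ℝ] V)
    (hR : ∀ x, F (R x) = F x) (hm : ∀ u v, D.mm (R u) (R v) = R (D.mm u v))
    {x : V} (hx : x ≠ 0) : spray D F (R x) = R (spray D F x) := by
  refine fund_inj hF (L1_ne R hx) ?_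
  intro v
  obtain ⟨v, rfl⟩ := R.surjective v
  rw [spray_spec D hF (L1_ne R hx), hm, fund_equi hF R hR hx, fund_equi hF R hR hx,
    spray_spec D hF hx]

theorem kk1_equi (D : RedData V) {F : V → ℝ} (hF : IsMinkowski F) (R : V ≃L[ℝ] V)
    (hR : ∀ x, F (R x) = F x) (hm : ∀ u v, D.mm (R u) (R v) = R (D.mm u v))
    {x : V} (hx : x ≠ 0) (u v : V) : kk1 D F (R x) (R u) (R v) = kk1 D F x u v := by
  have hd : fderiv ℝ (fun y => fund F y (R u) (R v)) (R x) (R (spray D F x)) =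
      fderiv ℝ (fun y => fund F y u v) x (spray D F x) := by
    have h1 : HasFDerivAt (fun y => fund F (R y) (R u) (R v))
        ((fderiv ℝ (fun y => fund F y (R u) (R v)) (R x)).comp (R : V →L[ℝ] V)) x :=
      (A1_fund_eval hF (L1_ne R hx) (R u) (R v)).differentiableAt.hasFDerivAt.comp x
        (R : V →L[ℝ] V).hasFDerivAt
    have h2 : HasFDerivAt (fun y => fund F (R y) (R u) (R v))
        (fderiv ℝ (fun y => fund F y u v) x) x := by
      refine (A1_fund_eval hF hx u v).differentiableAt.hasFDerivAt.congr_of_eventuallyEq ?_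
      filter_upwards [A1_open.mem_nhds hx] with y hy
      exact fund_equi hF R hR hy u v
    rw [← h1.unique h2]
    rfl
  rw [kk1, kk1, spray_equi D hF R hR hm hx, hd, hm, hm, fund_equi hF R hR hx,
    fund_equi hF R hR hx]

end HFin
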