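import Pool.Agent.HFin.L1

set_option maxSynthPendingDepth 3

namespace HFin

variable {V : Type*} [NormedAddCommGroup V] [NormedSpace ℝ V] [FiniteDimensional ℝ V]

/-- One-parameter group of automorphisms preserving `F`, with generator `n • act`. -/
structure IsFlow (D : RedData V) (F : V → ℝ) (R : ℝ → V ≃L[ℝ] V) (n : ℝ) : Prop where
  ne : n ≠ 0
  zero : ∀ x, R 0 x = x
  deriv : ∀ x, HasDerivAt (fun θ => R θ x) (n • D.act x) 0
  inv : ∀ θ x, F (R θ x) = F x
  mm : ∀ θ u v, D.mm (R θ u) (R θ v) = R θ (D.mm u v)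

omit [FiniteDimensional ℝ V] in
theorem energy_act {D : RedData V} {F : V → ℝ} (hF : IsMinkowski F) {R : ℝ → V ≃L[ℝ] V} {n : ℝ}
    (hR : IsFlow D F R n) {x : V} (hx : x ≠ 0) :
    fderiv ℝ (fun z => F z ^ 2 / 2) x (D.act x) = 0 := by
  have h0 : HasFDerivAt (fun z => F z ^ 2 / 2) (fderiv ℝ (fun z => F z ^ 2 / 2) x) (R 0 x) := by
    rw [hR.zero]
    exact (A1_energy_diff hF hx).hasFDerivAt
  have h1 : HasDerivAt (fun θ : ℝ => F (R θ x) ^ 2 / 2)
      (fderiv ℝ (fun z => F z ^ 2 / 2) x (n • D.act x)) 0 := by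
    have h := h0.comp_hasDerivAt 0 (hR.deriv x)
    exact h
  have h2 : HasDerivAt (fun θ : ℝ => F (R θ x) ^ 2 / 2) 0 0 := by
    have e : (fun θ : ℝ => F (R θ x) ^ 2 / 2) = fun _ => F x ^ 2 / 2 := by
      funext θ
      rw [hR.inv]
    rw [e]
    exact hasDerivAt_const _ _
  have h3 := h1.unique h2
  rw [map_smul, smul_eq_mul] at h3
  exact (mul_eq_zero.mp h3).resolve_left hR.ne

omit [FiniteDimensional ℝ V] in
theorem fund_act {D : RedData V} {F : V → ℝ} (hF : IsMinkowski F) {R : ℝ → V ≃L[ℝ] V} {n : ℝ}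
    (hR : IsFlow D F R n) {x : V} (hx : x ≠ 0) (v : V) :
    fund F x (D.act x) v = - fderiv ℝ (fun z => F z ^ 2 / 2) x (D.act v) := by
  have h0 : HasFDerivAt (fun y => fderiv ℝ (fun z => F z ^ 2 / 2) y) (fund F x) (R 0 x) := by
    rw [hR.zero]
    exact (A1_denergy_diff hF hx).hasFDerivAt
  have h1 : HasDerivAt (fun θ : ℝ => fderiv ℝ (fun z => F z ^ 2 / 2) (R θ x))
      (fund F x (n • D.act x)) 0 :=
    h0.comp_hasDerivAt 0 (hR.deriv x)
  have h2 := h1.clm_apply (hR.deriv v)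
  have h3 : HasDerivAt (fun θ : ℝ => fderiv ℝ (fun z => F z ^ 2 / 2) (R θ x) (R θ v)) 0 0 := by
    have e : (fun θ : ℝ => fderiv ℝ (fun z => F z ^ 2 / 2) (R θ x) (R θ v)) =
        fun _ => fderiv ℝ (fun z => F z ^ 2 / 2) x v := by
      funext θ
      exact L1_denergy hF (R θ) (hR.inv θ) hx v
    rw [e]
    exact hasDerivAt_const _ _
  have h4 := h2.unique h3
  simp only [hR.zero, map_smul, smul_apply, smul_eq_mul] at h4
  have h5 : n * (fund F x (D.act x) v + fderiv ℝ (fun z => F z ^ 2 / 2) x (D.act v)) = 0 := by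
    linear_combination h4
  have h6 := (mul_eq_zero.mp h5).resolve_left hR.ne
  linarith

omit [FiniteDimensional ℝ V] in
/-- the derivative of a bilinear expression along the flow -/
lemma L2_bil {B : V → V →L[ℝ] V →L[ℝ] ℝ} {x : V} (hB : DifferentiableAt ℝ B x)
    {D : RedData V} {F : V → ℝ} {R : ℝ → V ≃L[ℝ] V} {n : ℝ} (hR : IsFlow D F R n) (u v : V)
    (hinv : ∀ θ, B (R θ x) (R θ u) (R θ v) = B x u v) :
    fderiv ℝ (fun y => B y u v) x (D.act x) = - B x (D.act u) v - B x u (D.act v) := by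
  have h0 : HasFDerivAt B (fderiv ℝ B x) (R 0 x) := by
    rw [hR.zero]
    exact hB.hasFDerivAt
  have h1 : HasDerivAt (fun θ : ℝ => B (R θ x)) (fderiv ℝ B x (n • D.act x)) 0 := by
    have h := h0.comp_hasDerivAt 0 (hR.deriv x)
    exact h
  have h2 := (h1.clm_apply (hR.deriv u)).clm_apply (hR.deriv v)
  have h3 : HasDerivAt (fun θ : ℝ => B (R θ x) (R θ u) (R θ v)) 0 0 := by
    have e : (fun θ : ℝ => B (R θ x) (R θ u) (R θ v)) = fun _ => B x u v := by
      funext θ
      exact hinv θ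
    rw [e]
    exact hasDerivAt_const _ _
  have h4 := h2.unique h3
  have h5 := (hB.hasFDerivAt.clm_apply (hasFDerivAt_const u x)).clm_apply
    (hasFDerivAt_const v x)
  rw [h5.fderiv]
  simp only [hR.zero, map_smul, smul_apply, smul_eq_mul, add_apply] at h4
  simp
  have h6 : n * (fderiv ℝ B x (D.act x) u v + B x (D.act u) v + B x u (D.act v)) = 0 := by
    linear_combination h4
  have h7 := (mul_eq_zero.mp h6).resolve_left hR.ne
  linarith

omit [FiniteDimensional ℝ V] in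
theorem dfund_act {D : RedData V} {F : V → ℝ} (hF : IsMinkowski F) {R : ℝ → V ≃L[ℝ] V} {n : ℝ}
    (hR : IsFlow D F R n) {x : V} (hx : x ≠ 0) (u v : V) :
    fderiv ℝ (fun y => fund F y u v) x (D.act x)
      = - fund F x (D.act u) v - fund F x u (D.act v) :=
  L2_bil (A1_fund_diff hF hx) hR u v (fun θ => fund_equi hF (R θ) (hR.inv θ) hx u v)

/-- `kk1` as a family of continuous bilinear forms -/
noncomputable def L2_KK (D : RedData V) (F : V → ℝ) (y : V) : V →L[ℝ] V →L[ℝ] ℝ :=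
  fderiv ℝ (fund F) y (spray D F y) + (fund F y).comp (D.mm y)
    + ((fund F y).flip.comp (D.mm y)).flip

omit [FiniteDimensional ℝ V] in
lemma L2_KK_apply (D : RedData V) {F : V → ℝ} (hF : IsMinkowski F) {y : V} (hy : y ≠ 0) (u v : V) :
    L2_KK D F y u v = kk1 D F y u v := by
  rw [kk1, (A1_fund_eval hF hy u v).fderiv]
  simp [L2_KK]

lemma L2_KK_diff (D : RedData V) {F : V → ℝ} (hF : IsMinkowski F) {x : V} (hx : x ≠ 0) :
    DifferentiableAt ℝ (L2_KK D F) x := by
  have h0 : ContDiffOn ℝ 1 (fderiv ℝ (fund F)) {x | x ≠ 0} :=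
    (fund_smooth hF).fderiv_of_isOpen A1_open (by norm_cast)
  have h1 : DifferentiableAt ℝ (fderiv ℝ (fund F)) x :=
    (h0.contDiffAt (A1_open.mem_nhds hx)).differentiableAt (by simp)
  have h2 : DifferentiableAt ℝ (spray D F) x :=
    ((spray_smooth D hF).contDiffAt (A1_open.mem_nhds hx)).differentiableAt (by simp)
  have h3 : DifferentiableAt ℝ (fund F) x := A1_fund_diff hF hx
  have h4 : DifferentiableAt ℝ (fun y => D.mm y) x := D.mm.differentiableAt
  have h5 : DifferentiableAt ℝ (fun y => (fund F y).flip) x :=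
    (ContinuousLinearMap.flipₗᵢ ℝ V V ℝ).differentiable.differentiableAt.comp x h3
  have h6 : DifferentiableAt ℝ (fun y => ((fund F y).flip.comp (D.mm y)).flip) x :=
    (ContinuousLinearMap.flipₗᵢ ℝ V V ℝ).differentiable.differentiableAt.comp x (h5.clm_comp h4)
  exact ((h1.clm_apply h2).add (h3.clm_comp h4)).add h6

theorem dkk1_act {D : RedData V} {F : V → ℝ} (hF : IsMinkowski F) {R : ℝ → V ≃L[ℝ] V} {n : ℝ}
    (hR : IsFlow D F R n) {x : V} (hx : x ≠ 0) (u v : V) :
    fderiv ℝ (fun y => kk1 D F y u v) x (D.act x)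
      = - kk1 D F x (D.act u) v - kk1 D F x u (D.act v) := by
  have h1 := L2_bil (L2_KK_diff D hF hx) hR u v (fun θ => by
    rw [L2_KK_apply D hF (L1_ne (R θ) hx), L2_KK_apply D hF hx]
    exact kk1_equi D hF (R θ) (hR.inv θ) (hR.mm θ) hx u v)
  have h2 : (fun y => kk1 D F y u v) =ᶠ[nhds x] fun y => L2_KK D F y u v := by
    filter_upwards [A1_open.mem_nhds hx] with y hy
    exact (L2_KK_apply D hF hy u v).symm
  rw [h2.fderiv_eq, h1, L2_KK_apply D hF hx, L2_KK_apply D hF hx]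

end HFin
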