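import Pool.Agent.HFin.L2
import Pool.Agent.HFin.C2

/-! MODULE L3 (diff 2-3): the core of the exclusion argument.

Hypotheses at the flagpole `x ≠ 0`: `spray x = τ act x` (stationary); with `X v = [x,v] - τ act v`:
`X e = κ e'`, `X e' = -κ e`; a subspace `U` with `X U ⊆ U`, `V = U + ⟨e,e'⟩`, `g_x(U, e) = g_x(U,e') = 0`;
`g_x(x,[v,e]) = g_x(x,[v,e']) = 0` for all `v`; `[x,e]_𝔥 = [x,e']_𝔥 = 0`; `e, e'` independent.
Then some `w = a e + b e' ≠ 0` has `curvQ D F x w ≤ 0`.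
Proof.  `k(u,v) = D_η g(u,v) + g([x,u],v) + g(u,[x,v]) = g(Xu,v) + g(u,Xv)` (`dfund_act`, `η = τ act x`),
and `k°(u,v) = k(Xu,v) + k(u,Xv)` (`dkk1_act`).  Let `w_θ = cos θ e + sin θ e'`,
`w'_θ = -sin θ e + cos θ e'`: `X w_θ = κ w'_θ`, `X w'_θ = -κ w_θ`.  Choose `θ` minimising
`g(w_θ,w_θ)` (continuous periodic); then `g(w,w') = 0` (derivative) and
`G' := g(w',w') ≥ G := g(w,w) > 0` (`w'_θ = w_{θ+π/2}`).  `k(w,w) = 2κ g(w',w) = 0`,
`k(w,w') = κ(g(w',w') - g(w,w)) = κδ`, `δ = G' - G ≥ 0`; `k(w,u) = g(Xw,u) + g(w,Xu) = 0` for `u ∈ U`.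
`2 g(Nw,v) = g(x,[v,w]) - k(w,v) = - k(w,v)` (`conn_kk1`): so `g(Nw,v) = g(-(κδ/(2G')) w', v)` for all
`v` (check on `U`, `w`, `w'`), `Nw = -(κδ/(2G'))w'`, `g(Nw,Nw) = κ²δ²/(4G')`.
`k°(w,w) = 2 k(Xw,w) = 2κ k(w',w) = 2κ²δ`.  `curvQ = κ²δ²/(4G') - κ²δ = κ²δ(δ/(4G') - 1) ≤ 0` as
`0 ≤ δ ≤ G'`.
-/

namespace HFin

variable {V : Type*} [NormedAddCommGroup V] [NormedSpace ℝ V] [FiniteDimensional ℝ V]

/-- `X v = [x,v] - τ act v`. -/
private noncomputable def L3X (D : RedData V) (x : V) (τ : ℝ) (v : V) : V := D.mm x v - τ • D.act v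

private theorem L3_kk1 {D : RedData V} {F : V → ℝ} (hF : IsMinkowski F) {R : ℝ → V ≃L[ℝ] V} {n : ℝ}
    (hR : IsFlow D F R n) {x : V} (hx : x ≠ 0) (τ : ℝ) (hs : spray D F x = τ • D.act x) (u v : V) :
    kk1 D F x u v = fund F x (L3X D x τ u) v + fund F x u (L3X D x τ v) := by
  have h := dfund_act hF hR hx u v
  simp only [kk1, hs, L3X, map_smul, map_sub, smul_apply,
    sub_apply, smul_eq_mul, h]
  ring

private theorem L3_kk1_neg (D : RedData V) {F : V → ℝ} (hF : IsMinkowski F) {x : V} (hx : x ≠ 0)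
    (c : ℝ) (u u' v : V) : kk1 D F x (u - c • u') v = kk1 D F x u v - c * kk1 D F x u' v := by
  rw [sub_eq_add_neg, kk1_add D hF hx, ← neg_smul, kk1_smul D hF hx]
  ring

private theorem L3_kk2 {D : RedData V} {F : V → ℝ} (hF : IsMinkowski F) {R : ℝ → V ≃L[ℝ] V} {n : ℝ}
    (hR : IsFlow D F R n) {x : V} (hx : x ≠ 0) (τ : ℝ) (hs : spray D F x = τ • D.act x) (u v : V) :
    kk2 D F x u v = kk1 D F x (L3X D x τ u) v + kk1 D F x u (L3X D x τ v) := by
  have h := dkk1_act hF hR hx u v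
  have h1 := L3_kk1_neg D hF hx τ (D.mm x u) (D.act u) v
  have h2 := L3_kk1_neg D hF hx τ (D.mm x v) (D.act v) u
  rw [kk1_symm D hF hx _ u, kk1_symm D hF hx (D.mm x v) u, kk1_symm D hF hx (D.act v) u] at h2
  simp only [kk2, hs, map_smul, smul_eq_mul, h, L3X, h1, h2]
  ring

private theorem L3_diag (A B C : ℝ) : ∃ a b : ℝ, (a, b) ≠ (0, 0) ∧
    a * b * (C - A) + (a ^ 2 - b ^ 2) * B = 0 ∧
    a ^ 2 * A + 2 * (a * b) * B + b ^ 2 * C ≤ b ^ 2 * A - 2 * (a * b) * B + a ^ 2 * C := by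
  by_cases hB : B = 0
  · rcases le_total A C with h | h
    · exact ⟨1, 0, by simp, by simp [hB], by simp [h]⟩
    · exact ⟨0, 1, by simp, by simp [hB], by simp [h]⟩
  · set r := Real.sqrt ((C - A) ^ 2 + 4 * B ^ 2) with hr
    have hr0 : 0 ≤ r := Real.sqrt_nonneg _
    have hr2 : r ^ 2 = (C - A) ^ 2 + 4 * B ^ 2 := by
      rw [hr, Real.sq_sqrt]; positivity
    have hrD : C - A ≤ r := by
      apply Real.le_sqrt_of_sq_le
      nlinarith [sq_nonneg B]
    refine ⟨2 * B, (C - A) - r, by simp [hB], ?_, ?_⟩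
    · linear_combination (-B) * hr2
    · have key : (((C - A) - r) ^ 2 * A - 2 * (2 * B * ((C - A) - r)) * B + (2 * B) ^ 2 * C)
        - ((2 * B) ^ 2 * A + 2 * (2 * B * ((C - A) - r)) * B + ((C - A) - r) ^ 2 * C)
        = 2 * (r - (C - A)) * r ^ 2 := by
        linear_combination (-(2 * r - (C - A))) * hr2
      nlinarith [mul_nonneg (sub_nonneg.2 hrD) (sq_nonneg r)]

theorem core_nonpos {D : RedData V} {F : V → ℝ} (hF : IsMinkowski F) {R : ℝ → V ≃L[ℝ] V} {n : ℝ}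
    (hR : IsFlow D F R n) {x : V} (hx : x ≠ 0) (τ κ : ℝ) (hs : spray D F x = τ • D.act x)
    (e e' : V) (U : Submodule ℝ V)
    (hspan : ∀ v : V, ∃ u ∈ U, ∃ a b : ℝ, v = u + a • e + b • e')
    (horth : ∀ u ∈ U, fund F x u e = 0 ∧ fund F x u e' = 0)
    (hXU : ∀ u ∈ U, D.mm x u - τ • D.act u ∈ U)
    (hXe : D.mm x e - τ • D.act e = κ • e') (hXe' : D.mm x e' - τ • D.act e' = -κ • e)
    (hξ : ∀ v, fund F x x (D.mm v e) = 0 ∧ fund F x x (D.mm v e') = 0)
    (hh : D.mh x e = 0 ∧ D.mh x e' = 0)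
    (hli : ∀ a b : ℝ, a • e + b • e' = 0 → a = 0 ∧ b = 0) :
    ∃ a b : ℝ, a • e + b • e' ≠ 0 ∧ curvQ D F x (a • e + b • e') ≤ 0 := by
  obtain ⟨a, b, hab, hH, hG⟩ := L3_diag (fund F x e e) (fund F x e e') (fund F x e' e')
  set g := fund F x with hg
  have gs : ∀ u v, g u v = g v u := fun u v => fund_symm hF hx u v
  set w := a • e + b • e' with hw
  set w' := (-b) • e + a • e' with hw'
  have hw0 : w ≠ 0 := by
    intro h
    obtain ⟨h1, h2⟩ := hli a b h
    exact hab (by simp [h1, h2])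
  have hw'0 : w' ≠ 0 := by
    intro h
    obtain ⟨h1, h2⟩ := hli (-b) a h
    exact hab (by simp [h2, neg_eq_zero.1 h1])
  have hn : 0 < a ^ 2 + b ^ 2 := by
    rcases eq_or_ne a 0 with ha | ha
    · have hb : b ≠ 0 := fun h => hab (by simp [ha, h])
      positivity
    · positivity
  have hXw : L3X D x τ w = κ • w' := by
    have : L3X D x τ w = a • (D.mm x e - τ • D.act e) + b • (D.mm x e' - τ • D.act e') := by
      simp only [L3X, hw, map_add, map_smul]; module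
    rw [this, hXe, hXe', hw']; module
  have hXw' : L3X D x τ w' = (-κ) • w := by
    have : L3X D x τ w' = (-b) • (D.mm x e - τ • D.act e) + a • (D.mm x e' - τ • D.act e') := by
      simp only [L3X, hw', map_add, map_smul]; module
    rw [this, hXe, hXe', hw]; module
  have gww' : g w w' = 0 := by
    simp only [hw, hw', map_add, map_smul, add_apply,
      smul_apply, smul_eq_mul]
    rw [gs e' e]
    linear_combination hH
  have gw'w : g w' w = 0 := by rw [gs]; exact gww'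
  have hGG : g w w ≤ g w' w' := by
    simp only [hw, hw', map_add, map_smul, add_apply,
      smul_apply, smul_eq_mul]
    rw [gs e' e]
    linarith [hG]
  have hG0 : 0 < g w w := hF.conv x w hx hw0
  have hG'0 : 0 < g w' w' := hF.conv x w' hx hw'0
  have hkk : ∀ u v, kk1 D F x u v = g (L3X D x τ u) v + g u (L3X D x τ v) :=
    fun u v => L3_kk1 hF hR hx τ hs u v
  have kww : kk1 D F x w w = 0 := by
    rw [hkk, hXw]
    simp [gww', gw'w]
  have kww' : kk1 D F x w w' = κ * (g w' w' - g w w) := by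
    rw [hkk, hXw, hXw']
    simp
    ring
  have gUw : ∀ u ∈ U, g w u = 0 ∧ g w' u = 0 := by
    intro u hu
    obtain ⟨h1, h2⟩ := horth u hu
    have h1' : g e u = 0 := by rw [gs]; exact h1
    have h2' : g e' u = 0 := by rw [gs]; exact h2
    constructor
    · simp [hw, h1', h2']
    · simp [hw', h1', h2']
  have kwu : ∀ u ∈ U, kk1 D F x w u = 0 := by
    intro u hu
    rw [hkk, hXw, (gUw _ (hXU u hu) : g w (L3X D x τ u) = 0 ∧ _).1]
    simp [(gUw u hu).2]
  have hspan' : ∀ v : V, ∃ u ∈ U, ∃ α β : ℝ, v = u + α • w + β • w' := by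
    intro v
    obtain ⟨u, hu, α, β, rfl⟩ := hspan v
    refine ⟨u, hu, (a * α + b * β) / (a ^ 2 + b ^ 2), (-b * α + a * β) / (a ^ 2 + b ^ 2), ?_⟩
    have h1 : (a * α + b * β) / (a ^ 2 + b ^ 2) * a + (-b * α + a * β) / (a ^ 2 + b ^ 2) * (-b)
        = α := by field_simp; ring
    have h2 : (a * α + b * β) / (a ^ 2 + b ^ 2) * b + (-b * α + a * β) / (a ^ 2 + b ^ 2) * a
        = β := by field_simp; ring
    have : u + ((a * α + b * β) / (a ^ 2 + b ^ 2)) • w
        + ((-b * α + a * β) / (a ^ 2 + b ^ 2)) • w' =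
        u + ((a * α + b * β) / (a ^ 2 + b ^ 2) * a
          + (-b * α + a * β) / (a ^ 2 + b ^ 2) * (-b)) • e
        + ((a * α + b * β) / (a ^ 2 + b ^ 2) * b
          + (-b * α + a * β) / (a ^ 2 + b ^ 2) * a) • e' := by
      rw [hw, hw']; module
    rw [this, h1, h2]
  set G' := g w' w' with hG'
  set G := g w w with hGd
  have hξ0 : ∀ v, g x (D.mm v w) = 0 := by
    intro v
    have := hξ v
    simp only [hw, map_add, map_smul, this.1, this.2]
    simp
  have hN : conn D F x w = (-(κ * (G' - G) / (2 * G'))) • w' := by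
    apply fund_inj hF hx
    intro v
    have h1 := conn_kk1 D hF hx w v
    rw [← hg, hξ0 v] at h1
    obtain ⟨u, hu, α, β, rfl⟩ := hspan' v
    have hk : kk1 D F x w (u + α • w + β • w') = β * (κ * (G' - G)) := by
      rw [kk1_symm D hF hx, kk1_add D hF hx, kk1_add D hF hx, kk1_smul D hF hx,
        kk1_smul D hF hx, kk1_symm D hF hx u, kk1_symm D hF hx w', kwu u hu, kww, kww']
      ring
    rw [hk] at h1
    rw [← hg]
    have h2 : g ((-(κ * (G' - G) / (2 * G'))) • w') (u + α • w + β • w')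
        = (-(κ * (G' - G) / (2 * G'))) * (β * G') := by
      simp only [map_add, map_smul, smul_apply, smul_eq_mul,
        (gUw u hu).2, gw'w, ← hG']
      ring
    rw [h2]
    have h3 : g (conn D F x w) (u + α • w + β • w') = -(β * (κ * (G' - G))) / 2 := by
      linarith
    rw [h3]
    field_simp
  refine ⟨a, b, hw0, ?_⟩
  have hmh : D.mh x w = 0 := by
    simp [hw, hh.1, hh.2]
  have hk2 : kk2 D F x w w = 2 * κ ^ 2 * (G' - G) := by
    rw [L3_kk2 hF hR hx τ hs, hXw, kk1_smul D hF hx, kk1_symm D hF hx w (κ • w'),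
      kk1_smul D hF hx, kk1_symm D hF hx w' w, kww']
    ring
  have hgN : g (conn D F x w) (conn D F x w) = κ ^ 2 * (G' - G) ^ 2 / (4 * G') := by
    rw [hN]
    simp only [map_smul, smul_apply, smul_eq_mul, ← hG']
    field_simp
    ring
  have : curvQ D F x w = κ ^ 2 * (G' - G) * ((G' - G) / (4 * G') - 1) := by
    rw [curvQ, ← hg, hgN, hk2, hmh]
    field_simp
    ring
  rw [← hw, this]
  have hδ : 0 ≤ G' - G := by linarith
  have h4 : (G' - G) / (4 * G') - 1 ≤ 0 := by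
    rw [sub_nonpos, div_le_one (by positivity)]
    linarith
  exact mul_nonpos_of_nonneg_of_nonpos (by positivity) h4

end HFin
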