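import Pool.Agent.HFin.Defs

/-!
# The homogeneous spaces `SU(2) × SU(2) / S¹_{(p,q)}`

`𝔤 = 𝔰𝔲(2) ⊕ 𝔰𝔲(2)` is `ℝ³ × ℝ³` with the cross product in each factor; `H` is the circle
generated by `(p e₀, q e₀)`, `𝔪` is the orthogonal complement of `𝔥`.
-/

namespace HFin

/-- `ℝ⁵`, the model of `𝔪`. -/
abbrev V5 := EuclideanSpace ℝ (Fin 5)

/-- `𝔰𝔲(2) ⊕ 𝔰𝔲(2)` as `ℝ³ × ℝ³`. -/
abbrev G6 := (Fin 3 → ℝ) × (Fin 3 → ℝ)

/-- The Lie bracket of `𝔰𝔲(2) ⊕ 𝔰𝔲(2)`. -/
def brk (a b : G6) : G6 := (crossProduct a.1 b.1, crossProduct a.2 b.2)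

/-- `√(p² + q²)`. -/
noncomputable def nrm (p q : ℕ) : ℝ := Real.sqrt ((p : ℝ) ^ 2 + (q : ℝ) ^ 2)

/-- The unit generator `h₀ = (p e₀, q e₀) / √(p²+q²)` of `𝔥`. -/
noncomputable def hzero (p q : ℕ) : G6 := (![p / nrm p q, 0, 0], ![q / nrm p q, 0, 0])

/-- The isometric embedding of `𝔪` in `𝔤`: `e₀ ↦ (q e₀, -p e₀)/√(p²+q²)`. -/
noncomputable def emb (p q : ℕ) (x : V5) : G6 :=
  (![q / nrm p q * x 0, x 1, x 2], ![-(p / nrm p q) * x 0, x 3, x 4])

/-- The projection of `𝔤` onto `𝔪` along `𝔥`. -/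
noncomputable def prM (p q : ℕ) (a : G6) : V5 :=
  !₂[q / nrm p q * a.1 0 - p / nrm p q * a.2 0, a.1 1, a.1 2, a.2 1, a.2 2]

/-- The `h₀` coefficient. -/
noncomputable def prH (p q : ℕ) (a : G6) : ℝ := p / nrm p q * a.1 0 + q / nrm p q * a.2 0

/-- Make a bilinear map of finite-dimensional spaces continuous. -/
noncomputable def toCB {V W : Type*} [NormedAddCommGroup V] [NormedSpace ℝ V]
    [FiniteDimensional ℝ V] [NormedAddCommGroup W] [NormedSpace ℝ W]
    (f : V →ₗ[ℝ] V →ₗ[ℝ] W) : V →L[ℝ] V →L[ℝ] W :=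
  LinearMap.toContinuousLinearMap
    ((LinearMap.toContinuousLinearMap : (V →ₗ[ℝ] W) ≃ₗ[ℝ] (V →L[ℝ] W)).toLinearMap ∘ₗ f)

@[simp] lemma toCB_apply {V W : Type*} [NormedAddCommGroup V] [NormedSpace ℝ V]
    [FiniteDimensional ℝ V] [NormedAddCommGroup W] [NormedSpace ℝ W]
    (f : V →ₗ[ℝ] V →ₗ[ℝ] W) (x y : V) : toCB f x y = f x y := rfl

/-- The bracket data of `SU(2) × SU(2) / S¹_{(p,q)}`. -/
noncomputable def su2 (p q : ℕ) : RedData V5 where
  mm := toCB (LinearMap.mk₂ ℝ (fun x y => prM p q (brk (emb p q x) (emb p q y)))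
    (by
      intro x x' y
      ext i
      fin_cases i <;> simp [prM, brk, emb, crossProduct] <;> ring)
    (by
      intro c x y
      ext i
      fin_cases i <;> simp [prM, brk, emb, crossProduct] <;> ring)
    (by
      intro x y y'
      ext i
      fin_cases i <;> simp [prM, brk, emb, crossProduct] <;> ring)
    (by
      intro c x y
      ext i
      fin_cases i <;> simp [prM, brk, emb, crossProduct] <;> ring))
  mh := toCB (LinearMap.mk₂ ℝ (fun x y => prH p q (brk (emb p q x) (emb p q y)))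
    (by
      intro x x' y
      simp [prH, brk, emb, crossProduct]; ring)
    (by
      intro c x y
      simp [prH, brk, emb, crossProduct]; ring)
    (by
      intro x y y'
      simp [prH, brk, emb, crossProduct]; ring)
    (by
      intro c x y
      simp [prH, brk, emb, crossProduct]; ring))
  act := LinearMap.toContinuousLinearMap
    { toFun := fun x => prM p q (brk (hzero p q) (emb p q x))
      map_add' := by
        intro x y
        ext i
        fin_cases i <;> simp [prM, brk, emb, hzero, crossProduct] <;> ring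
      map_smul' := by
        intro c x
        ext i
        fin_cases i <;> simp [prM, brk, emb, hzero, crossProduct] <;> ring }
  mm_self := by
    intro x
    ext i
    fin_cases i <;> simp [prM, brk, emb, crossProduct] <;> ring
  mh_self := by
    intro x
    simp [prH, brk, emb, crossProduct]
    ring

/-- The isotropy action of `exp(θ (p e₀, q e₀))` on `𝔪`: rotation by the angle `p θ` in the plane
of the first factor and by `q θ` in the plane of the second factor. -/
noncomputable def rot (p q : ℕ) (θ : ℝ) (x : V5) : V5 :=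
  !₂[x 0,
    Real.cos (p * θ) * x 1 - Real.sin (p * θ) * x 2,
    Real.sin (p * θ) * x 1 + Real.cos (p * θ) * x 2,
    Real.cos (q * θ) * x 3 - Real.sin (q * θ) * x 4,
    Real.sin (q * θ) * x 3 + Real.cos (q * θ) * x 4]

/-- `F` is invariant under the isotropy group. -/
def IsoInv (p q : ℕ) (F : V5 → ℝ) : Prop := ∀ (θ : ℝ) (x : V5), F (rot p q θ x) = F x

/-- `SU(2) × SU(2) / S¹_{(p,q)}` admits a homogeneous Finsler metric of positive flag curvature. -/
def AdmitsPos (p q : ℕ) : Prop :=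
  ∃ F : V5 → ℝ, IsMinkowski F ∧ IsoInv p q F ∧ PosFlag (su2 p q) F

end HFin
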